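import Pool.Agent.Lib.MP_ddd95a_nt.Mg.G013

/-!
# Bit-level soundness of the emptiness test of the checker
-/

set_option autoImplicit false

namespace Pool.Agent.Lib.MP_ddd95a_nt

/-! ### Packed lists -/

lemma bb_pkL_add {α : Type*} (w : ℕ) (f g : α → ℕ) (l : List α) :
    pkL w (l.map fun v => f v + g v) = pkL w (l.map f) + pkL w (l.map g) := by
  induction l with
  | nil => rfl
  | cons a l ih =>
    simp only [List.map_cons, pkL, ih]
    ring

lemma bb_pkL_mul {α : Type*} (w : ℕ) (f : α → ℕ) (c : ℕ) (l : List α) :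
    pkL w (l.map fun v => f v * c) = pkL w (l.map f) * c := by
  induction l with
  | nil => simp [pkL]
  | cons a l ih =>
    simp only [List.map_cons, pkL, ih]
    ring

lemma bb_pkL_sub {α : Type*} (w : ℕ) (f g : α → ℕ) (l : List α) (h : ∀ v ∈ l, g v ≤ f v) :
    pkL w (l.map f) - pkL w (l.map g) = pkL w (l.map fun v => f v - g v) := by
  have h1 : pkL w (l.map f) = pkL w (l.map fun v => f v - g v) + pkL w (l.map g) := by
    rw [← bb_pkL_add]
    congr 1
    apply List.map_congr_left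
    intro v hv
    have := h v hv
    omega
  omega

lemma bb_testBit_pkL (w : ℕ) (l : List ℕ) (hl : ∀ x ∈ l, x < 2 ^ w) (i k : ℕ) (hk : k < w) :
    (pkL w l).testBit (w * i + k) = (l.getD i 0).testBit k := by
  induction l generalizing i with
  | nil => simp [pkL]
  | cons d l ih =>
    have hd : d < 2 ^ w := hl d (by simp)
    have e : pkL w (d :: l) = 2 ^ w * pkL w l + d := by simp only [pkL]; ring
    rw [e, Nat.testBit_two_pow_mul_add _ hd]
    cases i with
    | zero => simp [hk]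
    | succ i =>
      have h1 : ¬ (w * (i + 1) + k < w) := by
        rw [mul_add]; omega
      have h2 : w * (i + 1) + k - w = w * i + k := by
        rw [mul_add]; omega
      rw [if_neg h1, h2, ih (fun x hx => hl x (List.mem_cons_of_mem _ hx))]
      simp

lemma bb_div_pkL (w : ℕ) (l : List ℕ) (hl : ∀ x ∈ l, x < 2 ^ w) (i : ℕ) :
    pkL w l / 2 ^ (w * i) % 2 ^ w = l.getD i 0 := by
  induction l generalizing i with
  | nil => simp [pkL]
  | cons d l ih =>
    have hd : d < 2 ^ w := hl d (by simp)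
    cases i with
    | zero =>
      simp only [pkL, mul_zero, pow_zero, Nat.div_one, Nat.add_mul_mod_self_left,
        List.getD_cons_zero]
      exact Nat.mod_eq_of_lt hd
    | succ i =>
      have e : pkL w (d :: l) / 2 ^ (w * (i + 1)) = pkL w l / 2 ^ (w * i) := by
        rw [mul_add, mul_one, pow_add, mul_comm (2 ^ (w * i)), ← Nat.div_div_eq_div_mul]
        congr 1
        simp only [pkL]
        rw [Nat.add_mul_div_left _ _ (by positivity), Nat.div_eq_of_lt hd, zero_add]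
      rw [e, ih (fun x hx => hl x (List.mem_cons_of_mem _ hx))]
      simp

lemma bb_mod_pkL (w : ℕ) (l : List ℕ) (hl : ∀ x ∈ l, x < 2 ^ w) (n : ℕ) :
    pkL w l % 2 ^ (w * n) = pkL w (l.take n) := by
  induction n generalizing l with
  | zero => simp [pkL, Nat.mod_one]
  | succ n ih =>
    cases l with
    | nil => simp [pkL]
    | cons d l =>
      have hd : d < 2 ^ w := hl d (by simp)
      have e : 2 ^ (w * (n + 1)) = 2 ^ w * 2 ^ (w * n) := by rw [mul_add, mul_one, pow_add, mul_comm]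
      simp only [pkL, List.take_succ_cons]
      rw [e, Nat.mod_mul, Nat.add_mul_mod_self_left, Nat.mod_eq_of_lt hd,
        Nat.add_mul_div_left _ _ (by positivity), Nat.div_eq_of_lt hd, zero_add,
        ih l (fun x hx => hl x (List.mem_cons_of_mem _ hx))]

/-! ### Groups of four lanes -/

lemma bb_pk4_lt {a b c d : ℕ} (ha : a < 65536) (hb : b < 65536) (hc : c < 65536) (hd : d < 65536) :
    pk4 16 a b c d < 2 ^ 64 := by
  unfold pk4; omega

lemma bb_pk4_sub {a b c d a' b' c' d' : ℕ} (ha : a' ≤ a) (hb : b' ≤ b) (hc : c' ≤ c)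
    (hd : d' ≤ d) :
    pk4 16 a b c d - pk4 16 a' b' c' d' = pk4 16 (a - a') (b - b') (c - c') (d - d') := by
  unfold pk4; omega

lemma bb_pk4_le {a b c d a' b' c' d' : ℕ} (ha : a' ≤ a) (hb : b' ≤ b) (hc : c' ≤ c)
    (hd : d' ≤ d) : pk4 16 a' b' c' d' ≤ pk4 16 a b c d := by
  unfold pk4; omega

lemma bb_testBit_pk4 (L : Fin 4 → ℕ) (hL : ∀ s, L s < 65536) (s : Fin 4) (k : ℕ) (hk : k < 16) :
    (pk4 16 (L 0) (L 1) (L 2) (L 3)).testBit (16 * s + k) = (L s).testBit k := by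
  have h0 := hL 0
  have h1 := hL 1
  have h2 := hL 2
  have h3 := hL 3
  have e : pk4 16 (L 0) (L 1) (L 2) (L 3) = pkL 16 [L 0, L 1, L 2, L 3] := by
    simp [pk4, pkL]
  rw [e, bb_testBit_pkL 16 _ _ s k hk]
  · fin_cases s <;> rfl
  · intro x hx
    simp only [List.mem_cons, List.not_mem_nil, or_false] at hx
    rcases hx with rfl | rfl | rfl | rfl <;> assumption

/-! ### Packed functions on `full` -/

/-- The packed number with lanes `L v s`, `v ∈ full`. -/
def pkF (L : ℤ × ℤ × ℤ → Fin 4 → ℕ) : ℕ :=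
  pkL 64 (full.map fun v => pk4 16 (L v 0) (L v 1) (L v 2) (L v 3))

lemma bb_FL (X : ℤ × ℤ × ℤ → Fin 4 → ℤ) : FL X = pkF (fun v s => (32768 + X v s).toNat) := rfl

lemma bb_len : full.length = 290 := by decide +kernel

lemma bb_len_half : half.length = 145 := by decide +kernel

lemma bb_fv_mem {i : ℕ} (hi : i < 290) : fv i ∈ full := by
  unfold fv
  rw [List.getD_eq_getElem _ _ (by rw [bb_len]; exact hi)]
  exact List.getElem_mem _

lemma bb_getD_map {f : ℤ × ℤ × ℤ → ℕ} {i : ℕ} :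
    (full.map f).getD i 0 = if i < 290 then f (fv i) else 0 := by
  split_ifs with h
  · unfold fv
    rw [List.getD_eq_getElem _ _ (by rw [List.length_map, bb_len]; exact h),
      List.getD_eq_getElem _ _ (by rw [bb_len]; exact h), List.getElem_map]
  · rw [List.getD_eq_getElem?_getD, List.getElem?_eq_none (by rw [List.length_map, bb_len]; omega)]
    rfl

lemma bb_pkF_lt {L : ℤ × ℤ × ℤ → Fin 4 → ℕ} (hL : ∀ v ∈ full, ∀ s, L v s < 65536) :
    ∀ x ∈ full.map (fun v => pk4 16 (L v 0) (L v 1) (L v 2) (L v 3)), x < 2 ^ 64 := by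
  intro x hx
  obtain ⟨v, hv, rfl⟩ := List.mem_map.mp hx
  exact bb_pk4_lt (hL v hv 0) (hL v hv 1) (hL v hv 2) (hL v hv 3)

lemma bb_testBit_pkF {L : ℤ × ℤ × ℤ → Fin 4 → ℕ} (hL : ∀ v ∈ full, ∀ s, L v s < 65536)
    {i : ℕ} (hi : i < 290) (s : Fin 4) (k : ℕ) (hk : k < 16) :
    (pkF L).testBit (64 * i + (16 * s + k)) = (L (fv i) s).testBit k := by
  unfold pkF
  have hs := s.isLt
  rw [bb_testBit_pkL 64 _ (bb_pkF_lt hL) i (16 * s + k) (by omega), bb_getD_map, if_pos hi]
  exact bb_testBit_pk4 (L (fv i)) (hL _ (bb_fv_mem hi)) s k hk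

lemma bb_top {n : ℕ} (h : n < 65536) : n.testBit 15 = true ↔ 32768 ≤ n := by
  rw [Nat.testBit_eq_decide_div_mod_eq, decide_eq_true_iff]
  omega

lemma bb_and4 {L : ℤ × ℤ × ℤ → Fin 4 → ℕ} (hL : ∀ v ∈ full, ∀ s, L v s < 65536)
    {i : ℕ} (hi : i < 290) :
    (and4 (pkF L)).testBit (64 * i + 15) = true ↔ ∀ s, 32768 ≤ L (fv i) s := by
  have hf := hL _ (bb_fv_mem hi)
  have h0 := bb_testBit_pkF hL hi 0 15 (by norm_num)
  have h1 := bb_testBit_pkF hL hi 1 15 (by norm_num)
  have h2 := bb_testBit_pkF hL hi 2 15 (by norm_num)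
  have h3 := bb_testBit_pkF hL hi 3 15 (by norm_num)
  have e : (and4 (pkF L)).testBit (64 * i + 15) =
      (((pkF L).testBit (64 * i + 15) && (pkF L).testBit (16 + (64 * i + 15))) &&
        ((pkF L).testBit (32 + (64 * i + 15)) && (pkF L).testBit (16 + (32 + (64 * i + 15))))) := by
    show (((pkF L &&& (pkF L >>> 16)) &&& ((pkF L &&& (pkF L >>> 16)) >>> 32))).testBit _ = _
    rw [Nat.testBit_and, Nat.testBit_and, Nat.testBit_shiftRight, Nat.testBit_shiftRight,
      Nat.testBit_and, Nat.testBit_shiftRight]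
  rw [e]
  have e0 : 64 * i + 15 = 64 * i + (16 * ((0 : Fin 4) : ℕ) + 15) := by simp
  have e1 : 16 + (64 * i + 15) = 64 * i + (16 * ((1 : Fin 4) : ℕ) + 15) := by simp; ring
  have e2 : 32 + (64 * i + 15) = 64 * i + (16 * ((2 : Fin 4) : ℕ) + 15) := by simp; ring
  have e3 : 16 + (32 + (64 * i + 15)) = 64 * i + (16 * ((3 : Fin 4) : ℕ) + 15) := by simp; ring
  rw [e3, e2, e1, e0, h0, h1, h2, h3, Bool.and_eq_true, Bool.and_eq_true, Bool.and_eq_true,
    bb_top (hf 0), bb_top (hf 1), bb_top (hf 2), bb_top (hf 3)]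
  constructor
  · rintro ⟨⟨g0, g1⟩, ⟨g2, g3⟩⟩ s
    fin_cases s <;> assumption
  · intro h
    exact ⟨⟨h 0, h 1⟩, ⟨h 2, h 3⟩⟩

lemma bb_pkF_sub {L M : ℤ × ℤ × ℤ → Fin 4 → ℕ} (h : ∀ v ∈ full, ∀ s, M v s ≤ L v s) :
    pkF L - pkF M = pkF (fun v s => L v s - M v s) := by
  unfold pkF
  rw [bb_pkL_sub]
  · congr 1
    apply List.map_congr_left
    intro v hv
    exact bb_pk4_sub (h v hv 0) (h v hv 1) (h v hv 2) (h v hv 3)
  · intro v hv
    exact bb_pk4_le (h v hv 0) (h v hv 1) (h v hv 2) (h v hv 3)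

lemma bb_REP : REP = pkL 64 (full.map fun _ => 1) := by decide +kernel

lemma bb_MASK : MASK = pkL 64 (half.map fun _ => 32768) := by decide +kernel

lemma bb_H0 : H0 = pkF (fun _ _ => 65599) := by decide +kernel

lemma bb_REP_mul (a : Fin 4 → ℕ) :
    REP * pk4 16 (a 0) (a 1) (a 2) (a 3) = pkF (fun _ s => a s) := by
  unfold pkF
  rw [bb_REP, ← bb_pkL_mul]
  simp

lemma bb_MASK_bit {i : ℕ} (hi : i < 145) : MASK.testBit (64 * i + 15) = true := by
  rw [bb_MASK, bb_testBit_pkL 64 _ _ i 15 (by norm_num)]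
  · rw [List.getD_eq_getElem _ _ (by rw [List.length_map, bb_len_half]; exact hi),
      List.getElem_map]
    decide
  · intro x hx
    obtain ⟨v, _, rfl⟩ := List.mem_map.mp hx
    norm_num

lemma bb_fv_neg {i : ℕ} (hi : i < 145) : fv (i + 145) = neg3 (fv i) := by
  unfold fv full
  rw [List.getD_append_right _ _ _ _ (by rw [bb_len_half]; omega), bb_len_half,
    Nat.add_sub_cancel, List.getD_append _ _ _ _ (by rw [bb_len_half]; exact hi),
    List.getD_eq_getElem _ _ (by rw [List.length_map, bb_len_half]; exact hi),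
    List.getD_eq_getElem _ _ (by rw [bb_len_half]; exact hi), List.getElem_map]
  rfl

lemma bb_half_idx {v : ℤ × ℤ × ℤ} (hv : v ∈ half) : ∃ i < 145, fv i = v := by
  obtain ⟨i, hi, h⟩ := List.mem_iff_getElem.mp hv
  have hi' : i < 145 := by rwa [bb_len_half] at hi
  refine ⟨i, hi', ?_⟩
  unfold fv full
  rw [List.getD_append _ _ _ _ (by rw [bb_len_half]; exact hi'),
    List.getD_eq_getElem _ _ hi, h]

/-! ### Groups of `FL X` -/

lemma bb_getG_pkF {L : ℤ × ℤ × ℤ → Fin 4 → ℕ} (hL : ∀ v ∈ full, ∀ s, L v s < 65536) (w : ℕ) :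
    getG (pkF L) w = if w < 290 then pk4 16 (L (fv w) 0) (L (fv w) 1) (L (fv w) 2) (L (fv w) 3)
      else 0 := by
  have e : getG (pkF L) w = pkF L / 2 ^ (64 * w) % 2 ^ 64 := by
    show (pkF L >>> (64 * w)) &&& (2 ^ 64 - 1) = _
    rw [Nat.and_two_pow_sub_one_eq_mod, Nat.shiftRight_eq_div_pow]
  rw [e]
  unfold pkF
  rw [bb_div_pkL 64 _ (bb_pkF_lt hL), bb_getD_map]

lemma bb_lane_lt {X : ℤ × ℤ × ℤ → Fin 4 → ℤ} (hX : BX X) :
    ∀ v ∈ full, ∀ s, (32768 + X v s).toNat < 65536 := by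
  intro v hv s
  have := abs_le.mp (hX.bd v hv s)
  omega

/-- Test on top bits. -/
lemma bb_topOK {L : Fin 4 → ℕ} (hL : ∀ s, L s < 65536) :
    topOK (pk4 16 (L 0) (L 1) (L 2) (L 3)) = true → ∀ s, 32768 ≤ L s := by
  intro h s
  have h1 : pk4 16 (L 0) (L 1) (L 2) (L 3) &&& 9223512776490647552 = 9223512776490647552 :=
    Nat.eq_of_beq_eq_true h
  have h2 := congrArg (fun x => Nat.testBit x (16 * s + 15)) h1
  rw [Nat.testBit_and, bb_testBit_pk4 L hL s 15 (by norm_num)] at h2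
  have h3 : Nat.testBit 9223512776490647552 (16 * s + 15) = true := by
    fin_cases s <;> decide
  rw [h3, Bool.and_true, bb_top (hL s)] at h2
  exact h2

lemma bb_posOK {L : Fin 4 → ℕ} (hL : ∀ s, L s < 65536) :
    posOK (pk4 16 (L 0) (L 1) (L 2) (L 3)) = true → ∀ s, 32768 ≤ L s ∧ L s < 36864 := by
  intro h s
  have h1 : pk4 16 (L 0) (L 1) (L 2) (L 3) &&& 17294086455919964160 = 9223512776490647552 :=
    Nat.eq_of_beq_eq_true h
  have key : ∀ k : ℕ, 12 ≤ k → k < 16 → (L s).testBit k = decide (k = 15) := by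
    intro k hk1 hk2
    have h2 := congrArg (fun x => Nat.testBit x (16 * s + k)) h1
    rw [Nat.testBit_and, bb_testBit_pk4 L hL s k hk2] at h2
    have h3 : Nat.testBit 17294086455919964160 (16 * s + k) = true := by
      interval_cases k <;> fin_cases s <;> decide
    have h4 : Nat.testBit 9223512776490647552 (16 * s + k) = decide (k = 15) := by
      interval_cases k <;> fin_cases s <;> decide
    rwa [h3, Bool.and_true, h4] at h2
  have k12 := key 12 le_rfl (by norm_num)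
  have k13 := key 13 (by norm_num) (by norm_num)
  have k14 := key 14 (by norm_num) (by norm_num)
  have k15 := key 15 (by norm_num) (by norm_num)
  rw [Nat.testBit_eq_decide_div_mod_eq] at k12 k13 k14 k15
  norm_num at k12 k13 k14 k15
  have := hL s
  omega

lemma bb_q {x : ℤ} (h : 0 ≤ x) :
    (32768 + x).toNat - 32768 = x.toNat ∧ 32768 ≤ (32768 + x).toNat := by omega

/-- What the position test gives. -/
lemma bb_pos {X : ℤ × ℤ × ℤ → Fin 4 → ℤ} (hX : BX X) {w : ℕ}
    (h : posOK (getG (FL X) w) = true) :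
    w < 290 ∧ (∀ s, 0 ≤ X (fv w) s ∧ X (fv w) s < 4096) ∧
      getG (FL X) w = pk4 16 (32768 + X (fv w) 0).toNat (32768 + X (fv w) 1).toNat
        (32768 + X (fv w) 2).toNat (32768 + X (fv w) 3).toNat ∧
      getA (FL X) w = pk4 16 (X (fv w) 0).toNat (X (fv w) 1).toNat
        (X (fv w) 2).toNat (X (fv w) 3).toNat := by
  have hg := bb_getG_pkF (bb_lane_lt hX) w
  rw [← bb_FL] at hg
  by_cases hw : w < 290
  · rw [if_pos hw] at hg
    rw [hg] at h
    have h1 := bb_posOK (L := fun s => (32768 + X (fv w) s).toNat)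
      (bb_lane_lt hX _ (bb_fv_mem hw)) h
    have h2 : ∀ s, 0 ≤ X (fv w) s ∧ X (fv w) s < 4096 := by
      intro s
      have := h1 s
      omega
    refine ⟨hw, h2, hg, ?_⟩
    show getG (FL X) w - 9223512776490647552 = _
    rw [hg]
    have e : (9223512776490647552 : ℕ) = pk4 16 32768 32768 32768 32768 := by
      unfold pk4; norm_num
    have g0 := h2 0
    have g1 := h2 1
    have g2 := h2 2
    have g3 := h2 3
    rw [e, bb_pk4_sub (bb_q g0.1).2 (bb_q g1.1).2 (bb_q g2.1).2 (bb_q g3.1).2, (bb_q g0.1).1,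
      (bb_q g1.1).1, (bb_q g2.1).1, (bb_q g3.1).1]
  · rw [if_neg hw] at hg
    rw [hg] at h
    exact absurd h (by decide +kernel)

/-- The domination bits. -/
lemma bb_dom {X : ℤ × ℤ × ℤ → Fin 4 → ℤ} (hX : BX X) {w : ℕ}
    (h : posOK (getG (FL X) w) = true) {i : ℕ} (hi : i < 290)
    (hb : (dom (FL X) (getA (FL X) w)).testBit (64 * i + 15) = true) :
    ∀ s, X (fv w) s ≤ X (fv i) s := by
  obtain ⟨hw, hp, -, hA⟩ := bb_pos hX h
  have e : FL X - REP * getA (FL X) w =
      pkF (fun v s => (32768 + X v s).toNat - (X (fv w) s).toNat) := by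
    rw [hA, bb_REP_mul (fun s => (X (fv w) s).toNat), bb_FL, bb_pkF_sub]
    intro v hv s
    have g1 := abs_le.mp (hX.bd v hv s)
    have g2 := hp s
    omega
  have hb' : (and4 (FL X - REP * getA (FL X) w)).testBit (64 * i + 15) = true := hb
  rw [e, bb_and4 _ hi] at hb'
  · intro s
    have g1 := hb' s
    have g2 := hp s
    omega
  · intro v hv s
    have g1 := abs_le.mp (hX.bd v hv s)
    omega

lemma bb_orW {f : ℕ} {l : List ℕ} {n : ℕ} (h : (orW f l).testBit n = true) :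
    ∃ w ∈ l, (dom f (getA f w)).testBit n = true := by
  induction l with
  | nil =>
    have h1 : (0 : ℕ).testBit n = true := h
    simp at h1
  | cons w l ih =>
    have h1 : (dom f (getA f w) ||| orW f l).testBit n = true := h
    rw [Nat.testBit_or, Bool.or_eq_true] at h1
    rcases h1 with h1 | h1
    · exact ⟨w, List.mem_cons_self, h1⟩
    · obtain ⟨w', hw', h2⟩ := ih h1
      exact ⟨w', List.mem_cons_of_mem _ hw', h2⟩

lemma bb_bAnd {a b : Bool} (h : bAnd a b = true) : a = true ∧ b = true := by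
  cases a <;> cases b <;> simp_all [bAnd]

lemma bb_bOr {a b : Bool} (h : bOr a b = true) : a = true ∨ b = true := by
  cases a <;> cases b <;> simp_all [bOr]

lemma bb_allTop {f : ℕ} {l : List ℕ} (h : allTop f l = true) :
    ∀ w ∈ l, posOK (getG f w) = true := by
  induction l with
  | nil => intro w hw; simp at hw
  | cons w l ih =>
    have h1 : bAnd (posOK (getG f w)) (allTop f l) = true := h
    obtain ⟨h2, h3⟩ := bb_bAnd h1
    intro w' hw'
    rcases List.mem_cons.mp hw' with rfl | hw'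
    · exact h2
    · exact ih h3 w' hw'

lemma bb_allNrm {f : ℕ} {l : List ℕ} (h : allNrm f l = true) :
    ∀ w ∈ l, nrm1 f (getA f w) = true := by
  induction l with
  | nil => intro w hw; simp at hw
  | cons w l ih =>
    have h1 : bAnd (nrm1 f (getA f w)) (allNrm f l) = true := h
    obtain ⟨h2, h3⟩ := bb_bAnd h1
    intro w' hw'
    rcases List.mem_cons.mp hw' with rfl | hw'
    · exact h2
    · exact ih h3 w' hw'

lemma bb_anyLe {f : ℕ} {l : List ℕ} (h : anyLe f l = true) :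
    ∃ w ∈ l, topOK (18465040226372878400 - getG f w) = true := by
  induction l with
  | nil =>
    have h1 : false = true := h
    simp at h1
  | cons w l ih =>
    have h1 : bOr (topOK (18465040226372878400 - getG f w)) (anyLe f l) = true := h
    rcases bb_bOr h1 with h1 | h1
    · exact ⟨w, List.mem_cons_self, h1⟩
    · obtain ⟨w', hw', h2⟩ := ih h1
      exact ⟨w', List.mem_cons_of_mem _ hw', h2⟩

/-- The bits of `lt1`. -/
lemma bb_lt1 {X : ℤ × ℤ × ℤ → Fin 4 → ℤ} (hX : BX X) {i : ℕ} (hi : i < 145)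
    (h : (lt1 (FL X)).testBit (64 * i + 15) = true) : ∀ s, |X (fv i) s| < 64 := by
  have e : H0 - FL X = pkF (fun v s => 65599 - (32768 + X v s).toNat) := by
    rw [bb_H0, bb_FL, bb_pkF_sub]
    intro v hv s
    have g1 := abs_le.mp (hX.bd v hv s)
    omega
  have hL : ∀ v ∈ full, ∀ s, 65599 - (32768 + X v s).toNat < 65536 := by
    intro v hv s
    have g1 := abs_le.mp (hX.bd v hv s)
    omega
  have h1 : (and4 (H0 - FL X) &&& (and4 (H0 - FL X) >>> 9280)).testBit (64 * i + 15) = true := h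
  rw [Nat.testBit_and, Nat.testBit_shiftRight, Bool.and_eq_true, e] at h1
  obtain ⟨h2, h3⟩ := h1
  have e2 : 9280 + (64 * i + 15) = 64 * (i + 145) + 15 := by ring
  rw [bb_and4 hL (by omega)] at h2
  rw [e2, bb_and4 hL (by omega), bb_fv_neg hi] at h3
  intro s
  have g2 := h2 s
  have g3 := h3 s
  rw [hX.odd] at g3
  rw [abs_lt]
  omega

lemma bb_anyLe_spec {X : ℤ × ℤ × ℤ → Fin 4 → ℤ} (hX : BX X) {l : List ℕ}
    (hpos : ∀ w ∈ l, posOK (getG (FL X) w) = true) (h : anyLe (FL X) l = true) :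
    ∃ w ∈ l, ∀ s, X (fv w) s ≤ 64 := by
  obtain ⟨w, hw, h1⟩ := bb_anyLe h
  obtain ⟨hw2, hp, hG, -⟩ := bb_pos hX (hpos w hw)
  refine ⟨w, hw, ?_⟩
  have e : (18465040226372878400 : ℕ) = pk4 16 65600 65600 65600 65600 := by
    unfold pk4; norm_num
  have p0 := hp 0
  have p1 := hp 1
  have p2 := hp 2
  have p3 := hp 3
  rw [hG, e, bb_pk4_sub (by omega) (by omega) (by omega) (by omega)] at h1
  have h2 := bb_topOK (L := fun s => 65600 - (32768 + X (fv w) s).toNat) (by
    intro s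
    have := hp s
    omega) h1
  intro s
  have g1 := h2 s
  have g2 := hp s
  omega

lemma bb_o2col {X : ℤ × ℤ × ℤ → Fin 4 → ℤ} (hX : BX X) {l : List ℕ}
    (hpos : ∀ w ∈ l, posOK (getG (FL X) w) = true) {i : ℕ} (hi : i < 145)
    (h : (o2col (FL X) l).testBit (64 * i + 15) = true) :
    (∃ w ∈ l, ∀ s, X (fv w) s ≤ 64) ∨ ∀ s, |X (fv i) s| < 64 := by
  unfold o2col at h
  cases hA : anyLe (FL X) l with
  | true => exact Or.inl (bb_anyLe_spec hX hpos hA)
  | false =>
    rw [hA] at h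
    exact Or.inr (bb_lt1 hX hi h)

/-! ### The norm test -/

/-- Value of a list of (possibly negative or too large) lanes. -/
def bbVal : List ℤ → ℤ
  | [] => 0
  | x :: l => x + 65536 * bbVal l

lemma bb_nrm_list (ls : List (ℤ × ℤ)) : ∀ (N M : ℕ), (N : ℤ) = bbVal (ls.map Prod.fst) →
    (M : ℤ) = bbVal (ls.map Prod.snd) →
    (∀ t < ls.length, N.testBit (16 * t + 15) = true ∧ M.testBit (16 * t + 15) = true) →
    (∀ q ∈ ls, -8704 ≤ q.1 ∧ q.1 ≤ 90620 ∧ -8704 ≤ q.2 ∧ q.2 ≤ 90620 ∧ 65536 ≤ q.1 + q.2) →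
    ∀ q ∈ ls, 32768 ≤ q.1 ∧ 32768 ≤ q.2 := by
  induction ls with
  | nil => intro N M _ _ _ _ q hq; simp at hq
  | cons x ls ih =>
    intro N M hN hM hbit hbd q hq
    obtain ⟨b1, b2, b3, b4, b5⟩ := hbd x List.mem_cons_self
    obtain ⟨c1, c2⟩ := hbit 0 (by simp)
    simp only [List.map_cons, bbVal] at hN hM
    rw [Nat.testBit_eq_decide_div_mod_eq, decide_eq_true_iff] at c1 c2
    norm_num at c1 c2
    have hx : 32768 ≤ x.1 ∧ x.1 < 65536 ∧ 32768 ≤ x.2 ∧ x.2 < 65536 := by omega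
    obtain ⟨x1, x2, x3, x4⟩ := hx
    rcases List.mem_cons.mp hq with rfl | hq
    · exact ⟨x1, x3⟩
    · refine ih (N / 2 ^ 16) (M / 2 ^ 16) (by push_cast; omega) (by push_cast; omega) ?_
        (fun q hq => hbd q (List.mem_cons_of_mem _ hq)) q hq
      intro t ht
      rw [Nat.testBit_div_two_pow, Nat.testBit_div_two_pow]
      have e : 16 * t + 15 + 16 = 16 * (t + 1) + 15 := by ring
      rw [e]
      exact hbit (t + 1) (by simp; omega)

lemma bb_full_take : full.take 3 = [fv 0, fv 1, fv 2] := by decide +kernel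

lemma bb_nrm1 {X : ℤ × ℤ × ℤ → Fin 4 → ℤ} (hX : BX X) {a : Fin 4 → ℤ}
    (ha : ∀ s, 0 ≤ a s ∧ a s < 4096)
    (h : nrm1 (FL X) (pk4 16 (a 0).toNat (a 1).toNat (a 2).toNat (a 3).toNat) = true) :
    ∀ s, ∀ i < 3, |3 * X (fv i) s| ≤ 4 * a s := by
  have hlt := bb_lane_lt hX
  set A : ℕ := pk4 16 (a 0).toNat (a 1).toNat (a 2).toNat (a 3).toNat with hA
  have hmod : FL X &&& 6277101735386680763835789423207666416102355444464034512895 =
      pk4 16 (32768 + X (fv 0) 0).toNat (32768 + X (fv 0) 1).toNat (32768 + X (fv 0) 2).toNat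
        (32768 + X (fv 0) 3).toNat +
      2 ^ 64 * (pk4 16 (32768 + X (fv 1) 0).toNat (32768 + X (fv 1) 1).toNat
        (32768 + X (fv 1) 2).toNat (32768 + X (fv 1) 3).toNat +
      2 ^ 64 * pk4 16 (32768 + X (fv 2) 0).toNat (32768 + X (fv 2) 1).toNat
        (32768 + X (fv 2) 2).toNat (32768 + X (fv 2) 3).toNat) := by
    have e : (6277101735386680763835789423207666416102355444464034512895 : ℕ) = 2 ^ (64 * 3) - 1 := by
      norm_num
    rw [e, Nat.and_two_pow_sub_one_eq_mod, bb_FL]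
    unfold pkF
    rw [bb_mod_pkL 64 _ (bb_pkF_lt hlt), ← List.map_take, bb_full_take]
    simp only [List.map_cons, List.map_nil, pkL, mul_zero, add_zero]
  obtain ⟨h1, h2⟩ := bb_bAnd h
  have h1' := Nat.eq_of_beq_eq_true h1
  have h2' := Nat.eq_of_beq_eq_true h2
  clear h h1 h2
  set F : ℕ := FL X &&& 6277101735386680763835789423207666416102355444464034512895 with hF
  set N : ℕ := ((4 * A) * 340282366920938463481821351505477763073 +
    12554395035639017640611651656041432097220842798760813789184) - 3 * F with hN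
  set M : ℕ := ((4 * A) * 340282366920938463481821351505477763073 + 3 * F) -
    6277197517819508820305825828020716048610421399380406894592 with hM
  have g1 : N &&& 3138598758909754410152912914010358024305210699690203447296 =
    3138598758909754410152912914010358024305210699690203447296 := h1'
  have g2 : M &&& 3138598758909754410152912914010358024305210699690203447296 =
    3138598758909754410152912914010358024305210699690203447296 := h2'
  have hbitc : ∀ t < 12, Nat.testBit 3138598758909754410152912914010358024305210699690203447296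
      (16 * t + 15) = true := by
    intro t ht
    interval_cases t <;> decide
  have hbit : ∀ t < 12, N.testBit (16 * t + 15) = true ∧ M.testBit (16 * t + 15) = true := by
    intro t ht
    constructor
    · have h3 := congrArg (fun x => Nat.testBit x (16 * t + 15)) g1
      rw [Nat.testBit_and, hbitc t ht, Bool.and_true] at h3
      exact h3
    · have h3 := congrArg (fun x => Nat.testBit x (16 * t + 15)) g2
      rw [Nat.testBit_and, hbitc t ht, Bool.and_true] at h3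
      exact h3
  have hN0 : N ≠ 0 := by
    intro h0
    have := (hbit 0 (by norm_num)).1
    rw [h0] at this
    simp at this
  have hM0 : M ≠ 0 := by
    intro h0
    have := (hbit 0 (by norm_num)).2
    rw [h0] at this
    simp at this
  -- the integer values
  have x0 : ∀ i < 3, ∀ s, -13824 ≤ X (fv i) s ∧ X (fv i) s ≤ 13824 := fun i hi s =>
    abs_le.mp (hX.bd _ (bb_fv_mem (by omega)) s)
  set ls : List (ℤ × ℤ) :=
    [(32768 + 4 * a 0 - 3 * X (fv 0) 0, 32768 + 4 * a 0 + 3 * X (fv 0) 0),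
     (32768 + 4 * a 1 - 3 * X (fv 0) 1, 32768 + 4 * a 1 + 3 * X (fv 0) 1),
     (32768 + 4 * a 2 - 3 * X (fv 0) 2, 32768 + 4 * a 2 + 3 * X (fv 0) 2),
     (32768 + 4 * a 3 - 3 * X (fv 0) 3, 32768 + 4 * a 3 + 3 * X (fv 0) 3),
     (32768 + 4 * a 0 - 3 * X (fv 1) 0, 32768 + 4 * a 0 + 3 * X (fv 1) 0),
     (32768 + 4 * a 1 - 3 * X (fv 1) 1, 32768 + 4 * a 1 + 3 * X (fv 1) 1),
     (32768 + 4 * a 2 - 3 * X (fv 1) 2, 32768 + 4 * a 2 + 3 * X (fv 1) 2),
     (32768 + 4 * a 3 - 3 * X (fv 1) 3, 32768 + 4 * a 3 + 3 * X (fv 1) 3),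
     (32768 + 4 * a 0 - 3 * X (fv 2) 0, 32768 + 4 * a 0 + 3 * X (fv 2) 0),
     (32768 + 4 * a 1 - 3 * X (fv 2) 1, 32768 + 4 * a 1 + 3 * X (fv 2) 1),
     (32768 + 4 * a 2 - 3 * X (fv 2) 2, 32768 + 4 * a 2 + 3 * X (fv 2) 2),
     (32768 + 4 * a 3 - 3 * X (fv 2) 3, 32768 + 4 * a 3 + 3 * X (fv 2) 3)] with hls
  have a0 := ha 0
  have a1 := ha 1
  have a2 := ha 2
  have a3 := ha 3
  have x00 := x0 0 (by norm_num) 0
  have x01 := x0 0 (by norm_num) 1
  have x02 := x0 0 (by norm_num) 2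
  have x03 := x0 0 (by norm_num) 3
  have x10 := x0 1 (by norm_num) 0
  have x11 := x0 1 (by norm_num) 1
  have x12 := x0 1 (by norm_num) 2
  have x13 := x0 1 (by norm_num) 3
  have x20 := x0 2 (by norm_num) 0
  have x21 := x0 2 (by norm_num) 1
  have x22 := x0 2 (by norm_num) 2
  have x23 := x0 2 (by norm_num) 3
  have hAZ : (A : ℤ) = a 0 + 65536 * (a 1 + 65536 * (a 2 + 65536 * a 3)) := by
    rw [hA]
    unfold pk4
    push_cast
    rw [Int.toNat_of_nonneg a0.1, Int.toNat_of_nonneg a1.1, Int.toNat_of_nonneg a2.1,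
      Int.toNat_of_nonneg a3.1]
  have hgr : ∀ i < 3, ((pk4 16 (32768 + X (fv i) 0).toNat (32768 + X (fv i) 1).toNat
      (32768 + X (fv i) 2).toNat (32768 + X (fv i) 3).toNat : ℕ) : ℤ) =
      (32768 + X (fv i) 0) + 65536 * ((32768 + X (fv i) 1) + 65536 * ((32768 + X (fv i) 2) +
        65536 * (32768 + X (fv i) 3))) := by
    intro i hi
    have y0 := x0 i hi 0
    have y1 := x0 i hi 1
    have y2 := x0 i hi 2
    have y3 := x0 i hi 3
    unfold pk4
    push_cast
    rw [Int.toNat_of_nonneg (by omega), Int.toNat_of_nonneg (by omega),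
      Int.toNat_of_nonneg (by omega), Int.toNat_of_nonneg (by omega)]
  have hFZ : (F : ℤ) = ((32768 + X (fv 0) 0) + 65536 * ((32768 + X (fv 0) 1) +
        65536 * ((32768 + X (fv 0) 2) + 65536 * (32768 + X (fv 0) 3)))) +
      18446744073709551616 * (((32768 + X (fv 1) 0) + 65536 * ((32768 + X (fv 1) 1) +
        65536 * ((32768 + X (fv 1) 2) + 65536 * (32768 + X (fv 1) 3)))) +
      18446744073709551616 * ((32768 + X (fv 2) 0) + 65536 * ((32768 + X (fv 2) 1) +
        65536 * ((32768 + X (fv 2) 2) + 65536 * (32768 + X (fv 2) 3))))) := by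
    rw [hmod]
    rw [Nat.cast_add, Nat.cast_mul, Nat.cast_add, Nat.cast_mul, hgr 0 (by norm_num),
      hgr 1 (by norm_num), hgr 2 (by norm_num)]
    norm_num
  have hNZ : (N : ℤ) = bbVal (ls.map Prod.fst) := by
    have e1 : (N : ℤ) = ((4 * (A : ℤ)) * 340282366920938463481821351505477763073 +
        12554395035639017640611651656041432097220842798760813789184) - 3 * F := by
      rw [hN]
      rw [Nat.cast_sub (by omega)]
      push_cast
      ring
    rw [e1, hAZ, hFZ, hls]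
    simp only [List.map_cons, List.map_nil, bbVal]
    ring
  have hMZ : (M : ℤ) = bbVal (ls.map Prod.snd) := by
    have e1 : (M : ℤ) = ((4 * (A : ℤ)) * 340282366920938463481821351505477763073 + 3 * F) -
        6277197517819508820305825828020716048610421399380406894592 := by
      rw [hM]
      rw [Nat.cast_sub (by omega)]
      push_cast
      ring
    rw [e1, hAZ, hFZ, hls]
    simp only [List.map_cons, List.map_nil, bbVal]
    ring
  have hres := bb_nrm_list ls N M hNZ hMZ (by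
    intro t ht
    exact hbit t (by simpa [hls] using ht)) (by
    intro q hq
    rw [hls] at hq
    simp only [List.mem_cons, List.not_mem_nil, or_false] at hq
    rcases hq with rfl | rfl | rfl | rfl | rfl | rfl | rfl | rfl | rfl | rfl | rfl | rfl <;>
      dsimp only <;> omega)
  have hmem : ∀ i < 3, ∀ s : Fin 4,
      (32768 + 4 * a s - 3 * X (fv i) s, 32768 + 4 * a s + 3 * X (fv i) s) ∈ ls := by
    intro i hi s
    rw [hls]
    interval_cases i <;> fin_cases s <;> simp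
  intro s i hi
  have := hres _ (hmem i hi s)
  dsimp only at this
  rw [abs_le]
  constructor <;> linarith

/-! ### The main statements -/

/-- Bit-level soundness of the emptiness test. -/
theorem boxChk_spec {X1 X2 X3 : ℤ × ℤ × ℤ → Fin 4 → ℤ} (h1 : BX X1) (h2 : BX X2) (h3 : BX X3)
    {o2 : Bool} {W1 W2 W3 : List ℕ}
    (h : boxChk (FL X1) (FL X2) (FL X3) o2 W1 W2 W3 = true) :
    (∀ w ∈ W1, w < 290 ∧ ∀ s, 0 ≤ X1 (fv w) s ∧ X1 (fv w) s < 4096 ∧
      ∀ i < 3, |3 * X1 (fv i) s| ≤ 4 * X1 (fv w) s) ∧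
    (∀ w ∈ W2, w < 290 ∧ ∀ s, 0 ≤ X2 (fv w) s ∧ X2 (fv w) s < 4096 ∧
      ∀ i < 3, |3 * X2 (fv i) s| ≤ 4 * X2 (fv w) s) ∧
    (∀ w ∈ W3, w < 290 ∧ ∀ s, 0 ≤ X3 (fv w) s ∧ X3 (fv w) s < 4096 ∧
      ∀ i < 3, |3 * X3 (fv i) s| ≤ 4 * X3 (fv w) s) ∧
    ∀ v ∈ half,
      (∃ w ∈ W1, (∀ s, X1 (fv w) s ≤ X1 v s) ∨ (∀ s, X1 (fv w) s ≤ -X1 v s)) ∨
      (∃ w ∈ W2, (∀ s, X2 (fv w) s ≤ X2 v s) ∨ (∀ s, X2 (fv w) s ≤ -X2 v s)) ∨
      (∃ w ∈ W3, (∀ s, X3 (fv w) s ≤ X3 v s) ∨ (∀ s, X3 (fv w) s ≤ -X3 v s)) ∨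
      (((∃ w ∈ W1, ∀ s, X1 (fv w) s ≤ 64) ∨ (∀ s, |X1 v s| < 64)) ∧
        ((∃ w ∈ W2, ∀ s, X2 (fv w) s ≤ 64) ∨ (∀ s, |X2 v s| < 64)) ∧
        ((∃ w ∈ W3, ∀ s, X3 (fv w) s ≤ 64) ∨ (∀ s, |X3 v s| < 64))) := by
  obtain ⟨ha, hb⟩ := bb_bAnd h
  obtain ⟨hT1, ha⟩ := bb_bAnd ha
  obtain ⟨hT2, hT3⟩ := bb_bAnd ha
  obtain ⟨hN, hE⟩ := bb_bAnd hb
  obtain ⟨hN1, hN⟩ := bb_bAnd hN
  obtain ⟨hN2, hN3⟩ := bb_bAnd hN
  have hT1 := bb_allTop hT1
  have hT2 := bb_allTop hT2
  have hT3 := bb_allTop hT3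
  have hN1 := bb_allNrm hN1
  have hN2 := bb_allNrm hN2
  have hN3 := bb_allNrm hN3
  have key : ∀ {X : ℤ × ℤ × ℤ → Fin 4 → ℤ} {W : List ℕ}, BX X →
      (∀ w ∈ W, posOK (getG (FL X) w) = true) → (∀ w ∈ W, nrm1 (FL X) (getA (FL X) w) = true) →
      ∀ w ∈ W, w < 290 ∧ ∀ s, 0 ≤ X (fv w) s ∧ X (fv w) s < 4096 ∧
      ∀ i < 3, |3 * X (fv i) s| ≤ 4 * X (fv w) s := by
    intro X W hX hT hN w hw
    obtain ⟨g1, g2, -, g4⟩ := bb_pos hX (hT w hw)
    have g5 := hN w hw
    rw [g4] at g5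
    exact ⟨g1, fun s => ⟨(g2 s).1, (g2 s).2, bb_nrm1 hX (a := X (fv w)) g2 g5 s⟩⟩
  refine ⟨key h1 hT1 hN1, key h2 hT2 hN2, key h3 hT3 hN3, ?_⟩
  intro v hv
  obtain ⟨i, hi, rfl⟩ := bb_half_idx hv
  set z : ℕ := orW (FL X1) W1 ||| (orW (FL X2) W2 ||| orW (FL X3) W3) with hz
  -- the domination bits
  have keyd : ∀ {X : ℤ × ℤ × ℤ → Fin 4 → ℤ} {W : List ℕ}, BX X →
      (∀ w ∈ W, posOK (getG (FL X) w) = true) →
      ((orW (FL X) W).testBit (64 * i + 15) = true ∨
        (orW (FL X) W).testBit (64 * (i + 145) + 15) = true) →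
      ∃ w ∈ W, (∀ s, X (fv w) s ≤ X (fv i) s) ∨ (∀ s, X (fv w) s ≤ -X (fv i) s) := by
    intro X W hX hT hor
    rcases hor with hor | hor
    · obtain ⟨w, hw, hd⟩ := bb_orW hor
      exact ⟨w, hw, Or.inl (bb_dom hX (hT w hw) (by omega) hd)⟩
    · obtain ⟨w, hw, hd⟩ := bb_orW hor
      refine ⟨w, hw, Or.inr ?_⟩
      have := bb_dom hX (hT w hw) (i := i + 145) (by omega) hd
      rw [bb_fv_neg hi] at this
      intro s
      have g := this s
      rwa [hX.odd] at g
  have hzz : (z ||| z >>> 9280).testBit (64 * i + 15) = true →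
      (∃ w ∈ W1, (∀ s, X1 (fv w) s ≤ X1 (fv i) s) ∨ (∀ s, X1 (fv w) s ≤ -X1 (fv i) s)) ∨
      (∃ w ∈ W2, (∀ s, X2 (fv w) s ≤ X2 (fv i) s) ∨ (∀ s, X2 (fv w) s ≤ -X2 (fv i) s)) ∨
      (∃ w ∈ W3, (∀ s, X3 (fv w) s ≤ X3 (fv i) s) ∨ (∀ s, X3 (fv w) s ≤ -X3 (fv i) s)) := by
    intro hb
    have e2 : 9280 + (64 * i + 15) = 64 * (i + 145) + 15 := by ring
    rw [Nat.testBit_or, Nat.testBit_shiftRight, Bool.or_eq_true, e2, hz, Nat.testBit_or,
      Nat.testBit_or, Nat.testBit_or, Nat.testBit_or, Bool.or_eq_true, Bool.or_eq_true,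
      Bool.or_eq_true, Bool.or_eq_true] at hb
    rcases hb with (hb | hb | hb) | (hb | hb | hb)
    · exact Or.inl (keyd h1 hT1 (Or.inl hb))
    · exact Or.inr (Or.inl (keyd h2 hT2 (Or.inl hb)))
    · exact Or.inr (Or.inr (keyd h3 hT3 (Or.inl hb)))
    · exact Or.inl (keyd h1 hT1 (Or.inr hb))
    · exact Or.inr (Or.inl (keyd h2 hT2 (Or.inr hb)))
    · exact Or.inr (Or.inr (keyd h3 hT3 (Or.inr hb)))
  have hE1 : exBits (FL X1) (FL X2) (FL X3) o2 W1 W2 W3 z &&& MASK = MASK :=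
    Nat.eq_of_beq_eq_true hE
  have hE2 : (exBits (FL X1) (FL X2) (FL X3) o2 W1 W2 W3 z).testBit (64 * i + 15) = true := by
    have h3 := congrArg (fun x => Nat.testBit x (64 * i + 15)) hE1
    rw [Nat.testBit_and, bb_MASK_bit hi, Bool.and_true] at h3
    exact h3
  cases o2 with
  | false =>
    have hE3 : (z ||| z >>> 9280).testBit (64 * i + 15) = true := hE2
    rcases hzz hE3 with g | g | g
    · exact Or.inl g
    · exact Or.inr (Or.inl g)
    · exact Or.inr (Or.inr (Or.inl g))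
  | true =>
    have hE3 : ((z ||| z >>> 9280) ||| (o2col (FL X1) W1 &&& (o2col (FL X2) W2 &&&
      o2col (FL X3) W3))).testBit (64 * i + 15) = true := hE2
    rw [Nat.testBit_or, Bool.or_eq_true] at hE3
    rcases hE3 with g | g
    · rcases hzz g with g | g | g
      · exact Or.inl g
      · exact Or.inr (Or.inl g)
      · exact Or.inr (Or.inr (Or.inl g))
    · rw [Nat.testBit_and, Nat.testBit_and, Bool.and_eq_true, Bool.and_eq_true] at g
      exact Or.inr (Or.inr (Or.inr ⟨bb_o2col h1 hT1 hi g.1, bb_o2col h2 hT2 hi g.2.1,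
        bb_o2col h3 hT3 hi g.2.2⟩))

/-- Bit-level soundness of `inCol`. -/
theorem inCol_spec {X : ℤ × ℤ × ℤ → Fin 4 → ℤ} (hX : BX X) {w : ℕ} (hw : w < 145)
    (h : inCol (FL X) w = true) (s : Fin 4) : |X (fv w) s| < 64 := by
  obtain ⟨h1, h2⟩ := bb_bAnd h
  have hg := bb_getG_pkF (bb_lane_lt hX) w
  rw [← bb_FL, if_pos (by omega)] at hg
  have hbd : ∀ s, -13824 ≤ X (fv w) s ∧ X (fv w) s ≤ 13824 := fun s =>
    abs_le.mp (hX.bd _ (bb_fv_mem (by omega)) s)
  have b0 := hbd 0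
  have b1 := hbd 1
  have b2 := hbd 2
  have b3 := hbd 3
  have h1' : topOK (18464758747101134911 - getG (FL X) w) = true := h1
  have h2' : topOK (17733194119839807 + getG (FL X) w) = true := h2
  have e1 : (18464758747101134911 : ℕ) = pk4 16 65599 65599 65599 65599 := by
    unfold pk4; norm_num
  rw [hg, e1, bb_pk4_sub (by omega) (by omega) (by omega) (by omega)] at h1'
  have e2 : 17733194119839807 + pk4 16 (32768 + X (fv w) 0).toNat (32768 + X (fv w) 1).toNat
      (32768 + X (fv w) 2).toNat (32768 + X (fv w) 3).toNat =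
      pk4 16 ((32768 + X (fv w) 0).toNat + 63) ((32768 + X (fv w) 1).toNat + 63)
      ((32768 + X (fv w) 2).toNat + 63) ((32768 + X (fv w) 3).toNat + 63) := by
    unfold pk4; ring
  rw [hg, e2] at h2'
  have g1 := bb_topOK (L := fun s => 65599 - (32768 + X (fv w) s).toNat) (by
    intro s
    have := hbd s
    omega) h1' s
  have g2 := bb_topOK (L := fun s => (32768 + X (fv w) s).toNat + 63) (by
    intro s
    have := hbd s
    omega) h2' s
  have := hbd s
  rw [abs_lt]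
  omega

end Pool.Agent.Lib.MP_ddd95a_nt
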