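import Pool.Agent.Lib.MP_ddd95a_nt.Mg.G013

/-!
# The branch-and-bound checker: values of the columns
-/

namespace Pool.Agent.Lib.MP_ddd95a_nt

/-- Integer version of `pkL 64`. -/
def pkZ : List ℤ → ℤ
  | [] => 0
  | d :: l => d + 2 ^ 64 * pkZ l

/-- The packed integer with lanes `f v`, `v` in `full`. -/
def ZF (f : ℤ × ℤ × ℤ → ℤ) : ℤ := pkZ (full.map f)

theorem pkZ_map_add {α : Type*} (l : List α) (f g : α → ℤ) :
    pkZ (l.map fun v => f v + g v) = pkZ (l.map f) + pkZ (l.map g) := by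
  induction l with
  | nil => simp [pkZ]
  | cons a l ih =>
    simp only [List.map_cons, pkZ, ih]
    ring

theorem pkZ_map_mul {α : Type*} (l : List α) (c : ℤ) (f : α → ℤ) :
    pkZ (l.map fun v => c * f v) = c * pkZ (l.map f) := by
  induction l with
  | nil => simp [pkZ]
  | cons a l ih =>
    simp only [List.map_cons, pkZ, ih]
    ring

theorem pkL_cast {α : Type*} (l : List α) (f : α → ℕ) :
    ((pkL 64 (l.map f) : ℕ) : ℤ) = pkZ (l.map fun v => (f v : ℤ)) := by
  induction l with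
  | nil => simp [pkZ, pkL]
  | cons a l ih =>
    simp only [List.map_cons, pkZ, pkL, ← ih]
    push_cast
    ring

theorem ZF_add (f g : ℤ × ℤ × ℤ → ℤ) : ZF (fun v => f v + g v) = ZF f + ZF g :=
  pkZ_map_add _ _ _

theorem ZF_mul (c : ℤ) (f : ℤ × ℤ × ℤ → ℤ) : ZF (fun v => c * f v) = c * ZF f :=
  pkZ_map_mul _ _ _

theorem ZF_congr {f g : ℤ × ℤ × ℤ → ℤ} (h : ∀ v ∈ full, f v = g v) : ZF f = ZF g := by
  unfold ZF
  rw [List.map_congr_left h]

theorem pkL_full_cast (f : ℤ × ℤ × ℤ → ℕ) (g : ℤ × ℤ × ℤ → ℤ)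
    (h : ∀ v ∈ full, (f v : ℤ) = g v) : ((pkL 64 (full.map f) : ℕ) : ℤ) = ZF g := by
  rw [pkL_cast]
  exact ZF_congr h

theorem P1_cast : (P1 : ℤ) = ZF (fun v => v.1 + 4) := by decide +kernel

theorem P2_cast : (P2 : ℤ) = ZF (fun v => v.2.1 + 4) := by decide +kernel

theorem P3_cast : (P3 : ℤ) = ZF (fun v => v.2.2 + 4) := by decide +kernel

theorem Q8_cast : (Q8 : ℤ) = ZF (fun v => 8 * (v.1 + v.2.1 + v.2.2 + 12)) := by decide +kernel

theorem REP_cast : (REP : ℤ) = ZF (fun _ => 1) := by decide +kernel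

theorem REP128_cast : (REP128 : ℤ) = ZF (fun _ => 128) := by decide +kernel

theorem REPC_cast : (REPC : ℤ) = ZF (fun _ => 40960) := by decide +kernel

theorem full_norm : ∀ v ∈ full, |v.1| + |v.2.1| + |v.2.2| ≤ 9 := by decide +kernel

theorem dig_le (c k : ℕ) : dig c k ≤ 15 := Nat.and_le_right

theorem abs_vec_le (c r : ℕ) {v : ℤ × ℤ × ℤ} (hv : v ∈ full) : |vec c v r| ≤ 72 := by
  have h := full_norm v hv
  have key : ∀ (x : ℤ) (k : ℕ), |x * ((dig c k : ℤ) - 8)| ≤ |x| * 8 := by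
    intro x k
    rw [abs_mul]
    refine mul_le_mul_of_nonneg_left ?_ (abs_nonneg x)
    have h1 : (dig c k : ℤ) ≤ 15 := by exact_mod_cast dig_le c k
    have h2 : (0 : ℤ) ≤ dig c k := Int.natCast_nonneg _
    rw [abs_le]
    constructor <;> linarith
  unfold vec
  have h1 := key v.1 r
  have h2 := key v.2.1 (r + 3)
  have h3 := key v.2.2 (r + 6)
  have h4 := abs_add_three (v.1 * ((dig c r : ℤ) - 8)) (v.2.1 * ((dig c (r + 3) : ℤ) - 8))
    (v.2.2 * ((dig c (r + 6) : ℤ) - 8))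
  linarith

theorem vec_neg3 (c r : ℕ) (v : ℤ × ℤ × ℤ) : vec c (neg3 v) r = -vec c v r := by
  unfold vec neg3
  ring

theorem abs_cval_le (c p q r : ℕ) {v : ℤ × ℤ × ℤ} (hv : v ∈ full) {ya yb : ℕ} (ha : ya ≤ 128)
    (hb : yb ≤ 128) : |cval c p q r v ya yb| ≤ 13824 := by
  have key : ∀ (y : ℕ) (k : ℕ), y ≤ 128 → |((y : ℤ) - 64) * vec c v k| ≤ 64 * 72 := by
    intro y k hy
    rw [abs_mul]
    refine mul_le_mul ?_ (abs_vec_le c k hv) (abs_nonneg _) (by norm_num)
    have h1 : (y : ℤ) ≤ 128 := by exact_mod_cast hy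
    have h2 : (0 : ℤ) ≤ y := Int.natCast_nonneg _
    rw [abs_le]
    constructor <;> linarith
  unfold cval
  have h1 : |64 * vec c v r| ≤ 64 * 72 := by
    rw [abs_mul]
    have := abs_vec_le c r hv
    norm_num
    linarith
  have h2 := key ya p ha
  have h3 := key yb q hb
  have h4 := abs_add_three (64 * vec c v r) (((ya : ℤ) - 64) * vec c v p)
    (((yb : ℤ) - 64) * vec c v q)
  linarith

theorem cval_neg3 (c p q r : ℕ) (v : ℤ × ℤ × ℤ) (ya yb : ℕ) :
    cval c p q r (neg3 v) ya yb = -cval c p q r v ya yb := by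
  unfold cval
  rw [vec_neg3, vec_neg3, vec_neg3]
  ring

theorem cv_BX (c p q r : ℕ) {la ha lb hb : ℕ} (h1 : la ≤ 128) (h2 : ha ≤ 128) (h3 : lb ≤ 128)
    (h4 : hb ≤ 128) : BX (cv c p q r la ha lb hb) := by
  constructor
  · intro v hv s
    fin_cases s
    · exact abs_cval_le c p q r hv h1 h3
    · exact abs_cval_le c p q r hv h2 h3
    · exact abs_cval_le c p q r hv h1 h4
    · exact abs_cval_le c p q r hv h2 h4
  · intro v s
    fin_cases s
    · exact cval_neg3 c p q r v la lb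
    · exact cval_neg3 c p q r v ha lb
    · exact cval_neg3 c p q r v la hb
    · exact cval_neg3 c p q r v ha hb

theorem pn_cast (c r : ℕ) : (pn c r : ℤ) = ZF (fun v => vec c v r) + ZF (fun _ => 128) := by
  have hnat : pn c r = (P1 * dig c r + (P2 * dig c (r + 3) + P3 * dig c (r + 6)) +
      REP * (224 - 4 * (dig c r + (dig c (r + 3) + dig c (r + 6))))) - Q8 := rfl
  have h1 := dig_le c r
  have h2 := dig_le c (r + 3)
  have h3 := dig_le c (r + 6)
  have hpos : ∀ v ∈ full, (((vec c v r + 128).toNat : ℕ) : ℤ) = vec c v r + 128 := by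
    intro v hv
    apply Int.toNat_of_nonneg
    have := abs_le.mp (abs_vec_le c r hv)
    linarith
  have hL := pkL_full_cast (fun v => (vec c v r + 128).toNat) (fun v => vec c v r + 128) hpos
  have e1 : ((224 - 4 * (dig c r + (dig c (r + 3) + dig c (r + 6))) : ℕ) : ℤ) =
      224 - 4 * ((dig c r : ℤ) + ((dig c (r + 3) : ℤ) + (dig c (r + 6) : ℤ))) := by
    rw [Nat.cast_sub (by omega)]
    push_cast
    ring
  have e2 : P1 * dig c r + (P2 * dig c (r + 3) + P3 * dig c (r + 6)) +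
      REP * (224 - 4 * (dig c r + (dig c (r + 3) + dig c (r + 6)))) =
      pkL 64 (full.map fun v => (vec c v r + 128).toNat) + Q8 := by
    apply Int.ofNat.inj
    change (((P1 * dig c r + (P2 * dig c (r + 3) + P3 * dig c (r + 6)) +
      REP * (224 - 4 * (dig c r + (dig c (r + 3) + dig c (r + 6)))) : ℕ)) : ℤ) =
      ((pkL 64 (full.map fun v => (vec c v r + 128).toNat) + Q8 : ℕ) : ℤ)
    rw [Nat.cast_add, Nat.cast_add, Nat.cast_add, Nat.cast_mul, Nat.cast_mul, Nat.cast_mul,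
      Nat.cast_mul, Nat.cast_add, e1, hL, P1_cast, P2_cast, P3_cast, REP_cast, Q8_cast,
      mul_comm (ZF _) (dig c r : ℤ), mul_comm (ZF _) (dig c (r + 3) : ℤ),
      mul_comm (ZF _) (dig c (r + 6) : ℤ), mul_comm (ZF _) (224 - _), ← ZF_mul, ← ZF_mul,
      ← ZF_mul, ← ZF_mul, ← ZF_add, ← ZF_add, ← ZF_add, ← ZF_add]
    apply ZF_congr
    intro v _
    unfold vec
    ring
  rw [hnat, e2, Nat.add_sub_cancel, hL, ZF_add]

theorem tt_cast (c p q r : ℕ) : (tt (pn c r) (pn c p) (pn c q) : ℤ) =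
    281479271743489 * ZF (fun v => 32768 + 64 * (vec c v r - vec c v p - vec c v q)) := by
  have hnat : tt (pn c r) (pn c p) (pn c q) =
      281479271743489 * ((REPC + 64 * pn c r) - 64 * (pn c p + pn c q)) := rfl
  have hpos : ∀ v ∈ full,
      (((32768 + 64 * (vec c v r - vec c v p - vec c v q)).toNat : ℕ) : ℤ) =
        32768 + 64 * (vec c v r - vec c v p - vec c v q) := by
    intro v hv
    apply Int.toNat_of_nonneg
    have h1 := abs_le.mp (abs_vec_le c r hv)
    have h2 := abs_le.mp (abs_vec_le c p hv)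
    have h3 := abs_le.mp (abs_vec_le c q hv)
    linarith
  have hL := pkL_full_cast (fun v => (32768 + 64 * (vec c v r - vec c v p - vec c v q)).toNat)
    (fun v => 32768 + 64 * (vec c v r - vec c v p - vec c v q)) hpos
  have e2 : REPC + 64 * pn c r =
      pkL 64 (full.map fun v => (32768 + 64 * (vec c v r - vec c v p - vec c v q)).toNat) +
        64 * (pn c p + pn c q) := by
    apply Int.ofNat.inj
    change ((REPC + 64 * pn c r : ℕ) : ℤ) =
      ((pkL 64 (full.map fun v => (32768 + 64 * (vec c v r - vec c v p - vec c v q)).toNat) +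
        64 * (pn c p + pn c q) : ℕ) : ℤ)
    rw [Nat.cast_add, Nat.cast_add, Nat.cast_mul, Nat.cast_mul, Nat.cast_add, hL, REPC_cast,
      pn_cast, pn_cast, pn_cast, ← ZF_add, ← ZF_add, ← ZF_add, ← ZF_add, ← ZF_mul, ← ZF_mul,
      ← ZF_add, ← ZF_add]
    apply ZF_congr
    intro v _
    push_cast
    ring
  rw [hnat, e2, Nat.add_sub_cancel, Nat.cast_mul, hL]
  norm_num

theorem colF_eq (c p q r : ℕ) {la ha lb hb : ℕ} (h1 : la ≤ 128) (h2 : ha ≤ 128) (h3 : lb ≤ 128)
    (h4 : hb ≤ 128) :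
    colF (tt (pn c r) (pn c p) (pn c q)) (pn c p) (pn c q) (cA16 la ha) (cB16 lb hb) =
      FL (cv c p q r la ha lb hb) := by
  have hBX := cv_BX c p q r h1 h2 h3 h4
  have hA : cA16 la ha = la * 4294967297 + ha * 281474976776192 := rfl
  have hB : cB16 lb hb = lb * 65537 + hb * 281479271677952 := rfl
  have hnat : colF (tt (pn c r) (pn c p) (pn c q)) (pn c p) (pn c q) (cA16 la ha) (cB16 lb hb) =
      (tt (pn c r) (pn c p) (pn c q) + (pn c p * cA16 la ha + pn c q * cB16 lb hb)) -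
        REP128 * (cA16 la ha + cB16 lb hb) := rfl
  have hpos : ∀ v ∈ full,
      ((pk4 16 (32768 + cv c p q r la ha lb hb v 0).toNat
        (32768 + cv c p q r la ha lb hb v 1).toNat
        (32768 + cv c p q r la ha lb hb v 2).toNat
        (32768 + cv c p q r la ha lb hb v 3).toNat : ℕ) : ℤ) =
      281479271743489 * (32768 + 64 * (vec c v r - vec c v p - vec c v q)) +
        ((cA16 la ha : ℤ) * vec c v p + (cB16 lb hb : ℤ) * vec c v q) := by
    intro v hv
    have key : ∀ s, (((32768 + cv c p q r la ha lb hb v s).toNat : ℕ) : ℤ) =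
        32768 + cv c p q r la ha lb hb v s := by
      intro s
      apply Int.toNat_of_nonneg
      have := abs_le.mp (hBX.bd v hv s)
      linarith
    unfold pk4
    push_cast [key]
    rw [hA, hB]
    have e0 : cv c p q r la ha lb hb v 0 = cval c p q r v la lb := rfl
    have e1 : cv c p q r la ha lb hb v 1 = cval c p q r v ha lb := rfl
    have e2 : cv c p q r la ha lb hb v 2 = cval c p q r v la hb := rfl
    have e3 : cv c p q r la ha lb hb v 3 = cval c p q r v ha hb := rfl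
    rw [e0, e1, e2, e3]
    unfold cval
    push_cast
    ring
  have hL : ((FL (cv c p q r la ha lb hb) : ℕ) : ℤ) =
      281479271743489 * ZF (fun v => 32768 + 64 * (vec c v r - vec c v p - vec c v q)) +
        ((cA16 la ha : ℤ) * ZF (fun v => vec c v p) +
          (cB16 lb hb : ℤ) * ZF (fun v => vec c v q)) := by
    rw [← ZF_mul, ← ZF_mul, ← ZF_mul, ← ZF_add, ← ZF_add]
    exact pkL_full_cast _ _ hpos
  have e2 : tt (pn c r) (pn c p) (pn c q) + (pn c p * cA16 la ha + pn c q * cB16 lb hb) =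
      FL (cv c p q r la ha lb hb) + REP128 * (cA16 la ha + cB16 lb hb) := by
    apply Int.ofNat.inj
    change ((tt (pn c r) (pn c p) (pn c q) + (pn c p * cA16 la ha + pn c q * cB16 lb hb) : ℕ) : ℤ)
      = ((FL (cv c p q r la ha lb hb) + REP128 * (cA16 la ha + cB16 lb hb) : ℕ) : ℤ)
    rw [Nat.cast_add, Nat.cast_add, Nat.cast_add, Nat.cast_mul, Nat.cast_mul, Nat.cast_mul,
      Nat.cast_add, hL, tt_cast, pn_cast, pn_cast, REP128_cast]
    ring
  rw [hnat, e2, Nat.add_sub_cancel]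

theorem F1_eq (c : ℕ) {la ha lb hb : ℕ} (h1 : la ≤ 128) (h2 : ha ≤ 128) (h3 : lb ≤ 128)
    (h4 : hb ≤ 128) : F1 c la ha lb hb = FL (cv c 1 2 0 la ha lb hb) :=
  colF_eq c 1 2 0 h1 h2 h3 h4

theorem F2_eq (c : ℕ) {la ha lb hb : ℕ} (h1 : la ≤ 128) (h2 : ha ≤ 128) (h3 : lb ≤ 128)
    (h4 : hb ≤ 128) : F2 c la ha lb hb = FL (cv c 0 2 1 la ha lb hb) :=
  colF_eq c 0 2 1 h1 h2 h3 h4

theorem F3_eq (c : ℕ) {la ha lb hb : ℕ} (h1 : la ≤ 128) (h2 : ha ≤ 128) (h3 : lb ≤ 128)
    (h4 : hb ≤ 128) : F3 c la ha lb hb = FL (cv c 0 1 2 la ha lb hb) :=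
  colF_eq c 0 1 2 h1 h2 h3 h4

end Pool.Agent.Lib.MP_ddd95a_nt
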