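import Mathlib

/-!
# Mordell's inverse problem in dimension 3: definitions

Lattices are spanned by the rows of a real `3 × 3` matrix `V`; `crd V n j` is the `j`-th coordinate
of the lattice vector with integer coefficients `n`.
-/

namespace Pool.Agent.Lib.MP_ddd95a_nt

open scoped BigOperators

/-- `κ` is admissible in dimension `d`: every system of `d` real linear forms of determinant `1`
has a box with half side lengths `τ i > 0`, `∏ τ i = κ`, such that `u = 0` is the only integer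
point with `|l_i(u)| ≤ τ i` for all `i`. -/
def IsAdmissible (d : ℕ) (κ : ℝ) : Prop :=
  0 < κ ∧ ∀ A : Matrix (Fin d) (Fin d) ℝ, A.det = 1 →
    ∃ τ : Fin d → ℝ, (∀ i, 0 < τ i) ∧ ∏ i, τ i = κ ∧
      ∀ u : Fin d → ℤ, (∀ i, |∑ j, A i j * (u j : ℝ)| ≤ τ i) → u = 0

/-- `j`-th coordinate of the vector `∑ i, n i • (row i of V)`. -/
def crd (V : Matrix (Fin 3) (Fin 3) ℝ) (n : Fin 3 → ℤ) (j : Fin 3) : ℝ :=
  ∑ i, (n i : ℝ) * V i j

/-- The open box `|x_j| < T j` contains no vector `∑ n i • V i` with `n ≠ 0`. -/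
def EmptyBox (V : Matrix (Fin 3) (Fin 3) ℝ) (T : Fin 3 → ℝ) : Prop :=
  ∀ n : Fin 3 → ℤ, n ≠ 0 → ∃ j, T j ≤ |crd V n j|

/-- Some empty open box has volume at least `κ` times the determinant. -/
def Good (κ : ℝ) (V : Matrix (Fin 3) (Fin 3) ℝ) : Prop :=
  ∃ T : Fin 3 → ℝ, (∀ j, 0 < T j) ∧ EmptyBox V T ∧ κ * |V.det| ≤ ∏ j, T j

/-- Normalised matrices: ones on the diagonal, entries in `[-1, 1]`, nonzero determinant, and the
open unit cube contains no nonzero vector of the lattice spanned by the rows. -/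
structure Nrm (V : Matrix (Fin 3) (Fin 3) ℝ) : Prop where
  diag : ∀ i, V i i = 1
  le_one : ∀ i j, |V i j| ≤ 1
  empty : EmptyBox V (fun _ => 1)
  det_ne : V.det ≠ 0

/-- The conjectured (Ramharter) value of Mordell's constant in dimension `3`. -/
noncomputable def kap : ℝ := 8 / 7 * Real.cos (2 * Real.pi / 7) * Real.cos (Real.pi / 7) ^ 2

end Pool.Agent.Lib.MP_ddd95a_nt
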