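import Pool.Agent.Lib.MP_ddd95a_nt.Defs

set_option autoImplicit false

namespace Pool.Agent.Lib.MP_ddd95a_nt

open scoped BigOperators

lemma idx_step (F : ℝ → ℝ) (hF : ∀ t, F t = (1 + t) / 2 * F 1 + (1 - t) / 2 * F (-1)) {t : ℝ}
    (ht : |t| ≤ 1) (h1 : |F 1| ≤ 4) (h2 : |F (-1)| ≤ 4) : |F t| ≤ 4 := by
  rw [abs_le] at *
  rw [hF t]
  constructor <;> nlinarith

lemma idx_det_aux (b c d e f a : ℝ) (ha : |a| ≤ 1) (hb : |b| ≤ 1) (hc : |c| ≤ 1) (hd : |d| ≤ 1)
    (he : |e| ≤ 1) (hf : |f| ≤ 1) :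
    |1 - d * f - a * c + a * d * e + b * c * f - b * e| ≤ 4 := by
  have key : ∀ a b c : ℝ, (a = 1 ∨ a = -1) → (b = 1 ∨ b = -1) → (c = 1 ∨ c = -1) →
      |1 - d * f - a * c + a * d * e + b * c * f - b * e| ≤ 4 := by
    rw [abs_le] at hd he hf
    rintro a b c (rfl | rfl) (rfl | rfl) (rfl | rfl) <;> rw [abs_le] <;> constructor <;> nlinarith
  have key2 : ∀ a b : ℝ, (a = 1 ∨ a = -1) → (b = 1 ∨ b = -1) →
      |1 - d * f - a * c + a * d * e + b * c * f - b * e| ≤ 4 := by
    intro a b ha' hb'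
    exact idx_step (fun c => 1 - d * f - a * c + a * d * e + b * c * f - b * e)
      (fun t => by ring) hc (key a b 1 ha' hb' (Or.inl rfl)) (key a b (-1) ha' hb' (Or.inr rfl))
  have key3 : ∀ a : ℝ, (a = 1 ∨ a = -1) →
      |1 - d * f - a * c + a * d * e + b * c * f - b * e| ≤ 4 := by
    intro a ha'
    exact idx_step (fun b => 1 - d * f - a * c + a * d * e + b * c * f - b * e)
      (fun t => by ring) hb (key2 a 1 ha' (Or.inl rfl)) (key2 a (-1) ha' (Or.inr rfl))
  exact idx_step (fun a => 1 - d * f - a * c + a * d * e + b * c * f - b * e)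
      (fun t => by ring) ha (key3 1 (Or.inl rfl)) (key3 (-1) (Or.inr rfl))

/-- the determinant of a matrix with unit diagonal and entries in `[-1, 1]` is at most `4` in
absolute value -/
lemma idx_det_le {W : Matrix (Fin 3) (Fin 3) ℝ} (hd : ∀ i, W i i = 1) (hW : ∀ i j, |W i j| ≤ 1) :
    |W.det| ≤ 4 := by
  have h := idx_det_aux (W 0 2) (W 1 0) (W 1 2) (W 2 0) (W 2 1) (W 0 1) (hW _ _) (hW _ _)
    (hW _ _) (hW _ _) (hW _ _) (hW _ _)
  have e : W.det = 1 - W 1 2 * W 2 1 - W 0 1 * W 1 0 + W 0 1 * W 1 2 * W 2 0 +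
      W 0 2 * W 1 0 * W 2 1 - W 0 2 * W 2 0 := by
    rw [Matrix.det_fin_three, hd 0, hd 1, hd 2]
    ring
  rw [e]
  exact h

lemma crd_add (V : Matrix (Fin 3) (Fin 3) ℝ) (n m : Fin 3 → ℤ) (j : Fin 3) :
    crd V (n + m) j = crd V n j + crd V m j := by
  unfold crd
  rw [← Finset.sum_add_distrib]
  exact Finset.sum_congr rfl fun i _ => by push_cast [Pi.add_apply]; ring

lemma crd_smul (V : Matrix (Fin 3) (Fin 3) ℝ) (c : ℤ) (n : Fin 3 → ℤ) (j : Fin 3) :
    crd V (c • n) j = c * crd V n j := by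
  unfold crd
  rw [Finset.mul_sum]
  exact Finset.sum_congr rfl fun i _ => by push_cast [Pi.smul_apply, smul_eq_mul]; ring

/-- coordinates of the integer combination `∑ c i • u i` -/
lemma crd_vecMul (V : Matrix (Fin 3) (Fin 3) ℝ) (u : Matrix (Fin 3) (Fin 3) ℤ) (c : Fin 3 → ℤ)
    (j : Fin 3) : crd V (Matrix.vecMul c u) j = ∑ i, (c i : ℝ) * crd V (u i) j := by
  unfold crd Matrix.vecMul dotProduct
  simp only [Fin.sum_univ_three]
  push_cast
  ring

lemma idx_pair {a b : ℝ} (ha : |a| ≤ 1) (hb : |b| ≤ 1) (h1 : 2 ≤ |a + b|) (h2 : 2 ≤ |a - b|) :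
    False := by
  have := (abs_le.1 ha).1
  have := (abs_le.1 ha).2
  have := (abs_le.1 hb).1
  have := (abs_le.1 hb).2
  rcases le_abs.1 h1 with h1 | h1 <;> rcases le_abs.1 h2 with h2 | h2 <;> linarith

lemma idx_fin3 (j1 j2 j3 j4 : Fin 3) (h12 : j1 ≠ j2) (h13 : j1 ≠ j3) (h14 : j1 ≠ j4)
    (h23 : j2 ≠ j3) (h24 : j2 ≠ j4) (h34 : j3 ≠ j4) : False := by
  have h1 := j1.2
  have h2 := j2.2
  have h3 := j3.2
  have h4 := j4.2
  simp only [Ne, Fin.ext_iff] at h12 h13 h14 h23 h24 h34
  omega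

/-- The purely real part of the case `m = 2`. -/
lemma idx_real (Y : Fin 3 → Fin 3 → ℝ) (hY : ∀ i j, |Y i j| ≤ 1) (v : Fin 3 → ZMod 2)
    (hv : v ≠ 0)
    (key : ∀ c : Fin 3 → ℤ, (∀ i, ((c i : ℤ) : ZMod 2) = v i) →
      (∃ j, 2 ≤ |∑ i, (c i : ℝ) * Y i j|) ∧
      ¬ ((∀ j, |∑ i, (c i : ℝ) * Y i j| ≤ 2) ∧
        ∃ i0, |c i0| = 1 ∧ |∑ i, (c i : ℝ) * Y i i0| = 2)) : False := by
  simp only [Fin.sum_univ_three] at key
  have hz : ∀ x : ZMod 2, x = 0 ∨ x = 1 := by decide
  have hY' : ∀ i j, -1 ≤ Y i j ∧ Y i j ≤ 1 := fun i j => abs_le.1 (hY i j)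
  have hc : ∀ (a b c : ℤ), ((a : ZMod 2) = v 0) → ((b : ZMod 2) = v 1) → ((c : ZMod 2) = v 2) →
      (∃ j, 2 ≤ |(a : ℝ) * Y 0 j + b * Y 1 j + c * Y 2 j|) ∧
      ¬ ((∀ j, |(a : ℝ) * Y 0 j + b * Y 1 j + c * Y 2 j| ≤ 2) ∧
        ∃ i0, |(![a, b, c] : Fin 3 → ℤ) i0| = 1 ∧
          |(a : ℝ) * Y 0 i0 + b * Y 1 i0 + c * Y 2 i0| = 2) := by
    intro a b c ha hb hc
    have := key ![a, b, c] (by
      intro i
      fin_cases i
      · exact ha
      · exact hb
      · exact hc)
    simpa using this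
  rcases hz (v 0) with h0 | h0 <;> rcases hz (v 1) with h1 | h1 <;> rcases hz (v 2) with h2 | h2
  · apply hv
    funext i
    fin_cases i
    · exact h0
    · exact h1
    · exact h2
  · obtain ⟨⟨j, hj⟩, -⟩ := hc 0 0 1 (by rw [h0]; rfl) (by rw [h1]; rfl) (by rw [h2]; rfl)
    have := hY 2 j
    norm_num at hj
    linarith
  · obtain ⟨⟨j, hj⟩, -⟩ := hc 0 1 0 (by rw [h0]; rfl) (by rw [h1]; rfl) (by rw [h2]; rfl)
    have := hY 1 j
    norm_num at hj
    linarith
  · -- E = {1, 2}
    have main : ∀ s : ℤ, (s = 1 ∨ s = -1) → 2 ≤ |Y 1 0 + s * Y 2 0| := by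
      intro s hs
      obtain ⟨⟨j, hj⟩, hn⟩ := hc 0 1 s (by rw [h0]; rfl) (by rw [h1]; rfl)
        (by rcases hs with rfl | rfl <;> rw [h2] <;> rfl)
      have hb : ∀ j, |((0 : ℤ) : ℝ) * Y 0 j + ((1 : ℤ) : ℝ) * Y 1 j + s * Y 2 j| ≤ 2 := by
        intro j
        have a1 := hY' 1 j
        have a2 := hY' 2 j
        rw [abs_le]
        rcases hs with rfl | rfl <;> push_cast <;> constructor <;> linarith [a1.1, a1.2, a2.1, a2.2]
      have hj0 : j = 0 := by
        by_contra hj0
        apply hn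
        refine ⟨hb, j, ?_, le_antisymm (hb j) hj⟩
        fin_cases j
        · exact absurd rfl hj0
        · simp
        · rcases hs with rfl | rfl <;> simp
      subst hj0
      simpa using hj
    exact idx_pair (hY 1 0) (hY 2 0) (by simpa using main 1 (Or.inl rfl))
      (by simpa [sub_eq_add_neg] using main (-1) (Or.inr rfl))
  · obtain ⟨⟨j, hj⟩, -⟩ := hc 1 0 0 (by rw [h0]; rfl) (by rw [h1]; rfl) (by rw [h2]; rfl)
    have := hY 0 j
    norm_num at hj
    linarith
  · -- E = {0, 2}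
    have main : ∀ s : ℤ, (s = 1 ∨ s = -1) → 2 ≤ |Y 0 1 + s * Y 2 1| := by
      intro s hs
      obtain ⟨⟨j, hj⟩, hn⟩ := hc 1 0 s (by rw [h0]; rfl) (by rw [h1]; rfl)
        (by rcases hs with rfl | rfl <;> rw [h2] <;> rfl)
      have hb : ∀ j, |((1 : ℤ) : ℝ) * Y 0 j + ((0 : ℤ) : ℝ) * Y 1 j + s * Y 2 j| ≤ 2 := by
        intro j
        have a1 := hY' 0 j
        have a2 := hY' 2 j
        rw [abs_le]
        rcases hs with rfl | rfl <;> push_cast <;> constructor <;> linarith [a1.1, a1.2, a2.1, a2.2]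
      have hj0 : j = 1 := by
        by_contra hj0
        apply hn
        refine ⟨hb, j, ?_, le_antisymm (hb j) hj⟩
        fin_cases j
        · simp
        · exact absurd rfl hj0
        · rcases hs with rfl | rfl <;> simp
      subst hj0
      simpa using hj
    exact idx_pair (hY 0 1) (hY 2 1) (by simpa using main 1 (Or.inl rfl))
      (by simpa [sub_eq_add_neg] using main (-1) (Or.inr rfl))
  · -- E = {0, 1}
    have main : ∀ s : ℤ, (s = 1 ∨ s = -1) → 2 ≤ |Y 0 2 + s * Y 1 2| := by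
      intro s hs
      obtain ⟨⟨j, hj⟩, hn⟩ := hc 1 s 0 (by rw [h0]; rfl)
        (by rcases hs with rfl | rfl <;> rw [h1] <;> rfl) (by rw [h2]; rfl)
      have hb : ∀ j, |((1 : ℤ) : ℝ) * Y 0 j + s * Y 1 j + ((0 : ℤ) : ℝ) * Y 2 j| ≤ 2 := by
        intro j
        have a1 := hY' 0 j
        have a2 := hY' 1 j
        rw [abs_le]
        rcases hs with rfl | rfl <;> push_cast <;> constructor <;> linarith [a1.1, a1.2, a2.1, a2.2]
      have hj0 : j = 2 := by
        by_contra hj0
        apply hn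
        refine ⟨hb, j, ?_, le_antisymm (hb j) hj⟩
        fin_cases j
        · simp
        · rcases hs with rfl | rfl <;> simp
        · exact absurd rfl hj0
      subst hj0
      simpa using hj
    exact idx_pair (hY 0 2) (hY 1 2) (by simpa using main 1 (Or.inl rfl))
      (by simpa [sub_eq_add_neg] using main (-1) (Or.inr rfl))
  · -- E = {0, 1, 2}
    have main : ∀ a b c : ℤ, (a = 1 ∨ a = -1) → (b = 1 ∨ b = -1) → (c = 1 ∨ c = -1) →
        ∃ j, 2 < |(a : ℝ) * Y 0 j + b * Y 1 j + c * Y 2 j| := by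
      intro a b c ha hb hc'
      obtain ⟨⟨j, hj⟩, hn⟩ := hc a b c (by rcases ha with rfl | rfl <;> rw [h0] <;> rfl)
        (by rcases hb with rfl | rfl <;> rw [h1] <;> rfl)
        (by rcases hc' with rfl | rfl <;> rw [h2] <;> rfl)
      by_contra hcon
      push Not at hcon
      apply hn
      refine ⟨hcon, j, ?_, le_antisymm (hcon j) hj⟩
      fin_cases j
      · rcases ha with rfl | rfl <;> simp
      · rcases hb with rfl | rfl <;> simp
      · rcases hc' with rfl | rfl <;> simp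
    obtain ⟨j1, hj1⟩ := main 1 1 1 (Or.inl rfl) (Or.inl rfl) (Or.inl rfl)
    obtain ⟨j2, hj2⟩ := main 1 1 (-1) (Or.inl rfl) (Or.inl rfl) (Or.inr rfl)
    obtain ⟨j3, hj3⟩ := main 1 (-1) 1 (Or.inl rfl) (Or.inr rfl) (Or.inl rfl)
    obtain ⟨j4, hj4⟩ := main (-1) 1 1 (Or.inr rfl) (Or.inl rfl) (Or.inl rfl)
    push_cast at hj1 hj2 hj3 hj4
    have fin : ∀ (j : Fin 3) (a b c a' b' c' : ℝ), (a = 1 ∨ a = -1) → (b = 1 ∨ b = -1) →
        (c = 1 ∨ c = -1) → (a' = 1 ∨ a' = -1) → (b' = 1 ∨ b' = -1) → (c' = 1 ∨ c' = -1) →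
        2 < |a * Y 0 j + b * Y 1 j + c * Y 2 j| → 2 < |a' * Y 0 j + b' * Y 1 j + c' * Y 2 j| →
        (a = a' ∧ b = b' ∧ c = c') ∨ (a = -a' ∧ b = -b' ∧ c = -c') := by
      intro j a b c a' b' c' ha hb hc ha' hb' hc' h1 h2
      obtain ⟨p1, p2⟩ := hY' 0 j
      obtain ⟨p3, p4⟩ := hY' 1 j
      obtain ⟨p5, p6⟩ := hY' 2 j
      rcases lt_abs.1 h1 with h1 | h1 <;> rcases lt_abs.1 h2 with h2 | h2 <;>
      rcases ha with rfl | rfl <;> rcases hb with rfl | rfl <;> rcases hc with rfl | rfl <;>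
      rcases ha' with rfl | rfl <;> rcases hb' with rfl | rfl <;> rcases hc' with rfl | rfl <;>
      first
        | (left; norm_num; done)
        | (right; norm_num; done)
        | (exfalso; linarith)
    refine idx_fin3 j1 j2 j3 j4 ?_ ?_ ?_ ?_ ?_ ?_
    · intro h
      rw [← h] at hj2
      have := fin j1 1 1 1 1 1 (-1) (by simp) (by simp) (by simp) (by simp) (by simp) (by simp)
        hj1 hj2
      norm_num at this
    · intro h
      rw [← h] at hj3
      have := fin j1 1 1 1 1 (-1) 1 (by simp) (by simp) (by simp) (by simp) (by simp) (by simp)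
        hj1 hj3
      norm_num at this
    · intro h
      rw [← h] at hj4
      have := fin j1 1 1 1 (-1) 1 1 (by simp) (by simp) (by simp) (by simp) (by simp) (by simp)
        hj1 hj4
      norm_num at this
    · intro h
      rw [← h] at hj3
      have := fin j2 1 1 (-1) 1 (-1) 1 (by simp) (by simp) (by simp) (by simp) (by simp) (by simp)
        hj2 hj3
      norm_num at this
    · intro h
      rw [← h] at hj4
      have := fin j2 1 1 (-1) (-1) 1 1 (by simp) (by simp) (by simp) (by simp) (by simp) (by simp)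
        hj2 hj4
      norm_num at this
    · intro h
      rw [← h] at hj4
      have := fin j3 1 (-1) 1 (-1) 1 1 (by simp) (by simp) (by simp) (by simp) (by simp) (by simp)
        hj3 hj4
      norm_num at this

lemma idx_crd_mul (V : Matrix (Fin 3) (Fin 3) ℝ) (u : Matrix (Fin 3) (Fin 3) ℤ) (i j : Fin 3) :
    crd V (u i) j = (u.map (Int.cast : ℤ → ℝ) * V) i j := by
  simp [crd, Matrix.mul_apply]

lemma idx_det_W (V : Matrix (Fin 3) (Fin 3) ℝ) (u : Matrix (Fin 3) (Fin 3) ℤ)
    (s r : Fin 3 → ℝ) :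
    (Matrix.of fun i j => s i * (r j * crd V (u i) j) : Matrix (Fin 3) (Fin 3) ℝ).det =
      (∏ i, s i) * ((∏ j, r j) * ((u.det : ℝ) * V.det)) := by
  have e : (Matrix.of fun i j => crd V (u i) j : Matrix (Fin 3) (Fin 3) ℝ) =
      u.map (Int.cast : ℤ → ℝ) * V := by
    ext i j
    exact idx_crd_mul V u i j
  have h1 := Matrix.det_mul_column s (Matrix.of fun i j => r j * crd V (u i) j)
  have h2 := Matrix.det_mul_row r (Matrix.of fun i j => crd V (u i) j)
  have h3 : (u.map (Int.cast : ℤ → ℝ)).det = (u.det : ℝ) := by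
    have := (Int.castRingHom ℝ).map_det u
    simpa using this.symm
  simp only [Matrix.of_apply] at h1 h2
  rw [h1, h2, e, Matrix.det_mul, h3]

/-- the index-two case is impossible for a touching triple of minimal index -/
lemma idx_two {V : Matrix (Fin 3) (Fin 3) ℝ} {T : Fin 3 → ℝ} (hT : ∀ j, 0 < T j)
    (hE : EmptyBox V T) {u : Matrix (Fin 3) (Fin 3) ℤ}
    (ht : ∀ i, |crd V (u i) i| = T i) (hb : ∀ i j, |crd V (u i) j| ≤ T j)
    (hu : u.det.natAbs = 2)
    (hmin : ∀ u' : Matrix (Fin 3) (Fin 3) ℤ, (∀ i, |crd V (u' i) i| = T i) →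
      (∀ i j, |crd V (u' i) j| ≤ T j) → u'.det ≠ 0 → 2 ≤ u'.det.natAbs) : False := by
  have hu0 : u.det ≠ 0 := by
    intro h
    rw [h] at hu
    simp at hu
  have hdet : (u.map (Int.cast : ℤ → ZMod 2)).det = 0 := by
    have h3 : (u.map (Int.cast : ℤ → ZMod 2)).det = (u.det : ZMod 2) := by
      have := (Int.castRingHom (ZMod 2)).map_det u
      simpa using this.symm
    rw [h3, ZMod.intCast_zmod_eq_zero_iff_dvd]
    have : (2 : ℤ) ∣ (u.det.natAbs : ℤ) := by rw [hu]; simp
    exact Int.dvd_natAbs.1 this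
  obtain ⟨v, hv, hvu⟩ := Matrix.exists_vecMul_eq_zero_iff.2 hdet
  refine idx_real (fun i j => crd V (u i) j / T j) ?_ v hv ?_
  · intro i j
    rw [abs_div, abs_of_pos (hT j), div_le_one (hT j)]
    exact hb i j
  · intro c hc
    -- the integral half
    have hdvd : ∀ j, (2 : ℤ) ∣ (Matrix.vecMul c u) j := by
      intro j
      have e : ((Matrix.vecMul c u j : ℤ) : ZMod 2) = 0 := by
        have h1 := (Int.castRingHom (ZMod 2)).map_vecMul u c j
        have h2 := congrFun hvu j
        have h3 : (⇑(Int.castRingHom (ZMod 2)) ∘ c) = v := by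
          funext i
          simpa using hc i
        rw [h3] at h1
        simp only [Int.coe_castRingHom] at h1
        simp only [Pi.zero_apply] at h2
        rw [← h2, ← h1]
      exact (ZMod.intCast_zmod_eq_zero_iff_dvd _ 2).1 e
    choose g hg using hdvd
    have hg2 : Matrix.vecMul c u = (2 : ℤ) • g := by
      funext j
      rw [hg j]
      simp
    have hg0 : g ≠ 0 := by
      intro h0
      rw [h0, smul_zero] at hg2
      have hc0 := Matrix.eq_zero_of_vecMul_eq_zero hu0 hg2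
      apply hv
      funext i
      rw [← hc i, hc0]
      simp
    have hval : ∀ j, ∑ i, (c i : ℝ) * (crd V (u i) j / T j) = 2 * (crd V g j / T j) := by
      intro j
      have h1 := crd_vecMul V u c j
      rw [hg2, crd_smul] at h1
      have h2 : ∑ i, (c i : ℝ) * (crd V (u i) j / T j) = (∑ i, (c i : ℝ) * crd V (u i) j) / T j := by
        rw [Finset.sum_div]
        exact Finset.sum_congr rfl fun i _ => by ring
      rw [h2, ← h1]
      push_cast
      ring
    simp only [hval]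
    have habs : ∀ j, |2 * (crd V g j / T j)| = 2 * (|crd V g j| / T j) := by
      intro j
      rw [abs_mul, abs_div, abs_of_pos (hT j)]
      norm_num
    simp only [habs]
    constructor
    · obtain ⟨j, hj⟩ := hE g hg0
      refine ⟨j, ?_⟩
      have : 1 ≤ |crd V g j| / T j := (one_le_div (hT j)).2 hj
      linarith
    · rintro ⟨hle, i0, hci, hi0⟩
      have hgle : ∀ j, |crd V g j| ≤ T j := by
        intro j
        have := hle j
        have : |crd V g j| / T j ≤ 1 := by linarith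
        exact (div_le_one (hT j)).1 this
      have hgeq : |crd V g i0| = T i0 := by
        have : |crd V g i0| / T i0 = 1 := by linarith
        rwa [div_eq_one_iff_eq (hT i0).ne'] at this
      have hdet2 : 2 * (u.updateRow i0 g).det = c i0 * u.det := by
        have h1 := Matrix.det_updateRow_sum u i0 c
        have h2 := Matrix.det_updateRow_smul u i0 2 g
        rw [← Matrix.vecMul_eq_sum, hg2, h2] at h1
        simpa using h1
      have habs2 : 2 * (u.updateRow i0 g).det.natAbs = 2 := by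
        have := congrArg Int.natAbs hdet2
        rw [Int.natAbs_mul, Int.natAbs_mul, hu] at this
        have hc1 : (c i0).natAbs = 1 := by
          have : ((c i0).natAbs : ℤ) = 1 := by rw [Int.natCast_natAbs]; exact hci
          exact_mod_cast this
        rw [hc1] at this
        simpa using this
      have h1 : (u.updateRow i0 g).det.natAbs = 1 := by omega
      have := hmin (u.updateRow i0 g) ?_ ?_ ?_
      · omega
      · intro i
        by_cases hi : i = i0
        · subst hi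
          rw [Matrix.updateRow_self]
          exact hgeq
        · rw [Matrix.updateRow_ne hi]
          exact ht i
      · intro i j
        by_cases hi : i = i0
        · subst hi
          rw [Matrix.updateRow_self]
          exact hgle j
        · rw [Matrix.updateRow_ne hi]
          exact hb i j
      · intro h0
        rw [h0] at h1
        simp at h1

/-- From normalised matrices to all lattices. -/
theorem good_of_nrm {κ : ℝ} (hκ : κ ≤ 3 / 4) (h : ∀ V, Nrm V → Good κ V)
    (htouch : ∀ V : Matrix (Fin 3) (Fin 3) ℝ, V.det ≠ 0 →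
      ∃ (T : Fin 3 → ℝ) (u : Matrix (Fin 3) (Fin 3) ℤ), (∀ j, 0 < T j) ∧ EmptyBox V T ∧
        (∀ i, |crd V (u i) i| = T i) ∧ (∀ i j, |crd V (u i) j| ≤ T j) ∧ u.det ≠ 0)
    (V : Matrix (Fin 3) (Fin 3) ℝ) (hV : V.det ≠ 0) : Good κ V := by
  classical
  obtain ⟨T, u0, hT, hE, ht0, hb0, hu0⟩ := htouch V hV
  have hex : ∃ m : ℕ, ∃ u : Matrix (Fin 3) (Fin 3) ℤ, (∀ i, |crd V (u i) i| = T i) ∧
      (∀ i j, |crd V (u i) j| ≤ T j) ∧ u.det ≠ 0 ∧ u.det.natAbs = m :=
    ⟨_, u0, ht0, hb0, hu0, rfl⟩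
  obtain ⟨u, ht, hb, hu, hm⟩ := Nat.find_spec hex
  have hmin : ∀ u' : Matrix (Fin 3) (Fin 3) ℤ, (∀ i, |crd V (u' i) i| = T i) →
      (∀ i j, |crd V (u' i) j| ≤ T j) → u'.det ≠ 0 → u.det.natAbs ≤ u'.det.natAbs := by
    intro u' h1 h2 h3
    rw [hm]
    exact Nat.find_min' hex ⟨u', h1, h2, h3, rfl⟩
  clear hm
  -- signs
  have hsg : ∀ i, ∃ σ : ℤ, (σ = 1 ∨ σ = -1) ∧ (σ : ℝ) * crd V (u i) i = T i := by
    intro i
    rcases abs_eq (hT i).le |>.1 (ht i) with h1 | h1
    · exact ⟨1, Or.inl rfl, by rw [h1]; simp⟩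
    · exact ⟨-1, Or.inr rfl, by rw [h1]; simp⟩
  choose σ hσ hσT using hsg
  have hσ2 : ∀ i, σ i * σ i = 1 := by
    intro i
    rcases hσ i with h1 | h1 <;> rw [h1] <;> rfl
  have hσa : ∀ i, |(σ i : ℝ)| = 1 := by
    intro i
    rcases hσ i with h1 | h1 <;> rw [h1] <;> simp
  set W : Matrix (Fin 3) (Fin 3) ℝ := Matrix.of fun i j => (σ i : ℝ) * ((T j)⁻¹ * crd V (u i) j)
    with hWdef
  have hWd : ∀ i, W i i = 1 := by
    intro i
    have h1 := hσT i
    have h2 := (hT i).ne'
    rw [hWdef, Matrix.of_apply]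
    calc (σ i : ℝ) * ((T i)⁻¹ * crd V (u i) i) = (T i)⁻¹ * ((σ i : ℝ) * crd V (u i) i) := by ring
      _ = 1 := by rw [h1, inv_mul_cancel₀ h2]
  have hW1 : ∀ i j, |W i j| ≤ 1 := by
    intro i j
    rw [hWdef, Matrix.of_apply, abs_mul, hσa, one_mul, abs_mul, abs_inv, abs_of_pos (hT j)]
    rw [inv_mul_le_iff₀ (hT j), mul_one]
    exact hb i j
  have hPpos : 0 < ∏ j, T j := Finset.prod_pos fun j _ => hT j
  have hWdet : |W.det| * ∏ j, T j = (u.det.natAbs : ℝ) * |V.det| := by
    have e := idx_det_W V u (fun i => (σ i : ℝ)) (fun j => (T j)⁻¹)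
    rw [hWdef, e, abs_mul, abs_mul, abs_mul]
    have e1 : |∏ i, (σ i : ℝ)| = 1 := by
      rw [Finset.abs_prod]
      simp [hσa]
    have e2 : |∏ j, (T j)⁻¹| = (∏ j, T j)⁻¹ := by
      rw [Finset.prod_inv_distrib, abs_inv, abs_of_pos hPpos]
    have e3 : |(u.det : ℝ)| = (u.det.natAbs : ℝ) := by
      rw [Nat.cast_natAbs, Int.cast_abs]
    rw [e1, e2, e3, one_mul]
    field_simp
  have hWne : W.det ≠ 0 := by
    intro h0
    rw [h0, abs_zero, zero_mul] at hWdet
    have : 0 < (u.det.natAbs : ℝ) * |V.det| := by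
      apply mul_pos
      · have : 0 < u.det.natAbs := Int.natAbs_pos.2 hu
        exact_mod_cast this
      · exact abs_pos.2 hV
    linarith
  -- coordinates
  have hcrd : ∀ (n : Fin 3 → ℤ) (j : Fin 3),
      crd V (Matrix.vecMul (fun i => σ i * n i) u) j = T j * crd W n j := by
    intro n j
    rw [crd_vecMul]
    unfold crd
    rw [Finset.mul_sum]
    refine Finset.sum_congr rfl fun i _ => ?_
    rw [hWdef, Matrix.of_apply]
    have := (hT j).ne'
    push_cast
    unfold crd
    field_simp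
  have hWE : EmptyBox W (fun _ => 1) := by
    intro n hn
    have hne : Matrix.vecMul (fun i => σ i * n i) u ≠ 0 := by
      intro h0
      have h1 := Matrix.eq_zero_of_vecMul_eq_zero hu h0
      apply hn
      funext i
      have h2 := congrFun h1 i
      simp only [Pi.zero_apply] at h2 ⊢
      calc n i = (σ i * σ i) * n i := by rw [hσ2, one_mul]
        _ = σ i * (σ i * n i) := by ring
        _ = 0 := by rw [h2, mul_zero]
    obtain ⟨j, hj⟩ := hE _ hne
    refine ⟨j, ?_⟩
    rw [hcrd, abs_mul, abs_of_pos (hT j)] at hj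
    have := hT j
    by_contra hcon
    push Not at hcon
    nlinarith
  have hupos : 0 < u.det.natAbs := Int.natAbs_pos.2 hu
  have hVpos : 0 < |V.det| := abs_pos.2 hV
  rcases Nat.lt_or_ge 2 u.det.natAbs with hm | hm
  · -- index at least three
    refine ⟨T, hT, hE, ?_⟩
    have h4 := idx_det_le hWd hW1
    have h3 : (3 : ℝ) ≤ (u.det.natAbs : ℝ) := by exact_mod_cast hm
    nlinarith
  · rcases Nat.lt_or_ge u.det.natAbs 2 with hm1 | hm2
    · -- unimodular
      have hone : u.det.natAbs = 1 := by omega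
      obtain ⟨R, hR, hRE, hRP⟩ := h W ⟨hWd, hW1, hWE, hWne⟩
      refine ⟨fun j => T j * R j, fun j => mul_pos (hT j) (hR j), ?_, ?_⟩
      · intro n hn
        have hunit : IsUnit u.det := Int.isUnit_iff_natAbs_eq.2 hone
        -- integer coordinates of `n` in the basis `u`
        set c : Fin 3 → ℤ := Matrix.vecMul n u⁻¹ with hc
        have hcu : Matrix.vecMul c u = n := by
          rw [hc, Matrix.vecMul_vecMul, Matrix.nonsing_inv_mul _ hunit, Matrix.vecMul_one]
        have hc0 : (fun i => σ i * c i) ≠ 0 := by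
          intro h0
          apply hn
          rw [← hcu]
          have : c = 0 := by
            funext i
            have h2 := congrFun h0 i
            simp only [Pi.zero_apply] at h2 ⊢
            calc c i = (σ i * σ i) * c i := by rw [hσ2, one_mul]
              _ = σ i * (σ i * c i) := by ring
              _ = 0 := by rw [h2, mul_zero]
          rw [this, Matrix.zero_vecMul]
        obtain ⟨j, hj⟩ := hRE _ hc0
        refine ⟨j, ?_⟩
        have e := hcrd (fun i => σ i * c i) j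
        have e2 : (fun i => σ i * (σ i * c i)) = c := by
          funext i
          rw [← mul_assoc, hσ2, one_mul]
        rw [e2, hcu] at e
        rw [e, abs_mul, abs_of_pos (hT j)]
        exact mul_le_mul_of_nonneg_left hj (hT j).le
      · rw [Finset.prod_mul_distrib]
        rw [hone, Nat.cast_one, one_mul] at hWdet
        rw [← hWdet]
        nlinarith
    · exact (idx_two hT hE ht hb (by omega) (by
        intro u' h1 h2 h3
        have := hmin u' h1 h2 h3
        omega)).elim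

end Pool.Agent.Lib.MP_ddd95a_nt
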