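import Pool.Agent.Lib.MP_ddd95a_nt.Defs

/-!
# Symmetry reduction: signed permutations of the rows and columns
-/

namespace Pool.Agent.Lib.MP_ddd95a_nt

namespace Symm

variable (V : Matrix (Fin 3) (Fin 3) ℝ) (π : Equiv.Perm (Fin 3)) (ε : Fin 3 → ℤ)

/-- The matrix after a signed permutation. -/
def tw : Matrix (Fin 3) (Fin 3) ℝ := Matrix.of fun a b => (ε a : ℝ) * (ε b : ℝ) * V (π a) (π b)

theorem tw_apply (a b : Fin 3) : tw V π ε a b = (ε a : ℝ) * (ε b : ℝ) * V (π a) (π b) := rfl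

theorem abs_sign {ε : Fin 3 → ℤ} (hε : ∀ i, ε i = 1 ∨ ε i = -1) (a : Fin 3) :
    |(ε a : ℝ)| = 1 := by
  rcases hε a with h | h <;> rw [h] <;> norm_num

theorem sq_sign {ε : Fin 3 → ℤ} (hε : ∀ i, ε i = 1 ∨ ε i = -1) (a : Fin 3) :
    ε a * ε a = 1 := by
  rcases hε a with h | h <;> rw [h] <;> norm_num

theorem crd_tw (n : Fin 3 → ℤ) (b : Fin 3) :
    crd (tw V π ε) n b = (ε b : ℝ) * crd V (fun i => ε (π.symm i) * n (π.symm i)) (π b) := by
  unfold crd
  rw [← Equiv.sum_comp π (fun i => (((ε (π.symm i) * n (π.symm i) : ℤ)) : ℝ) * V i (π b)),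
    Finset.mul_sum]
  refine Finset.sum_congr rfl fun a _ => ?_
  rw [tw_apply, Equiv.symm_apply_apply]
  push_cast
  ring

theorem abs_crd_tw {ε : Fin 3 → ℤ} (hε : ∀ i, ε i = 1 ∨ ε i = -1) (n : Fin 3 → ℤ) (b : Fin 3) :
    |crd (tw V π ε) n b| = |crd V (fun i => ε (π.symm i) * n (π.symm i)) (π b)| := by
  rw [crd_tw, abs_mul, abs_sign hε, one_mul]

theorem abs_det_tw {ε : Fin 3 → ℤ} (hε : ∀ i, ε i = 1 ∨ ε i = -1) :
    |(tw V π ε).det| = |V.det| := by
  have h : tw V π ε = Matrix.diagonal (fun a => (ε a : ℝ)) * V.submatrix π π *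
      Matrix.diagonal (fun a => (ε a : ℝ)) := by
    ext a b
    rw [Matrix.mul_diagonal, Matrix.diagonal_mul, tw_apply, Matrix.submatrix_apply]
    ring
  have h1 : |∏ i, (ε i : ℝ)| = 1 := by
    rw [Finset.abs_prod]
    exact Finset.prod_eq_one fun i _ => abs_sign hε i
  rw [h, Matrix.det_mul, Matrix.det_mul, Matrix.det_diagonal, Matrix.det_submatrix_equiv_self,
    abs_mul, abs_mul, h1, one_mul, mul_one]

theorem nrm_tw {ε : Fin 3 → ℤ} (hε : ∀ i, ε i = 1 ∨ ε i = -1) (h : Nrm V) :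
    Nrm (tw V π ε) := by
  refine ⟨fun i => ?_, fun i j => ?_, fun n hn => ?_, ?_⟩
  · rw [tw_apply, h.diag, mul_one]
    exact_mod_cast sq_sign hε i
  · rw [tw_apply, abs_mul, abs_mul, abs_sign hε, abs_sign hε, one_mul, one_mul]
    exact h.le_one _ _
  · have hm : (fun i => ε (π.symm i) * n (π.symm i)) ≠ 0 := by
      intro h0
      apply hn
      funext a
      have h1 := congrFun h0 (π a)
      simp only [Equiv.symm_apply_apply, Pi.zero_apply] at h1
      rcases mul_eq_zero.mp h1 with h2 | h2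
      · have := sq_sign hε a
        rw [h2] at this
        simp at this
      · exact h2
    obtain ⟨j, hj⟩ := h.empty _ hm
    refine ⟨π.symm j, ?_⟩
    rw [abs_crd_tw V π hε, Equiv.apply_symm_apply]
    exact hj
  · intro h0
    have := abs_det_tw V π hε
    rw [h0, abs_zero] at this
    exact h.det_ne (abs_eq_zero.mp this.symm)

theorem good_of_tw {κ : ℝ} {ε : Fin 3 → ℤ} (hε : ∀ i, ε i = 1 ∨ ε i = -1)
    (h : Good κ (tw V π ε)) : Good κ V := by
  obtain ⟨T, hT, hE, hV⟩ := h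
  refine ⟨fun j => T (π.symm j), fun j => hT _, fun m hm => ?_, ?_⟩
  · have hn : (fun a => ε a * m (π a)) ≠ 0 := by
      intro h0
      apply hm
      funext i
      have h1 := congrFun h0 (π.symm i)
      simp only [Equiv.apply_symm_apply, Pi.zero_apply] at h1
      rcases mul_eq_zero.mp h1 with h2 | h2
      · have := sq_sign hε (π.symm i)
        rw [h2] at this
        simp at this
      · exact h2
    obtain ⟨j, hj⟩ := hE _ hn
    refine ⟨π j, ?_⟩
    rw [abs_crd_tw V π hε] at hj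
    have he : (fun i => ε (π.symm i) * (ε (π.symm i) * m (π (π.symm i)))) = m := by
      funext i
      rw [← mul_assoc, sq_sign hε, one_mul, Equiv.apply_symm_apply]
    simp only [he] at hj
    simp only [Equiv.symm_apply_apply]
    exact hj
  · rw [abs_det_tw V π hε] at hV
    rw [Equiv.prod_comp π.symm T]
    exact hV

theorem exists_perm : ∀ i j : Fin 3, i ≠ j → ∃ π : Equiv.Perm (Fin 3), π 0 = i ∧ π 2 = j := by
  decide

end Symm

open Symm in
/-- Symmetry reduction. -/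
theorem symm_reduction {κ : ℝ}
    (h : ∀ V : Matrix (Fin 3) (Fin 3) ℝ, Nrm V → 0 ≤ V 0 1 → 0 ≤ V 0 2 →
      (∀ i j, i ≠ j → |V i j| ≤ V 0 2) → Good κ V) :
    ∀ V : Matrix (Fin 3) (Fin 3) ℝ, Nrm V → Good κ V := by
  intro V hV
  obtain ⟨⟨i, j⟩, hij, hmax⟩ := Finset.exists_max_image
    (Finset.univ.filter fun p : Fin 3 × Fin 3 => p.1 ≠ p.2) (fun p => |V p.1 p.2|)
    ⟨(0, 1), by simp⟩
  simp only [Finset.mem_filter, Finset.mem_univ, true_and] at hij hmax
  obtain ⟨π, h0, h2⟩ := exists_perm i j hij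
  let ε : Fin 3 → ℤ := ![1, if 0 ≤ V (π 0) (π 1) then 1 else -1, if 0 ≤ V (π 0) (π 2) then 1 else -1]
  have hε : ∀ i, ε i = 1 ∨ ε i = -1 := by
    intro i
    fin_cases i
    · left; rfl
    · show (if 0 ≤ V (π 0) (π 1) then (1 : ℤ) else -1) = 1 ∨
        (if 0 ≤ V (π 0) (π 1) then (1 : ℤ) else -1) = -1
      split_ifs
      · left; rfl
      · right; rfl
    · show (if 0 ≤ V (π 0) (π 2) then (1 : ℤ) else -1) = 1 ∨
        (if 0 ≤ V (π 0) (π 2) then (1 : ℤ) else -1) = -1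
      split_ifs
      · left; rfl
      · right; rfl
  have h01 : tw V π ε 0 1 = |V (π 0) (π 1)| := by
    rw [tw_apply]
    show ((1 : ℤ) : ℝ) * ((if 0 ≤ V (π 0) (π 1) then (1 : ℤ) else -1 : ℤ) : ℝ) * V (π 0) (π 1) = _
    split_ifs with hc
    · rw [abs_of_nonneg hc]; norm_num
    · rw [abs_of_neg (not_le.mp hc)]; norm_num
  have h02 : tw V π ε 0 2 = |V (π 0) (π 2)| := by
    rw [tw_apply]
    show ((1 : ℤ) : ℝ) * ((if 0 ≤ V (π 0) (π 2) then (1 : ℤ) else -1 : ℤ) : ℝ) * V (π 0) (π 2) = _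
    split_ifs with hc
    · rw [abs_of_nonneg hc]; norm_num
    · rw [abs_of_neg (not_le.mp hc)]; norm_num
  refine good_of_tw V π hε (h _ (nrm_tw V π hε hV) ?_ ?_ ?_)
  · rw [h01]; exact abs_nonneg _
  · rw [h02]; exact abs_nonneg _
  · intro a b hab
    rw [h02, h0, h2, tw_apply, abs_mul, abs_mul, abs_sign hε, abs_sign hε, one_mul, one_mul]
    exact hmax (π a, π b) (by simpa using hab)

end Pool.Agent.Lib.MP_ddd95a_nt
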