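import Pool.Agent.Lib.MP_ddd95a_nt.Mg.G014

/-!
# Existence of a touching triple with nonzero determinant
-/

namespace Pool.Agent.Lib.MP_ddd95a_nt

/-- Cross product of integer vectors. -/
def crs (a b : Fin 3 → ℤ) : Fin 3 → ℤ :=
  ![a 1 * b 2 - a 2 * b 1, a 2 * b 0 - a 0 * b 2, a 0 * b 1 - a 1 * b 0]

/-- Dot product of integer vectors. -/
def dt (a b : Fin 3 → ℤ) : ℤ := a 0 * b 0 + a 1 * b 1 + a 2 * b 2

/-- Strict face-`i` vectors of the box `T`. -/
def Strict (V : Matrix (Fin 3) (Fin 3) ℝ) (T : Fin 3 → ℝ) (i : Fin 3) (n : Fin 3 → ℤ) : Prop :=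
  |crd V n i| = T i ∧ ∀ j, j ≠ i → |crd V n j| < T j

/-- Vectors in the closed box. -/
def Clo (V : Matrix (Fin 3) (Fin 3) ℝ) (T : Fin 3 → ℝ) (n : Fin 3 → ℤ) : Prop :=
  ∀ j, |crd V n j| ≤ T j

/-- Maximal empty boxes. -/
def MaxB (V : Matrix (Fin 3) (Fin 3) ℝ) (T : Fin 3 → ℝ) : Prop :=
  (∀ j, 0 < T j) ∧ EmptyBox V T ∧ ∀ i, ∃ n, Strict V T i n

/-- The conclusion of the theorem. -/
def Touching (V : Matrix (Fin 3) (Fin 3) ℝ) : Prop :=
  ∃ (T : Fin 3 → ℝ) (u : Matrix (Fin 3) (Fin 3) ℤ), (∀ j, 0 < T j) ∧ EmptyBox V T ∧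
      (∀ i, |crd V (u i) i| = T i) ∧ (∀ i j, |crd V (u i) j| ≤ T j) ∧ u.det ≠ 0

theorem Strict.clo {V : Matrix (Fin 3) (Fin 3) ℝ} {T : Fin 3 → ℝ} {i : Fin 3} {n : Fin 3 → ℤ}
    (h : Strict V T i n) : Clo V T n := by
  intro j
  by_cases hj : j = i
  · subst hj
    exact h.1.le
  · exact (h.2 j hj).le

/-- `det(a,b,n)` as a dot product. -/
theorem det_of_rows (a b c : Fin 3 → ℤ) :
    (Matrix.of ![a, b, c]).det = dt (crs a b) c := by
  rw [Matrix.det_fin_three]
  simp [dt, crs, Matrix.of_apply]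
  ring

theorem dt_crs_cycle (a b c : Fin 3 → ℤ) : dt (crs a b) c = dt (crs b c) a := by
  simp [dt, crs]
  ring

theorem dt_crs_swap (a b c : Fin 3 → ℤ) : dt (crs a b) c = - dt (crs b a) c := by
  simp [dt, crs]
  ring

theorem crs_swap (a b : Fin 3 → ℤ) : crs a b = - crs b a := by
  funext i
  fin_cases i <;> simp [crs] <;> ring

theorem crs_ne_swap {a b : Fin 3 → ℤ} (h : crs a b ≠ 0) : crs b a ≠ 0 := by
  intro h'
  apply h
  rw [crs_swap, h', neg_zero]

/-- Three vectors in the plane `m^⊥` are linearly dependent. -/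
theorem coplanar {m a b c : Fin 3 → ℤ} (hm : m ≠ 0) (ha : dt m a = 0) (hb : dt m b = 0)
    (hc : dt m c = 0) : dt (crs a b) c = 0 := by
  have h0 : m 0 * dt (crs a b) c = 0 := by
    have : m 0 * dt (crs a b) c = dt m a * (crs b c 0) + dt m b * (crs c a 0) + dt m c * (crs a b 0) := by
      simp [dt, crs]
      ring
    rw [this, ha, hb, hc]
    ring
  have h1 : m 1 * dt (crs a b) c = 0 := by
    have : m 1 * dt (crs a b) c = dt m a * (crs b c 1) + dt m b * (crs c a 1) + dt m c * (crs a b 1) := by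
      simp [dt, crs]
      ring
    rw [this, ha, hb, hc]
    ring
  have h2 : m 2 * dt (crs a b) c = 0 := by
    have : m 2 * dt (crs a b) c = dt m a * (crs b c 2) + dt m b * (crs c a 2) + dt m c * (crs a b 2) := by
      simp [dt, crs]
      ring
    rw [this, ha, hb, hc]
    ring
  by_contra hne
  apply hm
  funext i
  fin_cases i
  · exact (mul_eq_zero.mp h0).resolve_right hne
  · exact (mul_eq_zero.mp h1).resolve_right hne
  · exact (mul_eq_zero.mp h2).resolve_right hne

/-- If `a, b ∈ m^⊥` then `a × b` is parallel to `m`. -/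
theorem parallel {m a b : Fin 3 → ℤ} (ha : dt m a = 0) (hb : dt m b = 0) (p q : Fin 3) :
    crs a b p * m q = crs a b q * m p := by
  simp only [dt] at ha hb
  fin_cases p <;> fin_cases q <;> simp only [crs] <;> simp
  · linear_combination b 2 * ha - a 2 * hb
  · linear_combination -b 1 * ha + a 1 * hb
  · linear_combination -b 2 * ha + a 2 * hb
  · linear_combination b 0 * ha - a 0 * hb
  · linear_combination b 1 * ha - a 1 * hb
  · linear_combination -b 0 * ha + a 0 * hb

theorem dt_of_dep {m a b c : Fin 3 → ℤ} (ha : dt m a = 0) (hb : dt m b = 0) (hab : crs a b ≠ 0)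
    (hc : dt (crs a b) c = 0) : dt m c = 0 := by
  obtain ⟨p, hp⟩ : ∃ p, crs a b p ≠ 0 := by
    by_contra h
    push Not at h
    exact hab (funext h)
  have h : crs a b p * dt m c = m p * dt (crs a b) c := by
    have h0 := parallel ha hb p 0
    have h1 := parallel ha hb p 1
    have h2 := parallel ha hb p 2
    simp only [dt]
    linear_combination c 0 * h0 + c 1 * h1 + c 2 * h2
  rw [hc, mul_zero] at h
  exact (mul_eq_zero.mp h).resolve_left hp



/-- The `k`-th coordinate of `x(a) × x(b)` as a linear functional of `a × b`. -/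
def lf (V : Matrix (Fin 3) (Fin 3) ℝ) (i j : Fin 3) (w : Fin 3 → ℤ) : ℝ :=
  (w 0 : ℝ) * (V 1 i * V 2 j - V 2 i * V 1 j) + (w 1 : ℝ) * (V 2 i * V 0 j - V 0 i * V 2 j) +
    (w 2 : ℝ) * (V 0 i * V 1 j - V 1 i * V 0 j)

theorem lf_crs (V : Matrix (Fin 3) (Fin 3) ℝ) (i j : Fin 3) (a b : Fin 3 → ℤ) :
    lf V i j (crs a b) = crd V a i * crd V b j - crd V a j * crd V b i := by
  simp only [lf, crs, crd_eq]
  simp
  ring

theorem lf_ne {V : Matrix (Fin 3) (Fin 3) ℝ} {T : Fin 3 → ℝ} (hT : ∀ j, 0 < T j) {i j : Fin 3}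
    (hij : i ≠ j) {a b : Fin 3 → ℤ} (ha : Strict V T i a) (hb : Strict V T j b) :
    lf V i j (crs a b) ≠ 0 := by
  rw [lf_crs]
  intro h
  have h1 : |crd V a i * crd V b j| = T i * T j := by rw [abs_mul, ha.1, hb.1]
  have h2 : |crd V a j * crd V b i| < T i * T j := by
    rw [abs_mul]
    have ha' := ha.2 j hij.symm
    have hb' := hb.2 i hij
    calc |crd V a j| * |crd V b i| ≤ T j * |crd V b i| :=
          mul_le_mul_of_nonneg_right ha'.le (abs_nonneg _)
      _ < T j * T i := mul_lt_mul_of_pos_left hb' (hT j)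
      _ = T i * T j := mul_comm _ _
  rw [sub_eq_zero.mp h] at h1
  linarith

theorem crs_ne {V : Matrix (Fin 3) (Fin 3) ℝ} {T : Fin 3 → ℝ} (hT : ∀ j, 0 < T j) {i j : Fin 3}
    (hij : i ≠ j) {a b : Fin 3 → ℤ} (ha : Strict V T i a) (hb : Strict V T j b) : crs a b ≠ 0 := by
  intro h
  apply lf_ne hT hij ha hb
  rw [h]
  simp [lf]

theorem strict_ne_zero {V : Matrix (Fin 3) (Fin 3) ℝ} {T : Fin 3 → ℝ} (hT : ∀ j, 0 < T j)
    {i : Fin 3} {a : Fin 3 → ℤ} (ha : Strict V T i a) : a ≠ 0 := by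
  intro h
  have h1 := ha.1
  rw [h] at h1
  simp [crd] at h1
  linarith [hT i]

/-- `det(x(a),x(b),x(c)) = 0` if `det(a,b,c)=0`; used with two vectors in the plane `x_2 = 0`. -/
theorem crd_two_eq_zero {V : Matrix (Fin 3) (Fin 3) ℝ} {a b c : Fin 3 → ℤ}
    (hdep : dt (crs a b) c = 0) (ha : crd V a 2 = 0) (hb : crd V b 2 = 0)
    (hab : lf V 0 1 (crs a b) ≠ 0) : crd V c 2 = 0 := by
  have key : lf V 0 1 (crs a b) * crd V c 2 - (crd V a 0 * crd V b 2 - crd V a 2 * crd V b 0) * crd V c 1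
      + (crd V a 1 * crd V b 2 - crd V a 2 * crd V b 1) * crd V c 0 =
      (dt (crs a b) c : ℤ) * V.det := by
    have e : dt (crs a b) c = (a 1 * b 2 - a 2 * b 1) * c 0 + (a 2 * b 0 - a 0 * b 2) * c 1 +
        (a 0 * b 1 - a 1 * b 0) * c 2 := by simp [dt, crs]
    rw [lf_crs, Matrix.det_fin_three, e]
    simp only [crd_eq]
    push_cast
    ring
  rw [hdep, ha, hb] at key
  simp at key
  exact key.resolve_left hab

/-- All closed-box vectors of a maximal box are coplanar when there is no touching triple. -/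
theorem closed_coplanar {V : Matrix (Fin 3) (Fin 3) ℝ} (hNT : ¬ Touching V) {T : Fin 3 → ℝ}
    (hM : MaxB V T) {u : Fin 3 → Fin 3 → ℤ} (hu : ∀ i, Strict V T i (u i)) {n : Fin 3 → ℤ}
    (hn : Clo V T n) : dt (crs (u 0) (u 1)) n = 0 := by
  obtain ⟨hT, hE, -⟩ := hM
  have hdet : dt (crs (u 0) (u 1)) (u 2) = 0 := by
    by_contra h
    apply hNT
    refine ⟨T, Matrix.of u, hT, hE, fun i => (hu i).1, fun i j => (hu i).clo j, ?_⟩
    have : (Matrix.of u).det = (Matrix.of ![u 0, u 1, u 2]).det := by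
      congr 1
      ext i j
      fin_cases i <;> rfl
    rw [this, det_of_rows]
    exact h
  by_contra hne
  have hn0 : n ≠ 0 := by
    intro h
    apply hne
    rw [h]
    simp [dt]
  obtain ⟨i, hi⟩ := hE n hn0
  have hi' : |crd V n i| = T i := le_antisymm (hn i) hi
  apply hNT
  have h01 : crs (u 0) (u 1) ≠ 0 := crs_ne hT (by decide) (hu 0) (hu 1)
  have m0 : dt (crs (u 0) (u 1)) (u 0) = 0 := by simp [dt, crs]; ring
  have m1 : dt (crs (u 0) (u 1)) (u 1) = 0 := by simp [dt, crs]; ring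
  refine ⟨T, Matrix.of (Function.update u i n), hT, hE, ?_, ?_, ?_⟩
  · intro i'
    by_cases h : i' = i
    · subst h
      change |crd V (Function.update u i' n i') i'| = T i'
      rw [Function.update_self]
      exact hi'
    · change |crd V (Function.update u i n i') i'| = T i'
      rw [Function.update_of_ne h]
      exact (hu i').1
  · intro i' j
    by_cases h : i' = i
    · subst h
      change |crd V (Function.update u i' n i') j| ≤ T j
      rw [Function.update_self]
      exact hn j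
    · change |crd V (Function.update u i n i') j| ≤ T j
      rw [Function.update_of_ne h]
      exact (hu i').clo j
  · have hrow : (Matrix.of (Function.update u i n)).det =
        dt (crs (Function.update u i n 0) (Function.update u i n 1)) (Function.update u i n 2) := by
      rw [← det_of_rows]
      congr 1
      ext i' j
      fin_cases i' <;> rfl
    rw [hrow]
    intro h0
    apply hne
    fin_cases i
    · have e1 : dt (crs (u 1) (u 2)) n = 0 := by
        have : dt (crs n (u 1)) (u 2) = 0 := by simpa using h0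
        rw [dt_crs_cycle] at this
        exact this
      exact dt_of_dep m1 hdet (crs_ne hT (by decide) (hu 1) (hu 2)) e1
    · have e1 : dt (crs (u 0) (u 2)) n = 0 := by
        have : dt (crs (u 0) n) (u 2) = 0 := by simpa using h0
        rw [dt_crs_cycle, dt_crs_cycle, dt_crs_swap] at this
        simpa using this
      exact dt_of_dep m0 hdet (crs_ne hT (by decide) (hu 0) (hu 2)) e1
    · simpa using h0

theorem EmptyBox.mono {V : Matrix (Fin 3) (Fin 3) ℝ} {T T' : Fin 3 → ℝ} (h : EmptyBox V T)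
    (hle : ∀ j, T' j ≤ T j) : EmptyBox V T' := by
  intro n hn
  obtain ⟨j, hj⟩ := h n hn
  exact ⟨j, (hle j).trans hj⟩

theorem prod_le {V : Matrix (Fin 3) (Fin 3) ℝ} (hV : V.det ≠ 0) {T : Fin 3 → ℝ}
    (hT : ∀ j, 0 < T j) (hE : EmptyBox V T) : ∏ j, T j ≤ |V.det| := by
  by_contra h
  obtain ⟨n, hn, hlt⟩ := minkowski V hV T hT (not_le.mp h)
  obtain ⟨j, hj⟩ := hE n hn
  exact absurd hj (not_le.mpr (hlt j))

theorem crd_eq_zero {V : Matrix (Fin 3) (Fin 3) ℝ} (hV : V.det ≠ 0) {n : Fin 3 → ℤ}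
    (h : ∀ j, crd V n j = 0) : n = 0 := by
  have h1 : Matrix.vecMul (crd V n) V⁻¹ = (fun i => (n i : ℝ)) := by
    rw [crd_eq_vecMul, Matrix.vecMul_vecMul, Matrix.mul_nonsing_inv _ (isUnit_iff_ne_zero.mpr hV),
      Matrix.vecMul_one]
  have h0 : crd V n = 0 := funext h
  rw [h0, Matrix.zero_vecMul] at h1
  funext i
  have := congrFun h1 i
  simp only [Pi.zero_apply] at this ⊢
  exact_mod_cast this.symm

theorem exists_empty_cube {V : Matrix (Fin 3) (Fin 3) ℝ} (hV : V.det ≠ 0) :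
    ∃ ε : ℝ, 0 < ε ∧ EmptyBox V (fun _ => ε) := by
  set F : Set (Fin 3 → ℤ) := {n | n ≠ 0 ∧ ∀ j, |crd V n j| ≤ 1} with hF
  have hfin : F.Finite := (finite_closed V hV 1).subset fun n hn => hn.2
  by_cases hne : F.Nonempty
  · obtain ⟨n1, hn1, hmin⟩ := Set.exists_min_image F (fun n => ∑ j, |crd V n j|) hfin hne
    have hpos : 0 < ∑ j, |crd V n1 j| := by
      rcases (Finset.sum_nonneg fun j _ => abs_nonneg (crd V n1 j)).lt_or_eq with h | h
      · exact h
      · exfalso
        apply hn1.1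
        apply crd_eq_zero hV
        intro j
        have h2 := (Finset.sum_eq_zero_iff_of_nonneg fun j _ => abs_nonneg (crd V n1 j)).mp h.symm j
          (Finset.mem_univ j)
        exact abs_eq_zero.mp h2
    refine ⟨min 1 ((∑ j, |crd V n1 j|) / 3), lt_min one_pos (by positivity), fun n hn => ?_⟩
    by_contra hcon
    push Not at hcon
    have hnF : n ∈ F := ⟨hn, fun j => (hcon j).le.trans (min_le_left _ _)⟩
    have h1 := hmin n hnF
    have h2 : ∑ j, |crd V n j| < ∑ j : Fin 3, (∑ j, |crd V n1 j|) / 3 := by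
      apply Finset.sum_lt_sum_of_nonempty Finset.univ_nonempty
      intro j _
      exact (hcon j).trans_le (min_le_right _ _)
    simp only [Finset.sum_const, Finset.card_univ, Fintype.card_fin, nsmul_eq_mul] at h2
    push_cast at h2
    linarith
  · refine ⟨1, one_pos, fun n hn => ?_⟩
    by_contra hcon
    push Not at hcon
    exact hne ⟨n, hn, fun j => (hcon j).le⟩

theorem expand_box {V : Matrix (Fin 3) (Fin 3) ℝ} (hV : V.det ≠ 0) {T : Fin 3 → ℝ}
    (hT : ∀ j, 0 < T j) (hE : EmptyBox V T) (i : Fin 3) :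
    ∃ (T' : Fin 3 → ℝ) (n : Fin 3 → ℤ), T i ≤ T' i ∧ (∀ j, j ≠ i → T' j = T j) ∧
      (∀ j, 0 < T' j) ∧ EmptyBox V T' ∧ Strict V T' i n := by
  obtain ⟨n, hn0, hn1, hn2, hn3⟩ := expand V hV T hT hE i
  refine ⟨Function.update T i |crd V n i|, n, by simpa using hn1, fun j hj => by
    simp [Function.update_of_ne hj], ?_, ?_, ?_, ?_⟩
  · intro j
    by_cases hj : j = i
    · subst hj
      simpa using (hT j).trans_le hn1
    · simpa [Function.update_of_ne hj] using hT j
  · intro n' hn'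
    by_cases h : ∀ j, j ≠ i → |crd V n' j| < T j
    · exact ⟨i, by simpa using hn3 n' hn' h⟩
    · push Not at h
      obtain ⟨j, hj, hj2⟩ := h
      exact ⟨j, by simpa [Function.update_of_ne hj] using hj2⟩
  · simp
  · intro j hj
    simpa [Function.update_of_ne hj] using hn2 j hj

theorem exists_maxB {V : Matrix (Fin 3) (Fin 3) ℝ} (hV : V.det ≠ 0) : ∃ T, MaxB V T := by
  obtain ⟨ε, hε, hE⟩ := exists_empty_cube hV
  obtain ⟨T1, n1, a1, b1, c1, d1, e1⟩ := expand_box hV (fun _ => hε) hE 0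
  obtain ⟨T2, n2, a2, b2, c2, d2, e2⟩ := expand_box hV c1 d1 1
  obtain ⟨T3, n3, a3, b3, c3, d3, e3⟩ := expand_box hV c2 d2 2
  have h10 : T2 0 = T1 0 := b2 0 (by decide)
  have h12 : T2 2 = T1 2 := b2 2 (by decide)
  have h20 : T3 0 = T2 0 := b3 0 (by decide)
  have h21 : T3 1 = T2 1 := b3 1 (by decide)
  refine ⟨T3, c3, d3, fun i => ?_⟩
  fin_cases i
  · refine ⟨n1, ?_, ?_⟩
    · change |crd V n1 0| = T3 0
      rw [e1.1, h20, h10]
    · intro j hj
      fin_cases j
      · exact absurd rfl hj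
      · have := e1.2 1 (by decide)
        change |crd V n1 1| < T3 1
        rw [h21]
        exact this.trans_le a2
      · have := e1.2 2 (by decide)
        change |crd V n1 2| < T3 2
        rw [← h12] at this
        exact this.trans_le a3
  · refine ⟨n2, ?_, ?_⟩
    · change |crd V n2 1| = T3 1
      rw [e2.1, h21]
    · intro j hj
      fin_cases j
      · have := e2.2 0 (by decide)
        change |crd V n2 0| < T3 0
        rw [h20]
        exact this
      · exact absurd rfl hj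
      · have := e2.2 2 (by decide)
        change |crd V n2 2| < T3 2
        exact this.trans_le a3
  · exact ⟨n3, e3⟩

theorem fin3_cases : ∀ (j k : Fin 3), j ≠ k → j ≠ 2 → k ≠ 2 → ∀ i : Fin 3, i = j ∨ i = k ∨ i = 2 := by
  decide

theorem dt_crs_self_left (a b : Fin 3 → ℤ) : dt (crs a b) a = 0 := by
  simp [dt, crs]
  ring

theorem dt_crs_self_right (a b : Fin 3 → ℤ) : dt (crs a b) b = 0 := by
  simp [dt, crs]
  ring

/-- The descent step. -/
theorem descent {V : Matrix (Fin 3) (Fin 3) ℝ} (hV : V.det ≠ 0) (hNT : ¬ Touching V)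
    {m : Fin 3 → ℤ} (hm : m ≠ 0) {T : Fin 3 → ℝ} (hM : MaxB V T)
    (hplane : ∀ n, Clo V T n → dt m n = 0) {j k : Fin 3} (hjk : j ≠ k) (hj2 : j ≠ 2) (hk2 : k ≠ 2)
    {vj vk : Fin 3 → ℤ} (hvj : Strict V T j vj) (hvk : Strict V T k vk)
    (hmin : ∀ n, Strict V T j n → |crd V vj 2| ≤ |crd V n 2|)
    (hle : |crd V vk 2| ≤ |crd V vj 2|) :
    ∃ T', MaxB V T' ∧ (∀ n, Clo V T' n → dt m n = 0) ∧ T' 2 < T 2 := by
  have hall := fin3_cases j k hjk hj2 hk2
  have hT := hM.1
  have hE := hM.2.1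
  have hmj : dt m vj = 0 := hplane _ hvj.clo
  have hmk : dt m vk = 0 := hplane _ hvk.clo
  have hcjk : crs vj vk ≠ 0 := crs_ne hT hjk hvj hvk
  set t := |crd V vj 2| with ht
  have ht2 : t < T 2 := hvj.2 2 hj2.symm
  have htpos : 0 < t := by
    rcases (abs_nonneg (crd V vj 2)).lt_or_eq with h | h
    · exact h
    · exfalso
      have hj0 : crd V vj 2 = 0 := abs_eq_zero.mp h.symm
      have hk0 : crd V vk 2 = 0 := by
        apply abs_eq_zero.mp
        apply le_antisymm _ (abs_nonneg _)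
        rw [ht, ← h] at hle
        exact hle
      obtain ⟨u2, hu2⟩ := hM.2.2 2
      have hm2 : dt m u2 = 0 := hplane _ hu2.clo
      have hx : crd V u2 2 = 0 := by
        rcases (by revert hjk hj2 hk2; clear hall hvj hvk hmin hle ht2 ht hmj hmk hcjk h hj0 hk0; revert j k; decide :
          (j = 0 ∧ k = 1) ∨ (j = 1 ∧ k = 0)) with ⟨h1, h2⟩ | ⟨h1, h2⟩
        · subst h1 h2
          exact crd_two_eq_zero (coplanar hm hmj hmk hm2) hj0 hk0 (lf_ne hT (by decide) hvj hvk)
        · subst h1 h2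
          exact crd_two_eq_zero (coplanar hm hmk hmj hm2) hk0 hj0 (lf_ne hT (by decide) hvk hvj)
      have h3 := hu2.1
      rw [hx, abs_zero] at h3
      linarith [hT 2]
  -- the box with `T 2` replaced by `t`
  set B0 : Fin 3 → ℝ := Function.update T 2 t with hB0
  have hB0j : B0 j = T j := by rw [hB0, Function.update_of_ne hj2]
  have hB0k : B0 k = T k := by rw [hB0, Function.update_of_ne hk2]
  have hB02 : B0 2 = t := by rw [hB0, Function.update_self]
  have hB0le : ∀ i, B0 i ≤ T i := by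
    intro i
    rcases hall i with h | h | h
    · rw [h, hB0j]
    · rw [h, hB0k]
    · rw [h, hB02]
      exact ht2.le
  have hB0pos : ∀ i, 0 < B0 i := by
    intro i
    rcases hall i with h | h | h
    · rw [h, hB0j]
      exact hT j
    · rw [h, hB0k]
      exact hT k
    · rw [h, hB02]
      exact htpos
  have hB0E : EmptyBox V B0 := hE.mono hB0le
  obtain ⟨T1, wj, a1, b1, c1, d1, e1⟩ := expand_box hV hB0pos hB0E j
  have hT1k : T1 k = T k := by rw [b1 k hjk.symm, hB0k]
  have hT12 : T1 2 = t := by rw [b1 2 hj2.symm, hB02]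
  have hT1j : T j < T1 j := by
    rw [hB0j] at a1
    rcases a1.lt_or_eq with h | h
    · exact h
    · exfalso
      have hs : Strict V T j wj := by
        refine ⟨by rw [e1.1, ← h], fun i hi => ?_⟩
        rcases hall i with h' | h' | h'
        · exact absurd h' hi
        · rw [h']
          have := e1.2 k hjk.symm
          rwa [hT1k] at this
        · rw [h']
          have := e1.2 2 hj2.symm
          rw [hT12] at this
          exact this.trans ht2
      have h2 := hmin wj hs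
      have h3 := e1.2 2 hj2.symm
      rw [hT12] at h3
      linarith
  obtain ⟨T2, wk, a2, b2, c2, d2, e2⟩ := expand_box hV c1 d1 k
  have hT2j : T2 j = T1 j := b2 j hjk
  have hT22 : T2 2 = t := by rw [b2 2 hk2.symm, hT12]
  have hT2k : T k ≤ T2 k := by rw [← hT1k]; exact a2
  have hf2 : Strict V T2 2 vj := by
    refine ⟨by rw [hT22], fun i hi => ?_⟩
    rcases hall i with h' | h' | h'
    · rw [h', hvj.1, hT2j]
      exact hT1j
    · rw [h']
      exact (hvj.2 k hjk.symm).trans_le hT2k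
    · exact absurd h' hi
  have hfj : Strict V T2 j wj := by
    refine ⟨by rw [hT2j, e1.1], fun i hi => ?_⟩
    rcases hall i with h' | h' | h'
    · exact absurd h' hi
    · rw [h']
      have := e1.2 k hjk.symm
      rw [hT1k] at this
      exact this.trans_le hT2k
    · rw [h', hT22]
      have := e1.2 2 hj2.symm
      rwa [hT12] at this
  have hM2 : MaxB V T2 := by
    refine ⟨c2, d2, fun i => ?_⟩
    rcases hall i with h' | h' | h'
    · rw [h']
      exact ⟨wj, hfj⟩
    · rw [h']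
      exact ⟨wk, e2⟩
    · rw [h']
      exact ⟨vj, hf2⟩
  have hck : Clo V T2 vk := by
    intro i
    rcases hall i with h' | h' | h'
    · rw [h', hT2j]
      exact (hvk.2 j hjk).le.trans hT1j.le
    · rw [h', hvk.1]
      exact hT2k
    · rw [h', hT22]
      exact hle
  refine ⟨T2, hM2, fun n hn => ?_, by rw [hT22]; exact ht2⟩
  choose u' hu' using hM2.2.2
  have hc := fun {n : Fin 3 → ℤ} (hn : Clo V T2 n) => closed_coplanar hNT hM2 hu' hn
  have hm' : crs (u' 0) (u' 1) ≠ 0 := crs_ne c2 (by decide) (hu' 0) (hu' 1)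
  exact dt_of_dep hmj hmk hcjk (coplanar hm' (hc hf2.clo) (hc hck) (hc hn))

/-- Lower bound for `T i * T j` on the family of maximal boxes with closed-box vectors in `m^⊥`. -/
theorem pair_lower {V : Matrix (Fin 3) (Fin 3) ℝ} {m : Fin 3 → ℤ} {p : Fin 3} (hp : m p ≠ 0)
    {T : Fin 3 → ℝ} (hM : MaxB V T) (hplane : ∀ n, Clo V T n → dt m n = 0) {i j : Fin 3}
    (hij : i ≠ j) : lf V i j m ≠ 0 ∧ |lf V i j m| ≤ 2 * |(m p : ℝ)| * (T i * T j) := by
  obtain ⟨a, ha⟩ := hM.2.2 i
  obtain ⟨b, hb⟩ := hM.2.2 j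
  have hT := hM.1
  have hpar := fun q => parallel (hplane a ha.clo) (hplane b hb.clo) p q
  set w := crs a b with hw
  have hwne : w ≠ 0 := crs_ne hT hij ha hb
  have hwp : w p ≠ 0 := by
    intro h
    apply hwne
    funext q
    have := hpar q
    rw [h, zero_mul] at this
    exact (mul_eq_zero.mp this.symm).resolve_right hp
  have hlin : (m p : ℝ) * lf V i j w = (w p : ℝ) * lf V i j m := by
    have h0 : (w p : ℝ) * m 0 = w 0 * m p := by exact_mod_cast hpar 0
    have h1 : (w p : ℝ) * m 1 = w 1 * m p := by exact_mod_cast hpar 1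
    have h2 : (w p : ℝ) * m 2 = w 2 * m p := by exact_mod_cast hpar 2
    simp only [lf]
    linear_combination -(V 1 i * V 2 j - V 2 i * V 1 j) * h0 - (V 2 i * V 0 j - V 0 i * V 2 j) * h1 -
      (V 0 i * V 1 j - V 1 i * V 0 j) * h2
  have hlw : lf V i j w ≠ 0 := lf_ne hT hij ha hb
  have hp' : (m p : ℝ) ≠ 0 := by exact_mod_cast hp
  have hne : lf V i j m ≠ 0 := by
    intro h
    rw [h, mul_zero] at hlin
    rcases mul_eq_zero.mp hlin with h | h
    · exact hp' h
    · exact hlw h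
  refine ⟨hne, ?_⟩
  have hwp1 : (1 : ℝ) ≤ |(w p : ℝ)| := by
    have : (1 : ℤ) ≤ |w p| := Int.one_le_abs hwp
    exact_mod_cast this
  have hub : |lf V i j w| ≤ 2 * (T i * T j) := by
    rw [hw, lf_crs]
    have h1 : |crd V a i * crd V b j| = T i * T j := by rw [abs_mul, ha.1, hb.1]
    have h2 : |crd V a j * crd V b i| ≤ T i * T j := by
      rw [abs_mul]
      calc |crd V a j| * |crd V b i| ≤ T j * T i :=
            mul_le_mul (ha.2 j hij.symm).le (hb.2 i hij).le (abs_nonneg _) (hT j).le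
        _ = T i * T j := mul_comm _ _
    calc |crd V a i * crd V b j - crd V a j * crd V b i|
        ≤ |crd V a i * crd V b j| + |crd V a j * crd V b i| := abs_sub _ _
      _ ≤ 2 * (T i * T j) := by linarith
  calc |lf V i j m| ≤ |(w p : ℝ)| * |lf V i j m| := by
        nlinarith [abs_nonneg (lf V i j m)]
    _ = |(m p : ℝ)| * |lf V i j w| := by rw [← abs_mul, ← abs_mul, hlin]
    _ ≤ |(m p : ℝ)| * (2 * (T i * T j)) := mul_le_mul_of_nonneg_left hub (abs_nonneg _)
    _ = 2 * |(m p : ℝ)| * (T i * T j) := by ring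

theorem coord_bound {V : Matrix (Fin 3) (Fin 3) ℝ} (hV : V.det ≠ 0) {m : Fin 3 → ℤ} {p : Fin 3}
    (hp : m p ≠ 0) {T : Fin 3 → ℝ} (hM : MaxB V T) (hplane : ∀ n, Clo V T n → dt m n = 0)
    {i j k : Fin 3} (hij : i ≠ j) (hprod : ∏ l, T l = T k * (T i * T j)) :
    T k ≤ |V.det| * (2 * |(m p : ℝ)|) / |lf V i j m| := by
  obtain ⟨hne, hle⟩ := pair_lower hp hM hplane hij
  have hpos : 0 < |lf V i j m| := abs_pos.mpr hne
  rw [le_div_iff₀ hpos]
  have h1 := prod_le hV hM.1 hM.2.1
  rw [hprod] at h1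
  have hTk := hM.1 k
  calc T k * |lf V i j m| ≤ T k * (2 * |(m p : ℝ)| * (T i * T j)) :=
        mul_le_mul_of_nonneg_left hle hTk.le
    _ = (T k * (T i * T j)) * (2 * |(m p : ℝ)|) := by ring
    _ ≤ |V.det| * (2 * |(m p : ℝ)|) := mul_le_mul_of_nonneg_right h1 (by positivity)

/-- Every nonsingular `V` has an empty box with a touching triple of nonzero determinant. -/
theorem exists_touching (V : Matrix (Fin 3) (Fin 3) ℝ) (hV : V.det ≠ 0) :
    ∃ (T : Fin 3 → ℝ) (u : Matrix (Fin 3) (Fin 3) ℤ), (∀ j, 0 < T j) ∧ EmptyBox V T ∧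
      (∀ i, |crd V (u i) i| = T i) ∧ (∀ i j, |crd V (u i) j| ≤ T j) ∧ u.det ≠ 0 := by
  by_contra hcon
  have hNT : ¬ Touching V := hcon
  obtain ⟨T0, hM0⟩ := exists_maxB hV
  choose u0 hu0 using hM0.2.2
  set m := crs (u0 0) (u0 1) with hmdef
  have hm : m ≠ 0 := crs_ne hM0.1 (by decide) (hu0 0) (hu0 1)
  obtain ⟨p, hp⟩ : ∃ p, m p ≠ 0 := by
    by_contra h
    push Not at h
    exact hm (funext h)
  have hpl0 : ∀ n, Clo V T0 n → dt m n = 0 := fun n hn => closed_coplanar hNT hM0 hu0 hn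
  set Fam : Set (Fin 3 → ℝ) := {T | MaxB V T ∧ ∀ n, Clo V T n → dt m n = 0} with hFam
  set C := |V.det| * (2 * |(m p : ℝ)|) with hC
  set B : ℝ := max (C / |lf V 1 2 m|) (max (C / |lf V 0 2 m|) (C / |lf V 0 1 m|)) with hB
  have hbd : ∀ T ∈ Fam, ∀ k, T k ≤ B := by
    intro T hT k
    fin_cases k
    · exact (coord_bound (k := 0) hV hp hT.1 hT.2 (i := 1) (j := 2) (by decide) (by
        rw [Fin.prod_univ_three]; ring)).trans (le_max_left _ _)
    · exact (coord_bound (k := 1) hV hp hT.1 hT.2 (i := 0) (j := 2) (by decide) (by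
        rw [Fin.prod_univ_three]; ring)).trans ((le_max_left _ _).trans (le_max_right _ _))
    · exact (coord_bound (k := 2) hV hp hT.1 hT.2 (i := 0) (j := 1) (by decide) (by
        rw [Fin.prod_univ_three]; ring)).trans ((le_max_right _ _).trans (le_max_right _ _))
  have hfin : ((fun T : Fin 3 → ℝ => T 2) '' Fam).Finite := by
    apply ((finite_closed V hV B).image (fun n => |crd V n 2|)).subset
    rintro _ ⟨T, hT, rfl⟩
    obtain ⟨n, hn⟩ := hT.1.2.2 2
    exact ⟨n, fun j => (hn.clo j).trans (hbd T hT j), hn.1⟩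
  obtain ⟨t, ⟨T, hT, rfl⟩, htmin⟩ := Set.exists_min_image _ id hfin ⟨_, T0, ⟨hM0, hpl0⟩, rfl⟩
  have hS : ∀ i : Fin 3, ∃ v, Strict V T i v ∧ ∀ n, Strict V T i n → |crd V v 2| ≤ |crd V n 2| := by
    intro i
    obtain ⟨v, hv, hv2⟩ := exists_min_coord V hV {n | Strict V T i n} (hT.1.2.2 i) 2 (∑ j, T j)
      (fun n hn j _ => (hn.clo j).trans
        (Finset.single_le_sum (f := T) (fun j _ => (hT.1.1 j).le) (Finset.mem_univ j)))
    exact ⟨v, hv, fun n hn => hv2 n hn⟩
  obtain ⟨v0, hv0, hmin0⟩ := hS 0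
  obtain ⟨v1, hv1, hmin1⟩ := hS 1
  have hstep : ∃ T', MaxB V T' ∧ (∀ n, Clo V T' n → dt m n = 0) ∧ T' 2 < T 2 := by
    rcases le_total |crd V v0 2| |crd V v1 2| with h | h
    · exact descent hV hNT hm hT.1 hT.2 (j := 1) (k := 0) (by decide) (by decide) (by decide)
        hv1 hv0 hmin1 h
    · exact descent hV hNT hm hT.1 hT.2 (j := 0) (k := 1) (by decide) (by decide) (by decide)
        hv0 hv1 hmin0 h
  obtain ⟨T', h1, h2, h3⟩ := hstep
  have := htmin (T' 2) ⟨T', ⟨h1, h2⟩, rfl⟩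
  simp only [id] at this
  linarith

end Pool.Agent.Lib.MP_ddd95a_nt
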