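import Pool.Agent.Lib.MP_ddd95a_nt.Mg.G018
import Pool.Agent.Lib.MP_ddd95a_nt.Touch
import Pool.Agent.Lib.MP_ddd95a_nt.Index
import Pool.Agent.Lib.MP_ddd95a_nt.Symm

/-!
# The value of Mordell's constant in dimension three
-/

namespace Pool.Agent.Lib.MP_ddd95a_nt

open scoped BigOperators

/-- Every normalised matrix is good. -/
theorem nrm_good : ∀ V : Matrix (Fin 3) (Fin 3) ℝ, Nrm V → Good kap V := by
  apply symm_reduction
  intro V hV h01 h02 hs
  have hle := fun i j => abs_le.1 (hV.le_one i j)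
  apply root_cov V hV hs
  refine ⟨?_, ?_, ?_, ?_, ?_, ?_, ?_, ?_, ?_, ?_, ?_, ?_⟩ <;> norm_num <;>
    linarith [(hle 1 0).1, (hle 1 0).2, (hle 2 0).1, (hle 2 0).2, (hle 0 1).2, (hle 2 1).1,
      (hle 2 1).2, (hle 0 2).2, (hle 1 2).1, (hle 1 2).2]

/-- Every lattice has an empty open box of volume at least `kap * det`. -/
theorem all_good (V : Matrix (Fin 3) (Fin 3) ℝ) (hV : V.det ≠ 0) : Good kap V := by
  refine good_of_nrm ?_ nrm_good exists_touching V hV
  have := kap_lt
  linarith

theorem admissible_of_lt {κ : ℝ} (h0 : 0 < κ) (h1 : κ < kap) : IsAdmissible 3 κ := by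
  refine ⟨h0, fun A hA => ?_⟩
  have hdet : A.transpose.det = 1 := by rw [Matrix.det_transpose, hA]
  obtain ⟨T, hT, hE, hp⟩ := all_good A.transpose (by rw [hdet]; exact one_ne_zero)
  rw [hdet, abs_one, mul_one] at hp
  set P : ℝ := ∏ j, T j with hP
  have hP0 : 0 < P := Finset.prod_pos fun j _ => hT j
  have hx0 : 0 < κ / P := div_pos h0 hP0
  have hx1 : κ / P < 1 := by
    rw [div_lt_one hP0]
    linarith
  set r : ℝ := (κ / P) ^ ((1 : ℝ) / 3) with hr
  have hr0 : 0 < r := Real.rpow_pos_of_pos hx0 _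
  have hr3 : r ^ 3 = κ / P := by
    rw [hr, ← Real.rpow_natCast, ← Real.rpow_mul hx0.le]
    norm_num
  have hr1 : r < 1 := Real.rpow_lt_one hx0.le hx1 (by norm_num)
  refine ⟨fun i => r * T i, fun i => mul_pos hr0 (hT i), ?_, ?_⟩
  · rw [Finset.prod_mul_distrib, Finset.prod_const, Finset.card_univ, Fintype.card_fin, hr3, ← hP]
    field_simp
  · intro u hu
    by_contra hne
    obtain ⟨j, hj⟩ := hE u hne
    have h2 := hu j
    have e : crd A.transpose u j = ∑ k, A j k * (u k : ℝ) := by
      unfold crd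
      apply Finset.sum_congr rfl
      intro k _
      rw [Matrix.transpose_apply]
      ring
    rw [e] at hj
    have h3 : r * T j < T j := by
      have := hT j
      nlinarith
    linarith

/-- The numbers admissible in dimension three. -/
theorem admissible_iff {κ : ℝ} : IsAdmissible 3 κ ↔ 0 < κ ∧ κ < kap :=
  ⟨fun h => ⟨h.1, upper_bound_lt h⟩, fun h => admissible_of_lt h.1 h.2⟩

/-- **Mordell's constant in dimension three.** -/
theorem isLUB_kap : IsLUB {κ : ℝ | IsAdmissible 3 κ} kap := by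
  constructor
  · intro κ hκ
    exact upper_bound hκ
  · intro b hb
    by_contra hcon
    push Not at hcon
    have hk := kap_pos
    obtain ⟨κ, hκ1, hκ2⟩ := exists_between (max_lt hcon hk)
    have := hb (admissible_of_lt (lt_of_le_of_lt (le_max_right _ _) hκ1) hκ2)
    exact absurd (lt_of_le_of_lt (le_max_left _ _) hκ1) (not_lt.2 this)

end Pool.Agent.Lib.MP_ddd95a_nt
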