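import Pool.Agent.Lib.MP_ddd95a_nt.Upper

set_option autoImplicit false

namespace Pool.Agent.Lib.MP_ddd95a_nt

/-- Face vectors of the twelve boxes used near the extremal matrix. -/
def lw : Fin 12 → Fin 3 → Fin 3 → ℤ :=
  ![![![0, -1, 0], ![0, 1, -1], ![0, 0, 1]],
    ![![1, 0, 0], ![0, 0, -1], ![1, 0, 1]],
    ![![1, -1, 0], ![0, 1, 0], ![1, 0, 0]],
    ![![0, -1, 1], ![1, 2, -1], ![1, 1, 0]],
    ![![0, 0, -1], ![1, 1, 0], ![1, 1, 1]],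
    ![![1, 1, -1], ![1, 2, -2], ![0, -1, 1]],
    ![![1, 0, -1], ![1, 1, -1], ![0, 1, 0]],
    ![![1, 0, 1], ![1, 1, 1], ![2, 1, 2]],
    ![![0, -1, -1], ![-1, 0, -1], ![1, 1, 2]],
    ![![1, -1, -1], ![1, 0, 0], ![0, 1, 1]],
    ![![2, -2, -1], ![-1, 1, 0], ![-1, 1, 1]],
    ![![2, -1, -1], ![1, 0, -1], ![1, -1, 0]]]

/-- Value of a list of terms `(α + β c + γ c²) ∏ u_i`. -/
private noncomputable def lcv (c : ℝ) (u : Fin 6 → ℝ) : List (ℤ × ℤ × ℤ × List (Fin 6)) → ℝ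
  | [] => 0
  | x :: L => ((x.1 : ℝ) + x.2.1 * c + x.2.2.1 * c ^ 2) * (x.2.2.2.map u).prod + lcv c u L

/-- Weight of a monomial of given degree. -/
private def lwt : ℕ → ℤ
  | 1 => 25000000
  | 2 => 595000
  | 3 => 14161
  | _ => 0

/-- Bound for a list of terms. -/
private def lcn : List (ℤ × ℤ × ℤ × List (Fin 6)) → ℤ
  | [] => 0
  | x :: L => (|x.1 * 10000000 + x.2.1 * 12469796 + x.2.2.1 * 15549580| + |x.2.1| + 10 * |x.2.2.1|)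
      * lwt x.2.2.2.length + lcn L

/-- All monomials have degree `1`, `2` or `3`. -/
private def lcd : List (ℤ × ℤ × ℤ × List (Fin 6)) → Bool
  | [] => true
  | x :: L => (x.2.2.2.length == 1 || x.2.2.2.length == 2 || x.2.2.2.length == 3) && lcd L

private lemma lc_coef {c : ℝ} (c1 : (3117449 / 2500000) ≤ c) (c2 : c ≤ (12469797 / 10000000))
    (e1 : (777479 / 500000) ≤ c ^ 2) (e2 : c ^ 2 ≤ (1554959 / 1000000)) (a b g : ℤ) :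
    |10000000 * ((a : ℝ) + b * c + g * c ^ 2) -
      ((a * 10000000 + b * 12469796 + g * 15549580 : ℤ) : ℝ)| ≤ ((|b| + 10 * |g| : ℤ) : ℝ) := by
  push_cast
  have h1 : |10000000 * c - 12469796| ≤ 1 := abs_le.2 ⟨by linarith, by linarith⟩
  have h2 : |10000000 * c ^ 2 - 15549580| ≤ 10 := abs_le.2 ⟨by linarith, by linarith⟩
  have e : 10000000 * ((a : ℝ) + b * c + g * c ^ 2) -
      (a * 10000000 + b * 12469796 + g * 15549580) =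
      b * (10000000 * c - 12469796) + g * (10000000 * c ^ 2 - 15549580) := by ring
  rw [e]
  refine (abs_add_le _ _).trans ?_
  rw [abs_mul, abs_mul]
  have h3 := mul_le_mul_of_nonneg_left h1 (abs_nonneg (b : ℝ))
  have h4 := mul_le_mul_of_nonneg_left h2 (abs_nonneg (g : ℝ))
  linarith

private lemma lc_coef_abs {c : ℝ} (c1 : (3117449 / 2500000) ≤ c) (c2 : c ≤ (12469797 / 10000000))
    (e1 : (777479 / 500000) ≤ c ^ 2) (e2 : c ^ 2 ≤ (1554959 / 1000000)) (a b g : ℤ) :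
    10000000 * |(a : ℝ) + b * c + g * c ^ 2| ≤
      ((|a * 10000000 + b * 12469796 + g * 15549580| + |b| + 10 * |g| : ℤ) : ℝ) := by
  have h := lc_coef c1 c2 e1 e2 a b g
  have h2 : 10000000 * |(a : ℝ) + b * c + g * c ^ 2| =
      |10000000 * ((a : ℝ) + b * c + g * c ^ 2)| := by
    rw [abs_mul, abs_of_pos (by norm_num : (0 : ℝ) < 10000000)]
  rw [h2]
  have h3 := abs_sub_abs_le_abs_sub (10000000 * ((a : ℝ) + b * c + g * c ^ 2))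
    ((a * 10000000 + b * 12469796 + g * 15549580 : ℤ) : ℝ)
  have h4 : |((a * 10000000 + b * 12469796 + g * 15549580 : ℤ) : ℝ)| =
      ((|a * 10000000 + b * 12469796 + g * 15549580| : ℤ) : ℝ) := by
    rw [Int.cast_abs]
  have h5 : ((|a * 10000000 + b * 12469796 + g * 15549580| + |b| + 10 * |g| : ℤ) : ℝ) =
      ((|a * 10000000 + b * 12469796 + g * 15549580| : ℤ) : ℝ) + ((|b| + 10 * |g| : ℤ) : ℝ) := by
    push_cast; ring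
  rw [h5, ← h4]
  linarith

private lemma lc_mon {u : Fin 6 → ℝ} {t : ℝ} (hu : ∀ i, |u i| ≤ t) (ht : t ≤ (119 / 5000)) :
    ∀ m : List (Fin 6), (m.length = 1 ∨ m.length = 2 ∨ m.length = 3) →
      25000000 * |(m.map u).prod| ≤ (lwt m.length : ℝ) * t := by
  have ht0 : 0 ≤ t := (abs_nonneg _).trans (hu 0)
  intro m hm
  match m, hm with
  | [a], _ =>
    simp only [List.map_cons, List.map_nil, List.prod_cons, List.prod_nil, mul_one,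
      List.length_cons, List.length_nil, lwt]
    push_cast
    have := hu a
    linarith
  | [a, b], _ =>
    simp only [List.map_cons, List.map_nil, List.prod_cons, List.prod_nil, mul_one,
      List.length_cons, List.length_nil, lwt]
    push_cast
    rw [abs_mul]
    have h := mul_le_mul (hu a) ((hu b).trans ht) (abs_nonneg _) ht0
    linarith
  | [a, b, d], _ =>
    simp only [List.map_cons, List.map_nil, List.prod_cons, List.prod_nil, mul_one,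
      List.length_cons, List.length_nil, lwt]
    push_cast
    rw [abs_mul, abs_mul]
    have h1 : |u b| * |u d| ≤ (119 / 5000) * (119 / 5000) :=
      mul_le_mul ((hu b).trans ht) ((hu d).trans ht) (abs_nonneg _) (by norm_num)
    have h := mul_le_mul (hu a) h1 (mul_nonneg (abs_nonneg _) (abs_nonneg _)) ht0
    linarith

private lemma lcv_bound {c : ℝ} (c1 : (3117449 / 2500000) ≤ c) (c2 : c ≤ (12469797 / 10000000))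
    (e1 : (777479 / 500000) ≤ c ^ 2) (e2 : c ^ 2 ≤ (1554959 / 1000000))
    {u : Fin 6 → ℝ} {t : ℝ} (hu : ∀ i, |u i| ≤ t) (ht : t ≤ (119 / 5000)) :
    ∀ L : List (ℤ × ℤ × ℤ × List (Fin 6)), lcd L = true →
      -((lcn L : ℝ) * t) ≤ 250000000000000 * lcv c u L := by
  have ht0 : 0 ≤ t := (abs_nonneg _).trans (hu 0)
  intro L
  induction L with
  | nil => intro _; simp [lcn, lcv]
  | cons x L ih =>
    intro hd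
    simp only [lcd, Bool.and_eq_true, Bool.or_eq_true, beq_iff_eq] at hd
    obtain ⟨h1, h2⟩ := hd
    have ih' := ih h2
    have hm := lc_mon hu ht x.2.2.2 (by tauto)
    have hc := lc_coef_abs c1 c2 e1 e2 x.1 x.2.1 x.2.2.1
    have hl0 : (0 : ℝ) ≤ (lwt x.2.2.2.length : ℝ) * t := (by positivity : (0 : ℝ) ≤
      25000000 * |(x.2.2.2.map u).prod|).trans hm
    simp only [lcn, lcv]
    have hp : (10000000 * |(x.1 : ℝ) + x.2.1 * c + x.2.2.1 * c ^ 2|) *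
        (25000000 * |(x.2.2.2.map u).prod|) ≤
        ((|x.1 * 10000000 + x.2.1 * 12469796 + x.2.2.1 * 15549580| + |x.2.1| + 10 * |x.2.2.1| : ℤ)
          : ℝ) * ((lwt x.2.2.2.length : ℝ) * t) :=
      mul_le_mul hc hm (by positivity) (le_trans (by positivity) hc)
    have hq := neg_abs_le (((x.1 : ℝ) + x.2.1 * c + x.2.2.1 * c ^ 2) * (x.2.2.2.map u).prod)
    rw [abs_mul] at hq
    rw [Int.cast_add, Int.cast_mul]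
    nlinarith

private lemma lc_final {c : ℝ} (c1 : (3117449 / 2500000) ≤ c) (c2 : c ≤ (12469797 / 10000000))
    (e1 : (777479 / 500000) ≤ c ^ 2) (e2 : c ^ 2 ≤ (1554959 / 1000000))
    {u0 u1 u2 u3 u4 u5 t : ℝ} (ht : t ≤ (119 / 5000))
    (h0 : |u0| ≤ t) (h1 : |u1| ≤ t) (h2 : |u2| ≤ t) (h3 : |u3| ≤ t) (h4 : |u4| ≤ t) (h5 : |u5| ≤ t)
    (a b g : ℤ) (L : List (ℤ × ℤ × ℤ × List (Fin 6))) (hd : lcd L = true)
    (hn : lcn L + (|b| + 10 * |g|) * 25000000 ≤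
      (a * 10000000 + b * 12469796 + g * 15549580) * 25000000) :
    0 ≤ ((a : ℝ) + b * c + g * c ^ 2) * t + lcv c ![u0, u1, u2, u3, u4, u5] L := by
  have ht0 : 0 ≤ t := (abs_nonneg _).trans h0
  have hu : ∀ i, |(![u0, u1, u2, u3, u4, u5] : Fin 6 → ℝ) i| ≤ t := by
    intro i
    fin_cases i
    · exact h0
    · exact h1
    · exact h2
    · exact h3
    · exact h4
    · exact h5
  have hb := lcv_bound c1 c2 e1 e2 hu ht L hd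
  have hc := (abs_le.1 (lc_coef c1 c2 e1 e2 a b g)).1
  have hn' : ((lcn L : ℤ) : ℝ) + ((|b| + 10 * |g| : ℤ) : ℝ) * 25000000 ≤
      ((a * 10000000 + b * 12469796 + g * 15549580 : ℤ) : ℝ) * 25000000 := by
    exact_mod_cast hn
  have hk : (lcn L : ℝ) ≤ 250000000000000 * ((a : ℝ) + b * c + g * c ^ 2) := by linarith
  have := mul_le_mul_of_nonneg_right hk ht0
  linarith

private lemma lc_core_0p {c u0 u1 u2 u3 u4 u5 t : ℝ}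
    (c1 : (3117449/2500000) ≤ c) (c2 : c ≤ (12469797/10000000)) (e1 : (777479/500000) ≤ c ^ 2) (e2 : c ^ 2 ≤ (1554959/1000000))
    (htr : t ≤ (119/5000))
    (h0 : |u0| ≤ t) (h1 : |u1| ≤ t) (h2 : |u2| ≤ t) (h3 : |u3| ≤ t) (h4 : |u4| ≤ t) (h5 : |u5| ≤ t)
    (hi : u0 = t) :
    0 ≤ (4 + 3*c) * u0 +
      ((-10) + c + 4*c^2) * u4 +
      (4 + c + (-2)*c^2) * u3 +
      (12 + (-3)*c + (-3)*c^2) * (u3 * u5) +
      ((-2) + 4*c^2) * (u3 * u4) +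
      ((-7) + 2*c + 5*c^2) * (u2 * u5) +
      ((-4) + (-1)*c + 4*c^2) * (u2 * u4) +
      (13 + (-2)*c + (-5)*c^2) * (u1 * u5) +
      (24 + (-3)*c + (-9)*c^2) * (u1 * u4) +
      (2 + 5*c + 4*c^2) * (u1 * u3) +
      (1) * (u1 * (u3 * u5)) +
      (5) * (u1 * (u3 * u4)) +
      (1 + 4*c + c^2) * (u1 * u2) +
      (3 + (-2)*c + (-1)*c^2) * (u1 * (u2 * u5)) +
      (5) * (u1 * (u2 * u4)) +
      (4 + (-5)*c + (-4)*c^2) * (u0 * u5) +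
      (6 + (-2)*c^2) * (u0 * u4) +
      (4 + (-4)*c^2) * (u0 * u3) +
      (5) * (u0 * (u3 * u5)) +
      (1 + (-2)*c + (-1)*c^2) * (u0 * (u3 * u4)) +
      (3*c + 3*c^2) * (u0 * u2) +
      ((-1)) * (u0 * (u2 * u5)) +
      (1) * (u0 * (u2 * u4)) := by
  have h := lc_final c1 c2 e1 e2 htr h0 h1 h2 h3 h4 h5 (4) (3) (0)
    [(-10, 1, 4, [4]), (4, 1, -2, [3]), (12, -3, -3, [3, 5]), (-2, 0, 4, [3, 4]), (-7, 2, 5, [2, 5]), (-4, -1, 4, [2, 4]), (13, -2, -5, [1, 5]), (24, -3, -9, [1, 4]), (2, 5, 4, [1, 3]), (1, 0, 0, [1, 3, 5]), (5, 0, 0, [1, 3, 4]), (1, 4, 1, [1, 2]), (3, -2, -1, [1, 2, 5]), (5, 0, 0, [1, 2, 4]), (4, -5, -4, [0, 5]), (6, 0, -2, [0, 4]), (4, 0, -4, [0, 3]), (5, 0, 0, [0, 3, 5]), (1, -2, -1, [0, 3, 4]), (0, 3, 3, [0, 2]), (-1, 0, 0, [0, 2, 5]), (1, 0, 0, [0, 2, 4])]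
    (by decide +kernel) (by decide +kernel)
  simp only [lcv, List.map_cons, List.map_nil, List.prod_cons, List.prod_nil, mul_one, add_zero,
    Matrix.cons_val] at h
  push_cast at h
  rw [← hi] at h
  linarith only [h]

private lemma lc_facet_0p {c a b d e g h t : ℝ} (hc : c ^ 3 + c ^ 2 - 2 * c - 1 = 0)
    (c1 : (3117449/2500000) ≤ c) (c2 : c ≤ (12469797/10000000)) (e1 : (777479/500000) ≤ c ^ 2) (e2 : c ^ 2 ≤ (1554959/1000000))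
    (htr : t ≤ (119/5000))
    (h0 : |a + (c^2 + c - 2)| ≤ t)
    (h1 : |b + (2 - c^2)| ≤ t)
    (h2 : |d - (2 - c^2)| ≤ t)
    (h3 : |e + (c^2 + c - 2)| ≤ t)
    (h4 : |g - (c^2 + c - 2)| ≤ t)
    (h5 : |h - (2 - c^2)| ≤ t)
    (hi : a + (c^2 + c - 2) = t) :
    0 ≤ 2 * ((1 + a + (-1)*b) * (d + 2 + (-2)*e) * ((-1)*h + 1) - ((c^2 + 2*c)/7) * (1 + d*h*b + g*a*e - g*b - d*a - h*e)) +
      2 * ((1 + (-1)*b) * (d + 1 + (-1)*e) * (h) - ((c^2 + 2*c)/7) * (1 + d*h*b + g*a*e - g*b - d*a - h*e)) +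
      2 * ((1 + b) * (d + 1 + e) * (2*g + h + 2) - ((c^2 + 2*c)/7) * (1 + d*h*b + g*a*e - g*b - d*a - h*e)) +
      1 * (((-1)*a + (-1)*b) * ((-1)*d + (-1)*e) * (g + h + 2) - ((c^2 + 2*c)/7) * (1 + d*h*b + g*a*e - g*b - d*a - h*e)) := by
  have ht0 : 0 ≤ t := (abs_nonneg _).trans h0
  obtain ⟨u0, rfl⟩ : ∃ u0, a = -(c^2 + c - 2) + u0 := ⟨a + (c^2 + c - 2), by ring⟩
  obtain ⟨u1, rfl⟩ : ∃ u1, b = -(2 - c^2) + u1 := ⟨b + (2 - c^2), by ring⟩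
  obtain ⟨u2, rfl⟩ : ∃ u2, d = (2 - c^2) + u2 := ⟨d - (2 - c^2), by ring⟩
  obtain ⟨u3, rfl⟩ : ∃ u3, e = -(c^2 + c - 2) + u3 := ⟨e + (c^2 + c - 2), by ring⟩
  obtain ⟨u4, rfl⟩ : ∃ u4, g = (c^2 + c - 2) + u4 := ⟨g - (c^2 + c - 2), by ring⟩
  obtain ⟨u5, rfl⟩ : ∃ u5, h = (2 - c^2) + u5 := ⟨h - (2 - c^2), by ring⟩
  rw [show (-(c^2 + c - 2) + u0) + (c^2 + c - 2) = u0 by ring] at h0
  rw [show (-(c^2 + c - 2) + u0) + (c^2 + c - 2) = u0 by ring] at hi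
  rw [show (-(2 - c^2) + u1) + (2 - c^2) = u1 by ring] at h1
  rw [show ((2 - c^2) + u2) - (2 - c^2) = u2 by ring] at h2
  rw [show (-(c^2 + c - 2) + u3) + (c^2 + c - 2) = u3 by ring] at h3
  rw [show ((c^2 + c - 2) + u4) - (c^2 + c - 2) = u4 by ring] at h4
  rw [show ((2 - c^2) + u5) - (2 - c^2) = u5 by ring] at h5
  refine le_of_le_of_eq (lc_core_0p c1 c2 e1 e2 htr h0 h1 h2 h3 h4 h5 hi) ?_
  linear_combination (-((-12) + 4*u5 + 10*u4 + (-4)*u3 + 2*u3*u4 + (-2)*u2 + (-1)*u2*u5 + (-4)*u1 + u1*u5 + u1*u2 + (-4)*u0 + 2*u0*u4 + (-2)*u0*u3 + 6*c + (-4)*c*u5 + (-7)*c*u4 + 7*c*u3 + c*u3*u4 + (-4)*c*u2 + (-1)*c*u2*u5 + (-2)*c*u1 + c*u1*u5 + c*u1*u2 + c*u0 + c*u0*u4 + (-1)*c*u0*u3 + 9*c^2 + c^2*u5 + (-3)*c^2*u4 + 3*c^2*u3 + c^2*u2 + (-1)*c^2*u1 + 3*c^2*u0 + (-1)*c^3 + c^3*u5 + (-1)*c^3*u4 + c^3*u3 + c^3*u2 + (-1)*c^3*u1 +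 c^3*u0 + (-5)*c^4 + (-2)*c^5)) * hc

private lemma lc_core_0m {c u0 u1 u2 u3 u4 u5 t : ℝ}
    (c1 : (3117449/2500000) ≤ c) (c2 : c ≤ (12469797/10000000)) (e1 : (777479/500000) ≤ c ^ 2) (e2 : c ^ 2 ≤ (1554959/1000000))
    (htr : t ≤ (119/5000))
    (h0 : |u0| ≤ t) (h1 : |u1| ≤ t) (h2 : |u2| ≤ t) (h3 : |u3| ≤ t) (h4 : |u4| ≤ t) (h5 : |u5| ≤ t)
    (hi : -u0 = t) :
    0 ≤ ((-3)*c + (-2)*c^2) * u0 +
      (8 + (-3)*c + (-4)*c^2) * u4 +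
      (2 + (-1)*c) * u3 +
      (4 + c + (-1)*c^2) * (u3 * u5) +
      (6 + (-2)*c^2) * (u3 * u4) +
      ((-1) + 2*c + c^2) * (u2 * u5) +
      (c) * (u2 * u4) +
      ((-3) + c^2) * (u1 * u5) +
      ((-4) + 3*c + 3*c^2) * (u1 * u4) +
      ((-1)*c) * (u1 * u3) +
      ((-1)) * (u1 * (u3 * u5)) +
      ((-1)) * (u1 * (u3 * u4)) +
      ((-1) + (-2)*c + (-1)*c^2) * (u1 * u2) +
      ((-1) + (-2)*c + (-1)*c^2) * (u1 * (u2 * u5)) +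
      ((-1)) * (u1 * (u2 * u4)) +
      ((-2) + (-1)*c) * (u0 * u5) +
      (2) * (u0 * u3) +
      (1) * (u0 * (u3 * u5)) +
      (1 + (-2)*c + (-1)*c^2) * (u0 * (u3 * u4)) +
      (c + c^2) * (u0 * u2) +
      ((-1)) * (u0 * (u2 * u5)) +
      ((-1)) * (u0 * (u2 * u4)) := by
  have h := lc_final c1 c2 e1 e2 htr h0 h1 h2 h3 h4 h5 (0) (3) (2)
    [(8, -3, -4, [4]), (2, -1, 0, [3]), (4, 1, -1, [3, 5]), (6, 0, -2, [3, 4]), (-1, 2, 1, [2, 5]), (0, 1, 0, [2, 4]), (-3, 0, 1, [1, 5]), (-4, 3, 3, [1, 4]), (0, -1, 0, [1, 3]), (-1, 0, 0, [1, 3, 5]), (-1, 0, 0, [1, 3, 4]), (-1, -2, -1, [1, 2]), (-1, -2, -1, [1, 2, 5]), (-1, 0, 0, [1, 2, 4]), (-2, -1, 0, [0, 5]), (2, 0, 0, [0, 3]), (1, 0, 0, [0, 3, 5]), (1, -2, -1, [0, 3, 4]), (0, 1, 1, [0, 2]), (-1, 0, 0, [0, 2, 5]), (-1, 0, 0, [0, 2, 4])]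
    (by decide +kernel) (by decide +kernel)
  simp only [lcv, List.map_cons, List.map_nil, List.prod_cons, List.prod_nil, mul_one, add_zero,
    Matrix.cons_val] at h
  push_cast at h
  rw [← hi] at h
  linarith only [h]

private lemma lc_facet_0m {c a b d e g h t : ℝ} (hc : c ^ 3 + c ^ 2 - 2 * c - 1 = 0)
    (c1 : (3117449/2500000) ≤ c) (c2 : c ≤ (12469797/10000000)) (e1 : (777479/500000) ≤ c ^ 2) (e2 : c ^ 2 ≤ (1554959/1000000))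
    (htr : t ≤ (119/5000))
    (h0 : |a + (c^2 + c - 2)| ≤ t)
    (h1 : |b + (2 - c^2)| ≤ t)
    (h2 : |d - (2 - c^2)| ≤ t)
    (h3 : |e + (c^2 + c - 2)| ≤ t)
    (h4 : |g - (c^2 + c - 2)| ≤ t)
    (h5 : |h - (2 - c^2)| ≤ t)
    (hi : -(a + (c^2 + c - 2)) = t) :
    0 ≤ 4 * (((-1)*a) * (1 + (-1)*e) * (1) - ((c^2 + 2*c)/7) * (1 + d*h*b + g*a*e - g*b - d*a - h*e)) +
      1 * (((-1)*a + b) * (d + 2 + (-1)*e) * (g + h) - ((c^2 + 2*c)/7) * (1 + d*h*b + g*a*e - g*b - d*a - h*e)) +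
      2 * (((-1)*b) * (d + 1) * (g + h + 1) - ((c^2 + 2*c)/7) * (1 + d*h*b + g*a*e - g*b - d*a - h*e)) := by
  have ht0 : 0 ≤ t := (abs_nonneg _).trans h0
  obtain ⟨u0, rfl⟩ : ∃ u0, a = -(c^2 + c - 2) + u0 := ⟨a + (c^2 + c - 2), by ring⟩
  obtain ⟨u1, rfl⟩ : ∃ u1, b = -(2 - c^2) + u1 := ⟨b + (2 - c^2), by ring⟩
  obtain ⟨u2, rfl⟩ : ∃ u2, d = (2 - c^2) + u2 := ⟨d - (2 - c^2), by ring⟩
  obtain ⟨u3, rfl⟩ : ∃ u3, e = -(c^2 + c - 2) + u3 := ⟨e + (c^2 + c - 2), by ring⟩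
  obtain ⟨u4, rfl⟩ : ∃ u4, g = (c^2 + c - 2) + u4 := ⟨g - (c^2 + c - 2), by ring⟩
  obtain ⟨u5, rfl⟩ : ∃ u5, h = (2 - c^2) + u5 := ⟨h - (2 - c^2), by ring⟩
  rw [show (-(c^2 + c - 2) + u0) + (c^2 + c - 2) = u0 by ring] at h0
  rw [show (-(c^2 + c - 2) + u0) + (c^2 + c - 2) = u0 by ring] at hi
  rw [show (-(2 - c^2) + u1) + (2 - c^2) = u1 by ring] at h1
  rw [show ((2 - c^2) + u2) - (2 - c^2) = u2 by ring] at h2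
  rw [show (-(c^2 + c - 2) + u3) + (c^2 + c - 2) = u3 by ring] at h3
  rw [show ((c^2 + c - 2) + u4) - (c^2 + c - 2) = u4 by ring] at h4
  rw [show ((2 - c^2) + u5) - (2 - c^2) = u5 by ring] at h5
  refine le_of_le_of_eq (lc_core_0m c1 c2 e1 e2 htr h0 h1 h2 h3 h4 h5 hi) ?_
  linear_combination (-((-20) + (-4)*u5 + 4*u4 + (-6)*u3 + 2*u3*u4 + (-4)*u2 + (-1)*u2*u5 + 6*u1 + u1*u5 + u1*u2 + (-4)*u0 + 2*u0*u4 + (-2)*u0*u3 + (-6)*c + (-2)*c*u5 + 3*c*u4 + (-1)*c*u3 + c*u3*u4 + (-4)*c*u2 + (-1)*c*u2*u5 + 4*c*u1 + c*u1*u5 + c*u1*u2 + (-1)*c*u0 + c*u0*u4 + (-1)*c*u0*u3 + 21*c^2 + c^2*u5 + (-3)*c^2*u4 + 3*c^2*u3 + c^2*u2 + (-1)*c^2*u1 + 3*c^2*u0 + 7*c^3 + c^3*u5 + (-1)*c^3*u4 + c^3*u3 + c^3*u2 + (-1)*c^3*u1 + c^3*u0 + (-5)*c^4 + (-2)*c^5)) * hc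

private lemma lc_core_1p {c u0 u1 u2 u3 u4 u5 t : ℝ}
    (c1 : (3117449/2500000) ≤ c) (c2 : c ≤ (12469797/10000000)) (e1 : (777479/500000) ≤ c ^ 2) (e2 : c ^ 2 ≤ (1554959/1000000))
    (htr : t ≤ (119/5000))
    (h0 : |u0| ≤ t) (h1 : |u1| ≤ t) (h2 : |u2| ≤ t) (h3 : |u3| ≤ t) (h4 : |u4| ≤ t) (h5 : |u5| ≤ t)
    (hi : u1 = t) :
    0 ≤ ((12/7) + 2*c + (4/7)*c^2) * u1 +
      ((-54/7) + 2*c + (24/7)*c^2) * u5 +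
      ((-86/7) + (19/7)*c + (40/7)*c^2) * u4 +
      ((2/7) + (9/7)*c + (2/7)*c^2) * u3 +
      ((-2) + (-1/7)*c + (17/7)*c^2) * (u3 * u5) +
      ((-22/7) + (-4/7)*c + 4*c^2) * (u3 * u4) +
      ((2/7) + (-4/7)*c^2) * u2 +
      ((-17/7) + (-4/7)*c + (17/7)*c^2) * (u2 * u5) +
      ((-4) + (-1)*c + 4*c^2) * (u2 * u4) +
      ((101/7) + (-24/7)*c + (-45/7)*c^2) * (u1 * u5) +
      (24 + (-29/7)*c + (-67/7)*c^2) * (u1 * u4) +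
      (2 + 5*c + 2*c^2) * (u1 * u3) +
      (3) * (u1 * (u3 * u5)) +
      (5) * (u1 * (u3 * u4)) +
      ((17/7) + (32/7)*c + (11/7)*c^2) * (u1 * u2) +
      (3 + (-6/7)*c + (-3/7)*c^2) * (u1 * (u2 * u5)) +
      (5) * (u1 * (u2 * u4)) +
      ((30/7) + (-5/7)*c + (-12/7)*c^2) * u0 +
      (4 + (-1)*c + (-2)*c^2) * (u0 * u5) +
      ((34/7) + (-4/7)*c + (-2)*c^2) * (u0 * u4) +
      ((8/7) + (4/7)*c) * (u0 * u3) +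
      (1) * (u0 * (u3 * u5)) +
      (1 + (-6/7)*c + (-3/7)*c^2) * (u0 * (u3 * u4)) +
      (2 + (13/7)*c + (3/7)*c^2) * (u0 * u2) +
      (1) * (u0 * (u2 * u5)) +
      (1) * (u0 * (u2 * u4)) := by
  have h := lc_final c1 c2 e1 e2 htr h0 h1 h2 h3 h4 h5 (12) (14) (4)
    [(-54, 14, 24, [5]), (-86, 19, 40, [4]), (2, 9, 2, [3]), (-14, -1, 17, [3, 5]), (-22, -4, 28, [3, 4]), (2, 0, -4, [2]), (-17, -4, 17, [2, 5]), (-28, -7, 28, [2, 4]), (101, -24, -45, [1, 5]), (168, -29, -67, [1, 4]), (14, 35, 14, [1, 3]), (21, 0, 0, [1, 3, 5]), (35, 0, 0, [1, 3, 4]), (17, 32, 11, [1, 2]), (21, -6, -3, [1, 2, 5]), (35, 0, 0, [1, 2, 4]), (30, -5, -12, [0]), (28, -7, -14, [0, 5]), (34, -4, -14, [0, 4]), (8, 4, 0, [0, 3]), (7, 0, 0, [0, 3, 5]), (7, -6, -3, [0, 3, 4]), (14, 13, 3, [0, 2]), (7, 0, 0, [0, 2, 5]), (7, 0, 0, [0, 2, 4])]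
    (by decide +kernel) (by decide +kernel)
  simp only [lcv, List.map_cons, List.map_nil, List.prod_cons, List.prod_nil, mul_one, add_zero,
    Matrix.cons_val] at h
  push_cast at h
  rw [← hi] at h
  linarith only [h]

private lemma lc_facet_1p {c a b d e g h t : ℝ} (hc : c ^ 3 + c ^ 2 - 2 * c - 1 = 0)
    (c1 : (3117449/2500000) ≤ c) (c2 : c ≤ (12469797/10000000)) (e1 : (777479/500000) ≤ c ^ 2) (e2 : c ^ 2 ≤ (1554959/1000000))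
    (htr : t ≤ (119/5000))
    (h0 : |a + (c^2 + c - 2)| ≤ t)
    (h1 : |b + (2 - c^2)| ≤ t)
    (h2 : |d - (2 - c^2)| ≤ t)
    (h3 : |e + (c^2 + c - 2)| ≤ t)
    (h4 : |g - (c^2 + c - 2)| ≤ t)
    (h5 : |h - (2 - c^2)| ≤ t)
    (hi : b + (2 - c^2) = t) :
    0 ≤ 2 * ((1 + b) * (d + 1 + e) * (2*g + h + 2) - ((c^2 + 2*c)/7) * (1 + d*h*b + g*a*e - g*b - d*a - h*e)) +
      1 * (((-1)*a + (-1)*b) * ((-1)*d + (-1)*e) * (g + h + 2) - ((c^2 + 2*c)/7) * (1 + d*h*b + g*a*e - g*b - d*a - h*e)) := by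
  have ht0 : 0 ≤ t := (abs_nonneg _).trans h0
  obtain ⟨u0, rfl⟩ : ∃ u0, a = -(c^2 + c - 2) + u0 := ⟨a + (c^2 + c - 2), by ring⟩
  obtain ⟨u1, rfl⟩ : ∃ u1, b = -(2 - c^2) + u1 := ⟨b + (2 - c^2), by ring⟩
  obtain ⟨u2, rfl⟩ : ∃ u2, d = (2 - c^2) + u2 := ⟨d - (2 - c^2), by ring⟩
  obtain ⟨u3, rfl⟩ : ∃ u3, e = -(c^2 + c - 2) + u3 := ⟨e + (c^2 + c - 2), by ring⟩
  obtain ⟨u4, rfl⟩ : ∃ u4, g = (c^2 + c - 2) + u4 := ⟨g - (c^2 + c - 2), by ring⟩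
  obtain ⟨u5, rfl⟩ : ∃ u5, h = (2 - c^2) + u5 := ⟨h - (2 - c^2), by ring⟩
  rw [show (-(c^2 + c - 2) + u0) + (c^2 + c - 2) = u0 by ring] at h0
  rw [show (-(2 - c^2) + u1) + (2 - c^2) = u1 by ring] at h1
  rw [show (-(2 - c^2) + u1) + (2 - c^2) = u1 by ring] at hi
  rw [show ((2 - c^2) + u2) - (2 - c^2) = u2 by ring] at h2
  rw [show (-(c^2 + c - 2) + u3) + (c^2 + c - 2) = u3 by ring] at h3
  rw [show ((c^2 + c - 2) + u4) - (c^2 + c - 2) = u4 by ring] at h4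
  rw [show ((2 - c^2) + u5) - (2 - c^2) = u5 by ring] at h5
  refine le_of_le_of_eq (lc_core_1p c1 c2 e1 e2 htr h0 h1 h2 h3 h4 h5 hi) ?_
  linear_combination (-((16/7)*u5 + (54/7)*u4 + (2/7)*u3 + (6/7)*u3*u4 + (2/7)*u2 + (-3/7)*u2*u5 + (-44/7)*u1 + (3/7)*u1*u5 + (3/7)*u1*u2 + (-26/7)*u0 + (6/7)*u0*u4 + (-6/7)*u0*u3 + (34/7)*c + (-40/7)*c*u5 + (-53/7)*c*u4 + (11/7)*c*u3 + (3/7)*c*u3*u4 + (2/7)*c*u2 + (-3/7)*c*u2*u5 + (-16/7)*c*u1 + (3/7)*c*u1*u5 + (3/7)*c*u1*u2 + (-3/7)*c*u0 + (3/7)*c*u0*u4 + (-3/7)*c*u0*u3 + (15/7)*c^2 + (3/7)*c^2*u5 + (-9/7)*c^2*u4 + (9/7)*c^2*u3 + (3/7)*c^2*u2 + (-3/7)*c^2*u1 + (9/7)*c^2*u0 + (-1)*c^3 + (3/7)*c^3*u5 + (-3/7)*c^3*u4 + (3/7)*c^3*u3 + (3/7)*c^3*u2 + (-3/7)*c^3*u1 + (3/7)*c^3*u0 + (-15/7)*c^4 + (-6/7)*c^5)) * hc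

private lemma lc_core_1m {c u0 u1 u2 u3 u4 u5 t : ℝ}
    (c1 : (3117449/2500000) ≤ c) (c2 : c ≤ (12469797/10000000)) (e1 : (777479/500000) ≤ c ^ 2) (e2 : c ^ 2 ≤ (1554959/1000000))
    (htr : t ≤ (119/5000))
    (h0 : |u0| ≤ t) (h1 : |u1| ≤ t) (h2 : |u2| ≤ t) (h3 : |u3| ≤ t) (h4 : |u4| ≤ t) (h5 : |u5| ≤ t)
    (hi : -u1 = t) :
    0 ≤ ((-10/7) + (-1)*c + (-1/7)*c^2) * u1 +
      ((31/7) + (-1)*c + (-13/7)*c^2) * u5 +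
      ((39/7) + (-10/7)*c + (-17/7)*c^2) * u4 +
      ((-4/7) + (3/7)*c + (3/7)*c^2) * u3 +
      ((2/7)*c + (1/7)*c^2) * (u3 * u5) +
      ((2/7) + (1/7)*c) * (u3 * u4) +
      ((3/7) + (1/7)*c^2) * u2 +
      ((13/7) + (1/7)*c + (-6/7)*c^2) * (u2 * u5) +
      (2 + (-1)*c^2) * (u2 * u4) +
      ((-20/7) + (-1/7)*c + (6/7)*c^2) * (u1 * u5) +
      ((-3) + (2/7)*c + (8/7)*c^2) * (u1 * u4) +
      ((-6/7) + (-8/7)*c + (-1/7)*c^2) * (u1 * u2) +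
      ((-1) + (-2/7)*c + (-1/7)*c^2) * (u1 * (u2 * u5)) +
      ((-1)) * (u1 * (u2 * u4)) +
      ((-4/7) + (3/7)*c + (3/7)*c^2) * u0 +
      ((2/7) + (1/7)*c) * (u0 * u4) +
      ((-2/7) + (-1/7)*c) * (u0 * u3) +
      ((-2/7)*c + (-1/7)*c^2) * (u0 * (u3 * u4)) +
      ((2/7)*c + (1/7)*c^2) * (u0 * u2) := by
  have h := lc_final c1 c2 e1 e2 htr h0 h1 h2 h3 h4 h5 (10) (7) (1)
    [(31, -7, -13, [5]), (39, -10, -17, [4]), (-4, 3, 3, [3]), (0, 2, 1, [3, 5]), (2, 1, 0, [3, 4]), (3, 0, 1, [2]), (13, 1, -6, [2, 5]), (14, 0, -7, [2, 4]), (-20, -1, 6, [1, 5]), (-21, 2, 8, [1, 4]), (-6, -8, -1, [1, 2]), (-7, -2, -1, [1, 2, 5]), (-7, 0, 0, [1, 2, 4]), (-4, 3, 3, [0]), (2, 1, 0, [0, 4]), (-2, -1, 0, [0, 3]), (0, -2, -1, [0, 3, 4]), (0, 2, 1, [0, 2])]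
    (by decide +kernel) (by decide +kernel)
  simp only [lcv, List.map_cons, List.map_nil, List.prod_cons, List.prod_nil, mul_one, add_zero,
    Matrix.cons_val] at h
  push_cast at h
  rw [← hi] at h
  linarith only [h]

private lemma lc_facet_1m {c a b d e g h t : ℝ} (hc : c ^ 3 + c ^ 2 - 2 * c - 1 = 0)
    (c1 : (3117449/2500000) ≤ c) (c2 : c ≤ (12469797/10000000)) (e1 : (777479/500000) ≤ c ^ 2) (e2 : c ^ 2 ≤ (1554959/1000000))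
    (htr : t ≤ (119/5000))
    (h0 : |a + (c^2 + c - 2)| ≤ t)
    (h1 : |b + (2 - c^2)| ≤ t)
    (h2 : |d - (2 - c^2)| ≤ t)
    (h3 : |e + (c^2 + c - 2)| ≤ t)
    (h4 : |g - (c^2 + c - 2)| ≤ t)
    (h5 : |h - (2 - c^2)| ≤ t)
    (hi : -(b + (2 - c^2)) = t) :
    0 ≤ 1 * (((-1)*b) * (d + 1) * (g + h + 1) - ((c^2 + 2*c)/7) * (1 + d*h*b + g*a*e - g*b - d*a - h*e)) := by
  have ht0 : 0 ≤ t := (abs_nonneg _).trans h0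
  obtain ⟨u0, rfl⟩ : ∃ u0, a = -(c^2 + c - 2) + u0 := ⟨a + (c^2 + c - 2), by ring⟩
  obtain ⟨u1, rfl⟩ : ∃ u1, b = -(2 - c^2) + u1 := ⟨b + (2 - c^2), by ring⟩
  obtain ⟨u2, rfl⟩ : ∃ u2, d = (2 - c^2) + u2 := ⟨d - (2 - c^2), by ring⟩
  obtain ⟨u3, rfl⟩ : ∃ u3, e = -(c^2 + c - 2) + u3 := ⟨e + (c^2 + c - 2), by ring⟩
  obtain ⟨u4, rfl⟩ : ∃ u4, g = (c^2 + c - 2) + u4 := ⟨g - (c^2 + c - 2), by ring⟩
  obtain ⟨u5, rfl⟩ : ∃ u5, h = (2 - c^2) + u5 := ⟨h - (2 - c^2), by ring⟩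
  rw [show (-(c^2 + c - 2) + u0) + (c^2 + c - 2) = u0 by ring] at h0
  rw [show (-(2 - c^2) + u1) + (2 - c^2) = u1 by ring] at h1
  rw [show (-(2 - c^2) + u1) + (2 - c^2) = u1 by ring] at hi
  rw [show ((2 - c^2) + u2) - (2 - c^2) = u2 by ring] at h2
  rw [show (-(c^2 + c - 2) + u3) + (c^2 + c - 2) = u3 by ring] at h3
  rw [show ((c^2 + c - 2) + u4) - (c^2 + c - 2) = u4 by ring] at h4
  rw [show ((2 - c^2) + u5) - (2 - c^2) = u5 by ring] at h5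
  refine le_of_le_of_eq (lc_core_1m c1 c2 e1 e2 htr h0 h1 h2 h3 h4 h5 hi) ?_
  linear_combination (-((-6) + (-11/7)*u5 + (-3/7)*u4 + (-4/7)*u3 + (2/7)*u3*u4 + (-11/7)*u2 + (-1/7)*u2*u5 + (11/7)*u1 + (1/7)*u1*u5 + (1/7)*u1*u2 + (-4/7)*u0 + (2/7)*u0*u4 + (-2/7)*u0*u3 + (-12/7)*c + (3/7)*c*u5 + (8/7)*c*u4 + (-1/7)*c*u3 + (1/7)*c*u3*u4 + (-4/7)*c*u2 + (-1/7)*c*u2*u5 + (4/7)*c*u1 + (1/7)*c*u1*u5 + (1/7)*c*u1*u2 + (-1/7)*c*u0 + (1/7)*c*u0*u4 + (-1/7)*c*u0*u3 + (26/7)*c^2 + (1/7)*c^2*u5 + (-3/7)*c^2*u4 + (3/7)*c^2*u3 + (1/7)*c^2*u2 + (-1/7)*c^2*u1 + (3/7)*c^2*u0 + c^3 + (1/7)*c^3*u5 + (-1/7)*c^3*u4 + (1/7)*c^3*u3 + (1/7)*c^3*u2 + (-1/7)*c^3*u1 + (1/7)*c^3*u0 + (-5/7)*c^4 + (-2/7)*c^5)) * hc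

private lemma lc_core_2p {c u0 u1 u2 u3 u4 u5 t : ℝ}
    (c1 : (3117449/2500000) ≤ c) (c2 : c ≤ (12469797/10000000)) (e1 : (777479/500000) ≤ c ^ 2) (e2 : c ^ 2 ≤ (1554959/1000000))
    (htr : t ≤ (119/5000))
    (h0 : |u0| ≤ t) (h1 : |u1| ≤ t) (h2 : |u2| ≤ t) (h3 : |u3| ≤ t) (h4 : |u4| ≤ t) (h5 : |u5| ≤ t)
    (hi : u2 = t) :
    0 ≤ ((10/7) + c + (1/7)*c^2) * u2 +
      ((3/7) + (1/7)*c^2) * u5 +
      ((4/7) + (-3/7)*c + (-3/7)*c^2) * u4 +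
      ((-4/7) + (3/7)*c + (3/7)*c^2) * u3 +
      ((2/7)*c + (1/7)*c^2) * (u3 * u5) +
      ((2/7) + (1/7)*c) * (u3 * u4) +
      ((6/7) + (8/7)*c + (1/7)*c^2) * (u2 * u5) +
      ((-31/7) + c + (13/7)*c^2) * u1 +
      ((-13/7) + (-1/7)*c + (6/7)*c^2) * (u1 * u5) +
      ((2/7)*c + (1/7)*c^2) * (u1 * u4) +
      ((-20/7) + (-1/7)*c + (6/7)*c^2) * (u1 * u2) +
      ((-1) + (-2/7)*c + (-1/7)*c^2) * (u1 * (u2 * u5)) +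
      ((-39/7) + (10/7)*c + (17/7)*c^2) * u0 +
      ((-2) + c^2) * (u0 * u5) +
      ((2/7) + (1/7)*c) * (u0 * u4) +
      ((-2/7) + (-1/7)*c) * (u0 * u3) +
      ((-2/7)*c + (-1/7)*c^2) * (u0 * (u3 * u4)) +
      ((-3) + (2/7)*c + (8/7)*c^2) * (u0 * u2) +
      ((-1)) * (u0 * (u2 * u5)) := by
  have h := lc_final c1 c2 e1 e2 htr h0 h1 h2 h3 h4 h5 (10) (7) (1)
    [(3, 0, 1, [5]), (4, -3, -3, [4]), (-4, 3, 3, [3]), (0, 2, 1, [3, 5]), (2, 1, 0, [3, 4]), (6, 8, 1, [2, 5]), (-31, 7, 13, [1]), (-13, -1, 6, [1, 5]), (0, 2, 1, [1, 4]), (-20, -1, 6, [1, 2]), (-7, -2, -1, [1, 2, 5]), (-39, 10, 17, [0]), (-14, 0, 7, [0, 5]), (2, 1, 0, [0, 4]), (-2, -1, 0, [0, 3]), (0, -2, -1, [0, 3, 4]), (-21, 2, 8, [0, 2]), (-7, 0, 0, [0, 2, 5])]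
    (by decide +kernel) (by decide +kernel)
  simp only [lcv, List.map_cons, List.map_nil, List.prod_cons, List.prod_nil, mul_one, add_zero,
    Matrix.cons_val] at h
  push_cast at h
  rw [← hi] at h
  linarith only [h]

private lemma lc_facet_2p {c a b d e g h t : ℝ} (hc : c ^ 3 + c ^ 2 - 2 * c - 1 = 0)
    (c1 : (3117449/2500000) ≤ c) (c2 : c ≤ (12469797/10000000)) (e1 : (777479/500000) ≤ c ^ 2) (e2 : c ^ 2 ≤ (1554959/1000000))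
    (htr : t ≤ (119/5000))
    (h0 : |a + (c^2 + c - 2)| ≤ t)
    (h1 : |b + (2 - c^2)| ≤ t)
    (h2 : |d - (2 - c^2)| ≤ t)
    (h3 : |e + (c^2 + c - 2)| ≤ t)
    (h4 : |g - (c^2 + c - 2)| ≤ t)
    (h5 : |h - (2 - c^2)| ≤ t)
    (hi : d - (2 - c^2) = t) :
    0 ≤ 1 * ((1 + (-1)*a + (-1)*b) * (d) * (h + 1) - ((c^2 + 2*c)/7) * (1 + d*h*b + g*a*e - g*b - d*a - h*e)) := by
  have ht0 : 0 ≤ t := (abs_nonneg _).trans h0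
  obtain ⟨u0, rfl⟩ : ∃ u0, a = -(c^2 + c - 2) + u0 := ⟨a + (c^2 + c - 2), by ring⟩
  obtain ⟨u1, rfl⟩ : ∃ u1, b = -(2 - c^2) + u1 := ⟨b + (2 - c^2), by ring⟩
  obtain ⟨u2, rfl⟩ : ∃ u2, d = (2 - c^2) + u2 := ⟨d - (2 - c^2), by ring⟩
  obtain ⟨u3, rfl⟩ : ∃ u3, e = -(c^2 + c - 2) + u3 := ⟨e + (c^2 + c - 2), by ring⟩
  obtain ⟨u4, rfl⟩ : ∃ u4, g = (c^2 + c - 2) + u4 := ⟨g - (c^2 + c - 2), by ring⟩
  obtain ⟨u5, rfl⟩ : ∃ u5, h = (2 - c^2) + u5 := ⟨h - (2 - c^2), by ring⟩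
  rw [show (-(c^2 + c - 2) + u0) + (c^2 + c - 2) = u0 by ring] at h0
  rw [show (-(2 - c^2) + u1) + (2 - c^2) = u1 by ring] at h1
  rw [show ((2 - c^2) + u2) - (2 - c^2) = u2 by ring] at h2
  rw [show ((2 - c^2) + u2) - (2 - c^2) = u2 by ring] at hi
  rw [show (-(c^2 + c - 2) + u3) + (c^2 + c - 2) = u3 by ring] at h3
  rw [show ((c^2 + c - 2) + u4) - (c^2 + c - 2) = u4 by ring] at h4
  rw [show ((2 - c^2) + u5) - (2 - c^2) = u5 by ring] at h5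
  refine le_of_le_of_eq (lc_core_2p c1 c2 e1 e2 htr h0 h1 h2 h3 h4 h5 hi) ?_
  linear_combination (-((-6) + (-11/7)*u5 + (4/7)*u4 + (-4/7)*u3 + (2/7)*u3*u4 + (-11/7)*u2 + (-1/7)*u2*u5 + (11/7)*u1 + (1/7)*u1*u5 + (1/7)*u1*u2 + (3/7)*u0 + (2/7)*u0*u4 + (-2/7)*u0*u3 + (-12/7)*c + (-4/7)*c*u5 + (1/7)*c*u4 + (-1/7)*c*u3 + (1/7)*c*u3*u4 + (-4/7)*c*u2 + (-1/7)*c*u2*u5 + (-3/7)*c*u1 + (1/7)*c*u1*u5 + (1/7)*c*u1*u2 + (-8/7)*c*u0 + (1/7)*c*u0*u4 + (-1/7)*c*u0*u3 + (26/7)*c^2 + (1/7)*c^2*u5 + (-3/7)*c^2*u4 + (3/7)*c^2*u3 + (1/7)*c^2*u2 + (-1/7)*c^2*u1 + (3/7)*c^2*u0 + c^3 + (1/7)*c^3*u5 + (-1/7)*c^3*u4 + (1/7)*c^3*u3 + (1/7)*c^3*u2 + (-1/7)*c^3*u1 + (1/7)*c^3*u0 + (-5/7)*c^4 + (-2/7)*c^5)) * hc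

private lemma lc_core_2m {c u0 u1 u2 u3 u4 u5 t : ℝ}
    (c1 : (3117449/2500000) ≤ c) (c2 : c ≤ (12469797/10000000)) (e1 : (777479/500000) ≤ c ^ 2) (e2 : c ^ 2 ≤ (1554959/1000000))
    (htr : t ≤ (119/5000))
    (h0 : |u0| ≤ t) (h1 : |u1| ≤ t) (h2 : |u2| ≤ t) (h3 : |u3| ≤ t) (h4 : |u4| ≤ t) (h5 : |u5| ≤ t)
    (hi : -u2 = t) :
    0 ≤ ((-12/7) + (-2)*c + (-4/7)*c^2) * u2 +
      ((2/7) + (-4/7)*c^2) * u5 +
      ((-2/7) + (-9/7)*c + (-2/7)*c^2) * u4 +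
      ((30/7) + (-5/7)*c + (-12/7)*c^2) * u3 +
      (2 + (13/7)*c + (3/7)*c^2) * (u3 * u5) +
      ((-8/7) + (-4/7)*c) * (u3 * u4) +
      ((-17/7) + (-32/7)*c + (-11/7)*c^2) * (u2 * u5) +
      (2 + 5*c + 2*c^2) * (u2 * u4) +
      ((54/7) + (-2)*c + (-24/7)*c^2) * u1 +
      ((17/7) + (4/7)*c + (-17/7)*c^2) * (u1 * u5) +
      ((-2) + (-1/7)*c + (17/7)*c^2) * (u1 * u4) +
      ((-4) + c + 2*c^2) * (u1 * u3) +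
      ((-1)) * (u1 * (u3 * u5)) +
      (1) * (u1 * (u3 * u4)) +
      ((101/7) + (-24/7)*c + (-45/7)*c^2) * (u1 * u2) +
      (3 + (-6/7)*c + (-3/7)*c^2) * (u1 * (u2 * u5)) +
      ((-3)) * (u1 * (u2 * u4)) +
      ((86/7) + (-19/7)*c + (-40/7)*c^2) * u0 +
      (4 + c + (-4)*c^2) * (u0 * u5) +
      ((-22/7) + (-4/7)*c + 4*c^2) * (u0 * u4) +
      ((-34/7) + (4/7)*c + 2*c^2) * (u0 * u3) +
      ((-1)) * (u0 * (u3 * u5)) +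
      (1 + (-6/7)*c + (-3/7)*c^2) * (u0 * (u3 * u4)) +
      (24 + (-29/7)*c + (-67/7)*c^2) * (u0 * u2) +
      (5) * (u0 * (u2 * u5)) +
      ((-5)) * (u0 * (u2 * u4)) := by
  have h := lc_final c1 c2 e1 e2 htr h0 h1 h2 h3 h4 h5 (12) (14) (4)
    [(2, 0, -4, [5]), (-2, -9, -2, [4]), (30, -5, -12, [3]), (14, 13, 3, [3, 5]), (-8, -4, 0, [3, 4]), (-17, -32, -11, [2, 5]), (14, 35, 14, [2, 4]), (54, -14, -24, [1]), (17, 4, -17, [1, 5]), (-14, -1, 17, [1, 4]), (-28, 7, 14, [1, 3]), (-7, 0, 0, [1, 3, 5]), (7, 0, 0, [1, 3, 4]), (101, -24, -45, [1, 2]), (21, -6, -3, [1, 2, 5]), (-21, 0, 0, [1, 2, 4]), (86, -19, -40, [0]), (28, 7, -28, [0, 5]), (-22, -4, 28, [0, 4]), (-34, 4, 14, [0, 3]), (-7, 0, 0, [0, 3, 5]), (7, -6, -3, [0, 3, 4]), (168, -29, -67, [0, 2]), (35, 0, 0, [0, 2, 5]), (-35, 0, 0, [0, 2, 4])]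
    (by decide +kernel) (by decide +kernel)
  simp only [lcv, List.map_cons, List.map_nil, List.prod_cons, List.prod_nil, mul_one, add_zero,
    Matrix.cons_val] at h
  push_cast at h
  rw [← hi] at h
  linarith only [h]

private lemma lc_facet_2m {c a b d e g h t : ℝ} (hc : c ^ 3 + c ^ 2 - 2 * c - 1 = 0)
    (c1 : (3117449/2500000) ≤ c) (c2 : c ≤ (12469797/10000000)) (e1 : (777479/500000) ≤ c ^ 2) (e2 : c ^ 2 ≤ (1554959/1000000))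
    (htr : t ≤ (119/5000))
    (h0 : |a + (c^2 + c - 2)| ≤ t)
    (h1 : |b + (2 - c^2)| ≤ t)
    (h2 : |d - (2 - c^2)| ≤ t)
    (h3 : |e + (c^2 + c - 2)| ≤ t)
    (h4 : |g - (c^2 + c - 2)| ≤ t)
    (h5 : |h - (2 - c^2)| ≤ t)
    (hi : -(d - (2 - c^2)) = t) :
    0 ≤ 2 * ((2 + (-2)*a + (-1)*b) * ((-1)*d + 1) * ((-1)*g + h + 1) - ((c^2 + 2*c)/7) * (1 + d*h*b + g*a*e - g*b - d*a - h*e)) +
      1 * ((2 + (-1)*a + (-1)*b) * (d + (-1)*e) * (g + (-1)*h) - ((c^2 + 2*c)/7) * (1 + d*h*b + g*a*e - g*b - d*a - h*e)) := by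
  have ht0 : 0 ≤ t := (abs_nonneg _).trans h0
  obtain ⟨u0, rfl⟩ : ∃ u0, a = -(c^2 + c - 2) + u0 := ⟨a + (c^2 + c - 2), by ring⟩
  obtain ⟨u1, rfl⟩ : ∃ u1, b = -(2 - c^2) + u1 := ⟨b + (2 - c^2), by ring⟩
  obtain ⟨u2, rfl⟩ : ∃ u2, d = (2 - c^2) + u2 := ⟨d - (2 - c^2), by ring⟩
  obtain ⟨u3, rfl⟩ : ∃ u3, e = -(c^2 + c - 2) + u3 := ⟨e + (c^2 + c - 2), by ring⟩
  obtain ⟨u4, rfl⟩ : ∃ u4, g = (c^2 + c - 2) + u4 := ⟨g - (c^2 + c - 2), by ring⟩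
  obtain ⟨u5, rfl⟩ : ∃ u5, h = (2 - c^2) + u5 := ⟨h - (2 - c^2), by ring⟩
  rw [show (-(c^2 + c - 2) + u0) + (c^2 + c - 2) = u0 by ring] at h0
  rw [show (-(2 - c^2) + u1) + (2 - c^2) = u1 by ring] at h1
  rw [show ((2 - c^2) + u2) - (2 - c^2) = u2 by ring] at h2
  rw [show ((2 - c^2) + u2) - (2 - c^2) = u2 by ring] at hi
  rw [show (-(c^2 + c - 2) + u3) + (c^2 + c - 2) = u3 by ring] at h3
  rw [show ((c^2 + c - 2) + u4) - (c^2 + c - 2) = u4 by ring] at h4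
  rw [show ((2 - c^2) + u5) - (2 - c^2) = u5 by ring] at h5
  refine le_of_le_of_eq (lc_core_2m c1 c2 e1 e2 htr h0 h1 h2 h3 h4 h5 hi) ?_
  linear_combination (-((2/7)*u5 + (-2/7)*u4 + (-26/7)*u3 + (6/7)*u3*u4 + (44/7)*u2 + (-3/7)*u2*u5 + (-16/7)*u1 + (3/7)*u1*u5 + (3/7)*u1*u2 + (-54/7)*u0 + (6/7)*u0*u4 + (-6/7)*u0*u3 + (34/7)*c + (2/7)*c*u5 + (-11/7)*c*u4 + (-3/7)*c*u3 + (3/7)*c*u3*u4 + (16/7)*c*u2 + (-3/7)*c*u2*u5 + (40/7)*c*u1 + (3/7)*c*u1*u5 + (3/7)*c*u1*u2 + (53/7)*c*u0 + (3/7)*c*u0*u4 + (-3/7)*c*u0*u3 + (15/7)*c^2 + (3/7)*c^2*u5 + (-9/7)*c^2*u4 + (9/7)*c^2*u3 + (3/7)*c^2*u2 + (-3/7)*c^2*u1 + (9/7)*c^2*u0 + (-1)*c^3 + (3/7)*c^3*u5 + (-3/7)*c^3*u4 + (3/7)*c^3*u3 + (3/7)*c^3*u2 + (-3/7)*c^3*u1 + (3/7)*c^3*u0 + (-15/7)*c^4 + (-6/7)*c^5)) * hc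

private lemma lc_core_3p {c u0 u1 u2 u3 u4 u5 t : ℝ}
    (c1 : (3117449/2500000) ≤ c) (c2 : c ≤ (12469797/10000000)) (e1 : (777479/500000) ≤ c ^ 2) (e2 : c ^ 2 ≤ (1554959/1000000))
    (htr : t ≤ (119/5000))
    (h0 : |u0| ≤ t) (h1 : |u1| ≤ t) (h2 : |u2| ≤ t) (h3 : |u3| ≤ t) (h4 : |u4| ≤ t) (h5 : |u5| ≤ t)
    (hi : u3 = t) :
    0 ≤ (4 + 3*c) * u3 +
      ((-4) + (-1)*c + 2*c^2) * u4 +
      (3*c + 3*c^2) * (u3 * u5) +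
      ((-4) + 4*c^2) * (u3 * u4) +
      ((-1) + (-4)*c + (-1)*c^2) * (u2 * u5) +
      (2 + 5*c + 4*c^2) * (u2 * u4) +
      (7 + (-2)*c + (-5)*c^2) * (u1 * u5) +
      (12 + (-3)*c + (-3)*c^2) * (u1 * u4) +
      ((-4) + 5*c + 4*c^2) * (u1 * u3) +
      (1) * (u1 * (u3 * u5)) +
      (5) * (u1 * (u3 * u4)) +
      (13 + (-2)*c + (-5)*c^2) * (u1 * u2) +
      (3 + (-2)*c + (-1)*c^2) * (u1 * (u2 * u5)) +
      ((-1)) * (u1 * (u2 * u4)) +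
      (10 + (-1)*c + (-4)*c^2) * u0 +
      (4 + c + (-4)*c^2) * (u0 * u5) +
      ((-2) + 4*c^2) * (u0 * u4) +
      ((-6) + 2*c^2) * (u0 * u3) +
      ((-1)) * (u0 * (u3 * u5)) +
      (1 + (-2)*c + (-1)*c^2) * (u0 * (u3 * u4)) +
      (24 + (-3)*c + (-9)*c^2) * (u0 * u2) +
      (5) * (u0 * (u2 * u5)) +
      ((-5)) * (u0 * (u2 * u4)) := by
  have h := lc_final c1 c2 e1 e2 htr h0 h1 h2 h3 h4 h5 (4) (3) (0)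
    [(-4, -1, 2, [4]), (0, 3, 3, [3, 5]), (-4, 0, 4, [3, 4]), (-1, -4, -1, [2, 5]), (2, 5, 4, [2, 4]), (7, -2, -5, [1, 5]), (12, -3, -3, [1, 4]), (-4, 5, 4, [1, 3]), (1, 0, 0, [1, 3, 5]), (5, 0, 0, [1, 3, 4]), (13, -2, -5, [1, 2]), (3, -2, -1, [1, 2, 5]), (-1, 0, 0, [1, 2, 4]), (10, -1, -4, [0]), (4, 1, -4, [0, 5]), (-2, 0, 4, [0, 4]), (-6, 0, 2, [0, 3]), (-1, 0, 0, [0, 3, 5]), (1, -2, -1, [0, 3, 4]), (24, -3, -9, [0, 2]), (5, 0, 0, [0, 2, 5]), (-5, 0, 0, [0, 2, 4])]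
    (by decide +kernel) (by decide +kernel)
  simp only [lcv, List.map_cons, List.map_nil, List.prod_cons, List.prod_nil, mul_one, add_zero,
    Matrix.cons_val] at h
  push_cast at h
  rw [← hi] at h
  linarith only [h]

private lemma lc_facet_3p {c a b d e g h t : ℝ} (hc : c ^ 3 + c ^ 2 - 2 * c - 1 = 0)
    (c1 : (3117449/2500000) ≤ c) (c2 : c ≤ (12469797/10000000)) (e1 : (777479/500000) ≤ c ^ 2) (e2 : c ^ 2 ≤ (1554959/1000000))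
    (htr : t ≤ (119/5000))
    (h0 : |a + (c^2 + c - 2)| ≤ t)
    (h1 : |b + (2 - c^2)| ≤ t)
    (h2 : |d - (2 - c^2)| ≤ t)
    (h3 : |e + (c^2 + c - 2)| ≤ t)
    (h4 : |g - (c^2 + c - 2)| ≤ t)
    (h5 : |h - (2 - c^2)| ≤ t)
    (hi : e + (c^2 + c - 2) = t) :
    0 ≤ 2 * (((-1)*b) * (d + 1) * (g + h + 1) - ((c^2 + 2*c)/7) * (1 + d*h*b + g*a*e - g*b - d*a - h*e)) +
      2 * ((1 + b) * (d + 1 + e) * (2*g + h + 2) - ((c^2 + 2*c)/7) * (1 + d*h*b + g*a*e - g*b - d*a - h*e)) +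
      2 * ((2 + (-2)*a + (-1)*b) * ((-1)*d + 1) * ((-1)*g + h + 1) - ((c^2 + 2*c)/7) * (1 + d*h*b + g*a*e - g*b - d*a - h*e)) +
      1 * ((2 + (-1)*a + (-1)*b) * (d + (-1)*e) * (g + (-1)*h) - ((c^2 + 2*c)/7) * (1 + d*h*b + g*a*e - g*b - d*a - h*e)) := by
  have ht0 : 0 ≤ t := (abs_nonneg _).trans h0
  obtain ⟨u0, rfl⟩ : ∃ u0, a = -(c^2 + c - 2) + u0 := ⟨a + (c^2 + c - 2), by ring⟩
  obtain ⟨u1, rfl⟩ : ∃ u1, b = -(2 - c^2) + u1 := ⟨b + (2 - c^2), by ring⟩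
  obtain ⟨u2, rfl⟩ : ∃ u2, d = (2 - c^2) + u2 := ⟨d - (2 - c^2), by ring⟩
  obtain ⟨u3, rfl⟩ : ∃ u3, e = -(c^2 + c - 2) + u3 := ⟨e + (c^2 + c - 2), by ring⟩
  obtain ⟨u4, rfl⟩ : ∃ u4, g = (c^2 + c - 2) + u4 := ⟨g - (c^2 + c - 2), by ring⟩
  obtain ⟨u5, rfl⟩ : ∃ u5, h = (2 - c^2) + u5 := ⟨h - (2 - c^2), by ring⟩
  rw [show (-(c^2 + c - 2) + u0) + (c^2 + c - 2) = u0 by ring] at h0
  rw [show (-(2 - c^2) + u1) + (2 - c^2) = u1 by ring] at h1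
  rw [show ((2 - c^2) + u2) - (2 - c^2) = u2 by ring] at h2
  rw [show (-(c^2 + c - 2) + u3) + (c^2 + c - 2) = u3 by ring] at h3
  rw [show (-(c^2 + c - 2) + u3) + (c^2 + c - 2) = u3 by ring] at hi
  rw [show ((c^2 + c - 2) + u4) - (c^2 + c - 2) = u4 by ring] at h4
  rw [show ((2 - c^2) + u5) - (2 - c^2) = u5 by ring] at h5
  refine le_of_le_of_eq (lc_core_3p c1 c2 e1 e2 htr h0 h1 h2 h3 h4 h5 hi) ?_
  linear_combination (-((-12) + (-2)*u5 + 4*u4 + (-4)*u3 + 2*u3*u4 + 4*u2 + (-1)*u2*u5 + (-4)*u1 + u1*u5 + u1*u2 + (-10)*u0 + 2*u0*u4 + (-2)*u0*u3 + 6*c + (-4)*c*u5 + (-7)*c*u4 + c*u3 + c*u3*u4 + 2*c*u2 + (-1)*c*u2*u5 + 4*c*u1 + c*u1*u5 + c*u1*u2 + 7*c*u0 + c*u0*u4 + (-1)*c*u0*u3 + 9*c^2 + c^2*u5 + (-3)*c^2*u4 + 3*c^2*u3 + c^2*u2 + (-1)*c^2*u1 + 3*c^2*u0 + (-1)*c^3 + c^3*u5 + (-1)*c^3*u4 + c^3*u3 + c^3*u2 + (-1)*c^3*u1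 + c^3*u0 + (-5)*c^4 + (-2)*c^5)) * hc

private lemma lc_core_3m {c u0 u1 u2 u3 u4 u5 t : ℝ}
    (c1 : (3117449/2500000) ≤ c) (c2 : c ≤ (12469797/10000000)) (e1 : (777479/500000) ≤ c ^ 2) (e2 : c ^ 2 ≤ (1554959/1000000))
    (htr : t ≤ (119/5000))
    (h0 : |u0| ≤ t) (h1 : |u1| ≤ t) (h2 : |u2| ≤ t) (h3 : |u3| ≤ t) (h4 : |u4| ≤ t) (h5 : |u5| ≤ t)
    (hi : -u3 = t) :
    0 ≤ ((-3)*c + (-2)*c^2) * u3 +
      ((-2) + c) * u4 +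
      (c + c^2) * (u3 * u5) +
      ((-2)) * (u3 * u4) +
      (1 + 2*c + c^2) * (u2 * u5) +
      ((-1)*c) * (u2 * u4) +
      (1 + (-2)*c + (-1)*c^2) * (u1 * u5) +
      (4 + c + (-1)*c^2) * (u1 * u4) +
      (2 + c) * (u1 * u3) +
      (1) * (u1 * (u3 * u5)) +
      (1) * (u1 * (u3 * u4)) +
      ((-3) + c^2) * (u1 * u2) +
      ((-1) + (-2)*c + (-1)*c^2) * (u1 * (u2 * u5)) +
      (1) * (u1 * (u2 * u4)) +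
      ((-8) + 3*c + 4*c^2) * u0 +
      ((-1)*c) * (u0 * u5) +
      (6 + (-2)*c^2) * (u0 * u4) +
      (1) * (u0 * (u3 * u5)) +
      (1 + (-2)*c + (-1)*c^2) * (u0 * (u3 * u4)) +
      ((-4) + 3*c + 3*c^2) * (u0 * u2) +
      ((-1)) * (u0 * (u2 * u5)) +
      (1) * (u0 * (u2 * u4)) := by
  have h := lc_final c1 c2 e1 e2 htr h0 h1 h2 h3 h4 h5 (0) (3) (2)
    [(-2, 1, 0, [4]), (0, 1, 1, [3, 5]), (-2, 0, 0, [3, 4]), (1, 2, 1, [2, 5]), (0, -1, 0, [2, 4]), (1, -2, -1, [1, 5]), (4, 1, -1, [1, 4]), (2, 1, 0, [1, 3]), (1, 0, 0, [1, 3, 5]), (1, 0, 0, [1, 3, 4]), (-3, 0, 1, [1, 2]), (-1, -2, -1, [1, 2, 5]), (1, 0, 0, [1, 2, 4]), (-8, 3, 4, [0]), (0, -1, 0, [0, 5]), (6, 0, -2, [0, 4]), (1, 0, 0, [0, 3, 5]), (1, -2, -1, [0, 3, 4]), (-4, 3, 3, [0, 2]), (-1, 0, 0, [0, 2, 5]), (1, 0, 0, [0, 2, 4])]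
    (by decide +kernel) (by decide +kernel)
  simp only [lcv, List.map_cons, List.map_nil, List.prod_cons, List.prod_nil, mul_one, add_zero,
    Matrix.cons_val] at h
  push_cast at h
  rw [← hi] at h
  linarith only [h]

private lemma lc_facet_3m {c a b d e g h t : ℝ} (hc : c ^ 3 + c ^ 2 - 2 * c - 1 = 0)
    (c1 : (3117449/2500000) ≤ c) (c2 : c ≤ (12469797/10000000)) (e1 : (777479/500000) ≤ c ^ 2) (e2 : c ^ 2 ≤ (1554959/1000000))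
    (htr : t ≤ (119/5000))
    (h0 : |a + (c^2 + c - 2)| ≤ t)
    (h1 : |b + (2 - c^2)| ≤ t)
    (h2 : |d - (2 - c^2)| ≤ t)
    (h3 : |e + (c^2 + c - 2)| ≤ t)
    (h4 : |g - (c^2 + c - 2)| ≤ t)
    (h5 : |h - (2 - c^2)| ≤ t)
    (hi : -(e + (c^2 + c - 2)) = t) :
    0 ≤ 4 * ((1) * ((-1)*e) * (g + 1) - ((c^2 + 2*c)/7) * (1 + d*h*b + g*a*e - g*b - d*a - h*e)) +
      1 * (((-1)*a + (-1)*b) * ((-1)*d + (-1)*e) * (g + h + 2) - ((c^2 + 2*c)/7) * (1 + d*h*b + g*a*e - g*b - d*a - h*e)) +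
      2 * ((1 + (-1)*a + (-1)*b) * (d) * (h + 1) - ((c^2 + 2*c)/7) * (1 + d*h*b + g*a*e - g*b - d*a - h*e)) := by
  have ht0 : 0 ≤ t := (abs_nonneg _).trans h0
  obtain ⟨u0, rfl⟩ : ∃ u0, a = -(c^2 + c - 2) + u0 := ⟨a + (c^2 + c - 2), by ring⟩
  obtain ⟨u1, rfl⟩ : ∃ u1, b = -(2 - c^2) + u1 := ⟨b + (2 - c^2), by ring⟩
  obtain ⟨u2, rfl⟩ : ∃ u2, d = (2 - c^2) + u2 := ⟨d - (2 - c^2), by ring⟩
  obtain ⟨u3, rfl⟩ : ∃ u3, e = -(c^2 + c - 2) + u3 := ⟨e + (c^2 + c - 2), by ring⟩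
  obtain ⟨u4, rfl⟩ : ∃ u4, g = (c^2 + c - 2) + u4 := ⟨g - (c^2 + c - 2), by ring⟩
  obtain ⟨u5, rfl⟩ : ∃ u5, h = (2 - c^2) + u5 := ⟨h - (2 - c^2), by ring⟩
  rw [show (-(c^2 + c - 2) + u0) + (c^2 + c - 2) = u0 by ring] at h0
  rw [show (-(2 - c^2) + u1) + (2 - c^2) = u1 by ring] at h1
  rw [show ((2 - c^2) + u2) - (2 - c^2) = u2 by ring] at h2
  rw [show (-(c^2 + c - 2) + u3) + (c^2 + c - 2) = u3 by ring] at h3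
  rw [show (-(c^2 + c - 2) + u3) + (c^2 + c - 2) = u3 by ring] at hi
  rw [show ((c^2 + c - 2) + u4) - (c^2 + c - 2) = u4 by ring] at h4
  rw [show ((2 - c^2) + u5) - (2 - c^2) = u5 by ring] at h5
  refine le_of_le_of_eq (lc_core_3m c1 c2 e1 e2 htr h0 h1 h2 h3 h4 h5 hi) ?_
  linear_combination (-((-20) + (-4)*u5 + 6*u4 + (-4)*u3 + 2*u3*u4 + (-6)*u2 + (-1)*u2*u5 + 4*u1 + u1*u5 + u1*u2 + (-4)*u0 + 2*u0*u4 + (-2)*u0*u3 + (-6)*c + (-4)*c*u5 + c*u4 + (-1)*c*u3 + c*u3*u4 + (-4)*c*u2 + (-1)*c*u2*u5 + 2*c*u1 + c*u1*u5 + c*u1*u2 + (-3)*c*u0 + c*u0*u4 + (-1)*c*u0*u3 + 21*c^2 + c^2*u5 + (-3)*c^2*u4 + 3*c^2*u3 + c^2*u2 + (-1)*c^2*u1 + 3*c^2*u0 + 7*c^3 + c^3*u5 + (-1)*c^3*u4 + c^3*u3 + c^3*u2 + (-1)*c^3*u1 + c^3*u0 + (-5)*c^4 + (-2)*c^5)) * hc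

private lemma lc_core_4p {c u0 u1 u2 u3 u4 u5 t : ℝ}
    (c1 : (3117449/2500000) ≤ c) (c2 : c ≤ (12469797/10000000)) (e1 : (777479/500000) ≤ c ^ 2) (e2 : c ^ 2 ≤ (1554959/1000000))
    (htr : t ≤ (119/5000))
    (h0 : |u0| ≤ t) (h1 : |u1| ≤ t) (h2 : |u2| ≤ t) (h3 : |u3| ≤ t) (h4 : |u4| ≤ t) (h5 : |u5| ≤ t)
    (hi : u4 = t) :
    0 ≤ (3*c + 2*c^2) * u4 +
      ((-8) + 3*c + 4*c^2) * u3 +
      ((-4) + 3*c + 3*c^2) * (u3 * u5) +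
      (3 + (-1)*c^2) * (u2 * u5) +
      (2 + c) * (u2 * u4) +
      ((-1) + (-2)*c + (-1)*c^2) * (u1 * u5) +
      (c + c^2) * (u1 * u4) +
      (c) * (u1 * u3) +
      (1) * (u1 * (u3 * u5)) +
      (1) * (u1 * (u3 * u4)) +
      (1 + (-2)*c + (-1)*c^2) * (u1 * u2) +
      ((-1) + (-2)*c + (-1)*c^2) * (u1 * (u2 * u5)) +
      ((-1)) * (u1 * (u2 * u4)) +
      (2 + (-1)*c) * u0 +
      (c) * (u0 * u5) +
      ((-2)) * (u0 * u4) +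
      ((-6) + 2*c^2) * (u0 * u3) +
      ((-1)) * (u0 * (u3 * u5)) +
      (1 + (-2)*c + (-1)*c^2) * (u0 * (u3 * u4)) +
      (4 + c + (-1)*c^2) * (u0 * u2) +
      (1) * (u0 * (u2 * u5)) +
      ((-1)) * (u0 * (u2 * u4)) := by
  have h := lc_final c1 c2 e1 e2 htr h0 h1 h2 h3 h4 h5 (0) (3) (2)
    [(-8, 3, 4, [3]), (-4, 3, 3, [3, 5]), (3, 0, -1, [2, 5]), (2, 1, 0, [2, 4]), (-1, -2, -1, [1, 5]), (0, 1, 1, [1, 4]), (0, 1, 0, [1, 3]), (1, 0, 0, [1, 3, 5]), (1, 0, 0, [1, 3, 4]), (1, -2, -1, [1, 2]), (-1, -2, -1, [1, 2, 5]), (-1, 0, 0, [1, 2, 4]), (2, -1, 0, [0]), (0, 1, 0, [0, 5]), (-2, 0, 0, [0, 4]), (-6, 0, 2, [0, 3]), (-1, 0, 0, [0, 3, 5]), (1, -2, -1, [0, 3, 4]), (4, 1, -1, [0, 2]), (1, 0, 0, [0, 2, 5]), (-1, 0, 0, [0, 2, 4])]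
    (by decide +kernel) (by decide +kernel)
  simp only [lcv, List.map_cons, List.map_nil, List.prod_cons, List.prod_nil, mul_one, add_zero,
    Matrix.cons_val] at h
  push_cast at h
  rw [← hi] at h
  linarith only [h]

private lemma lc_facet_4p {c a b d e g h t : ℝ} (hc : c ^ 3 + c ^ 2 - 2 * c - 1 = 0)
    (c1 : (3117449/2500000) ≤ c) (c2 : c ≤ (12469797/10000000)) (e1 : (777479/500000) ≤ c ^ 2) (e2 : c ^ 2 ≤ (1554959/1000000))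
    (htr : t ≤ (119/5000))
    (h0 : |a + (c^2 + c - 2)| ≤ t)
    (h1 : |b + (2 - c^2)| ≤ t)
    (h2 : |d - (2 - c^2)| ≤ t)
    (h3 : |e + (c^2 + c - 2)| ≤ t)
    (h4 : |g - (c^2 + c - 2)| ≤ t)
    (h5 : |h - (2 - c^2)| ≤ t)
    (hi : g - (c^2 + c - 2) = t) :
    0 ≤ 4 * ((1 + (-1)*a) * (1) * (g) - ((c^2 + 2*c)/7) * (1 + d*h*b + g*a*e - g*b - d*a - h*e)) +
      2 * ((1 + (-1)*b) * (d + 1 + (-1)*e) * (h) - ((c^2 + 2*c)/7) * (1 + d*h*b + g*a*e - g*b - d*a - h*e)) +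
      1 * ((2 + (-1)*a + (-1)*b) * (d + (-1)*e) * (g + (-1)*h) - ((c^2 + 2*c)/7) * (1 + d*h*b + g*a*e - g*b - d*a - h*e)) := by
  have ht0 : 0 ≤ t := (abs_nonneg _).trans h0
  obtain ⟨u0, rfl⟩ : ∃ u0, a = -(c^2 + c - 2) + u0 := ⟨a + (c^2 + c - 2), by ring⟩
  obtain ⟨u1, rfl⟩ : ∃ u1, b = -(2 - c^2) + u1 := ⟨b + (2 - c^2), by ring⟩
  obtain ⟨u2, rfl⟩ : ∃ u2, d = (2 - c^2) + u2 := ⟨d - (2 - c^2), by ring⟩
  obtain ⟨u3, rfl⟩ : ∃ u3, e = -(c^2 + c - 2) + u3 := ⟨e + (c^2 + c - 2), by ring⟩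
  obtain ⟨u4, rfl⟩ : ∃ u4, g = (c^2 + c - 2) + u4 := ⟨g - (c^2 + c - 2), by ring⟩
  obtain ⟨u5, rfl⟩ : ∃ u5, h = (2 - c^2) + u5 := ⟨h - (2 - c^2), by ring⟩
  rw [show (-(c^2 + c - 2) + u0) + (c^2 + c - 2) = u0 by ring] at h0
  rw [show (-(2 - c^2) + u1) + (2 - c^2) = u1 by ring] at h1
  rw [show ((2 - c^2) + u2) - (2 - c^2) = u2 by ring] at h2
  rw [show (-(c^2 + c - 2) + u3) + (c^2 + c - 2) = u3 by ring] at h3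
  rw [show ((c^2 + c - 2) + u4) - (c^2 + c - 2) = u4 by ring] at h4
  rw [show ((c^2 + c - 2) + u4) - (c^2 + c - 2) = u4 by ring] at hi
  rw [show ((2 - c^2) + u5) - (2 - c^2) = u5 by ring] at h5
  refine le_of_le_of_eq (lc_core_4p c1 c2 e1 e2 htr h0 h1 h2 h3 h4 h5 hi) ?_
  linear_combination (-((-20) + (-6)*u5 + 4*u4 + (-4)*u3 + 2*u3*u4 + (-4)*u2 + (-1)*u2*u5 + 4*u1 + u1*u5 + u1*u2 + (-6)*u0 + 2*u0*u4 + (-2)*u0*u3 + (-6)*c + (-4)*c*u5 + c*u4 + (-3)*c*u3 + c*u3*u4 + (-2)*c*u2 + (-1)*c*u2*u5 + 4*c*u1 + c*u1*u5 + c*u1*u2 + (-1)*c*u0 + c*u0*u4 + (-1)*c*u0*u3 + 21*c^2 + c^2*u5 + (-3)*c^2*u4 + 3*c^2*u3 + c^2*u2 + (-1)*c^2*u1 + 3*c^2*u0 + 7*c^3 + c^3*u5 + (-1)*c^3*u4 + c^3*u3 + c^3*u2 + (-1)*c^3*u1 + c^3*u0 + (-5)*c^4 + (-2)*c^5)) * hc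

private lemma lc_core_4m {c u0 u1 u2 u3 u4 u5 t : ℝ}
    (c1 : (3117449/2500000) ≤ c) (c2 : c ≤ (12469797/10000000)) (e1 : (777479/500000) ≤ c ^ 2) (e2 : c ^ 2 ≤ (1554959/1000000))
    (htr : t ≤ (119/5000))
    (h0 : |u0| ≤ t) (h1 : |u1| ≤ t) (h2 : |u2| ≤ t) (h3 : |u3| ≤ t) (h4 : |u4| ≤ t) (h5 : |u5| ≤ t)
    (hi : -u4 = t) :
    0 ≤ ((-4) + (-3)*c) * u4 +
      (10 + (-1)*c + (-4)*c^2) * u3 +
      (24 + (-3)*c + (-9)*c^2) * (u3 * u5) +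
      (6 + (-2)*c^2) * (u3 * u4) +
      ((-13) + 2*c + 5*c^2) * (u2 * u5) +
      ((-4) + 5*c + 4*c^2) * (u2 * u4) +
      (1 + 4*c + c^2) * (u1 * u5) +
      (3*c + 3*c^2) * (u1 * u4) +
      ((-4) + (-1)*c + 4*c^2) * (u1 * u3) +
      ((-5)) * (u1 * (u3 * u5)) +
      ((-1)) * (u1 * (u3 * u4)) +
      (7 + (-2)*c + (-5)*c^2) * (u1 * u2) +
      (3 + (-2)*c + (-1)*c^2) * (u1 * (u2 * u5)) +
      ((-1)) * (u1 * (u2 * u4)) +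
      (4 + c + (-2)*c^2) * u0 +
      ((-2) + (-5)*c + (-4)*c^2) * (u0 * u5) +
      ((-4) + 4*c^2) * (u0 * u4) +
      (2 + (-4)*c^2) * (u0 * u3) +
      (5) * (u0 * (u3 * u5)) +
      (1 + (-2)*c + (-1)*c^2) * (u0 * (u3 * u4)) +
      (12 + (-3)*c + (-3)*c^2) * (u0 * u2) +
      ((-1)) * (u0 * (u2 * u5)) +
      ((-5)) * (u0 * (u2 * u4)) := by
  have h := lc_final c1 c2 e1 e2 htr h0 h1 h2 h3 h4 h5 (4) (3) (0)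
    [(10, -1, -4, [3]), (24, -3, -9, [3, 5]), (6, 0, -2, [3, 4]), (-13, 2, 5, [2, 5]), (-4, 5, 4, [2, 4]), (1, 4, 1, [1, 5]), (0, 3, 3, [1, 4]), (-4, -1, 4, [1, 3]), (-5, 0, 0, [1, 3, 5]), (-1, 0, 0, [1, 3, 4]), (7, -2, -5, [1, 2]), (3, -2, -1, [1, 2, 5]), (-1, 0, 0, [1, 2, 4]), (4, 1, -2, [0]), (-2, -5, -4, [0, 5]), (-4, 0, 4, [0, 4]), (2, 0, -4, [0, 3]), (5, 0, 0, [0, 3, 5]), (1, -2, -1, [0, 3, 4]), (12, -3, -3, [0, 2]), (-1, 0, 0, [0, 2, 5]), (-5, 0, 0, [0, 2, 4])]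
    (by decide +kernel) (by decide +kernel)
  simp only [lcv, List.map_cons, List.map_nil, List.prod_cons, List.prod_nil, mul_one, add_zero,
    Matrix.cons_val] at h
  push_cast at h
  rw [← hi] at h
  linarith only [h]

private lemma lc_facet_4m {c a b d e g h t : ℝ} (hc : c ^ 3 + c ^ 2 - 2 * c - 1 = 0)
    (c1 : (3117449/2500000) ≤ c) (c2 : c ≤ (12469797/10000000)) (e1 : (777479/500000) ≤ c ^ 2) (e2 : c ^ 2 ≤ (1554959/1000000))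
    (htr : t ≤ (119/5000))
    (h0 : |a + (c^2 + c - 2)| ≤ t)
    (h1 : |b + (2 - c^2)| ≤ t)
    (h2 : |d - (2 - c^2)| ≤ t)
    (h3 : |e + (c^2 + c - 2)| ≤ t)
    (h4 : |g - (c^2 + c - 2)| ≤ t)
    (h5 : |h - (2 - c^2)| ≤ t)
    (hi : -(g - (c^2 + c - 2)) = t) :
    0 ≤ 1 * (((-1)*a + b) * (d + 2 + (-1)*e) * (g + h) - ((c^2 + 2*c)/7) * (1 + d*h*b + g*a*e - g*b - d*a - h*e)) +
      2 * ((1 + a + (-1)*b) * (d + 2 + (-2)*e) * ((-1)*h + 1) - ((c^2 + 2*c)/7) * (1 + d*h*b + g*a*e - g*b - d*a - h*e)) +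
      2 * ((1 + (-1)*a + (-1)*b) * (d) * (h + 1) - ((c^2 + 2*c)/7) * (1 + d*h*b + g*a*e - g*b - d*a - h*e)) +
      2 * ((2 + (-2)*a + (-1)*b) * ((-1)*d + 1) * ((-1)*g + h + 1) - ((c^2 + 2*c)/7) * (1 + d*h*b + g*a*e - g*b - d*a - h*e)) := by
  have ht0 : 0 ≤ t := (abs_nonneg _).trans h0
  obtain ⟨u0, rfl⟩ : ∃ u0, a = -(c^2 + c - 2) + u0 := ⟨a + (c^2 + c - 2), by ring⟩
  obtain ⟨u1, rfl⟩ : ∃ u1, b = -(2 - c^2) + u1 := ⟨b + (2 - c^2), by ring⟩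
  obtain ⟨u2, rfl⟩ : ∃ u2, d = (2 - c^2) + u2 := ⟨d - (2 - c^2), by ring⟩
  obtain ⟨u3, rfl⟩ : ∃ u3, e = -(c^2 + c - 2) + u3 := ⟨e + (c^2 + c - 2), by ring⟩
  obtain ⟨u4, rfl⟩ : ∃ u4, g = (c^2 + c - 2) + u4 := ⟨g - (c^2 + c - 2), by ring⟩
  obtain ⟨u5, rfl⟩ : ∃ u5, h = (2 - c^2) + u5 := ⟨h - (2 - c^2), by ring⟩
  rw [show (-(c^2 + c - 2) + u0) + (c^2 + c - 2) = u0 by ring] at h0
  rw [show (-(2 - c^2) + u1) + (2 - c^2) = u1 by ring] at h1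
  rw [show ((2 - c^2) + u2) - (2 - c^2) = u2 by ring] at h2
  rw [show (-(c^2 + c - 2) + u3) + (c^2 + c - 2) = u3 by ring] at h3
  rw [show ((c^2 + c - 2) + u4) - (c^2 + c - 2) = u4 by ring] at h4
  rw [show ((c^2 + c - 2) + u4) - (c^2 + c - 2) = u4 by ring] at hi
  rw [show ((2 - c^2) + u5) - (2 - c^2) = u5 by ring] at h5
  refine le_of_le_of_eq (lc_core_4m c1 c2 e1 e2 htr h0 h1 h2 h3 h4 h5 hi) ?_
  linear_combination (-((-12) + 4*u5 + 4*u4 + (-10)*u3 + 2*u3*u4 + 4*u2 + (-1)*u2*u5 + 2*u1 + u1*u5 + u1*u2 + (-4)*u0 + 2*u0*u4 + (-2)*u0*u3 + 6*c + 2*c*u5 + (-1)*c*u4 + 7*c*u3 + c*u3*u4 + (-4)*c*u2 + (-1)*c*u2*u5 + 4*c*u1 + c*u1*u5 + c*u1*u2 + 7*c*u0 + c*u0*u4 + (-1)*c*u0*u3 + 9*c^2 + c^2*u5 + (-3)*c^2*u4 + 3*c^2*u3 + c^2*u2 + (-1)*c^2*u1 + 3*c^2*u0 + (-1)*c^3 + c^3*u5 + (-1)*c^3*u4 + c^3*u3 + c^3*u2 + (-1)*c^3*u1 + c^3*u0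 + (-5)*c^4 + (-2)*c^5)) * hc

private lemma lc_core_5p {c u0 u1 u2 u3 u4 u5 t : ℝ}
    (c1 : (3117449/2500000) ≤ c) (c2 : c ≤ (12469797/10000000)) (e1 : (777479/500000) ≤ c ^ 2) (e2 : c ^ 2 ≤ (1554959/1000000))
    (htr : t ≤ (119/5000))
    (h0 : |u0| ≤ t) (h1 : |u1| ≤ t) (h2 : |u2| ≤ t) (h3 : |u3| ≤ t) (h4 : |u4| ≤ t) (h5 : |u5| ≤ t)
    (hi : u5 = t) :
    0 ≤ ((10/7) + c + (1/7)*c^2) * u5 +
      ((4/7) + (-3/7)*c + (-3/7)*c^2) * u4 +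
      ((-39/7) + (10/7)*c + (17/7)*c^2) * u3 +
      ((-3) + (2/7)*c + (8/7)*c^2) * (u3 * u5) +
      ((2/7) + (1/7)*c) * (u3 * u4) +
      ((31/7) + (-1)*c + (-13/7)*c^2) * u2 +
      ((20/7) + (1/7)*c + (-6/7)*c^2) * (u2 * u5) +
      ((-3/7) + (-1/7)*c^2) * u1 +
      ((-6/7) + (-8/7)*c + (-1/7)*c^2) * (u1 * u5) +
      ((2/7)*c + (1/7)*c^2) * (u1 * u4) +
      (2 + (-1)*c^2) * (u1 * u3) +
      (1) * (u1 * (u3 * u5)) +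
      ((-13/7) + (-1/7)*c + (6/7)*c^2) * (u1 * u2) +
      ((-1) + (-2/7)*c + (-1/7)*c^2) * (u1 * (u2 * u5)) +
      ((-4/7) + (3/7)*c + (3/7)*c^2) * u0 +
      ((2/7) + (1/7)*c) * (u0 * u4) +
      ((-2/7) + (-1/7)*c) * (u0 * u3) +
      ((-2/7)*c + (-1/7)*c^2) * (u0 * (u3 * u4)) +
      ((2/7)*c + (1/7)*c^2) * (u0 * u2) := by
  have h := lc_final c1 c2 e1 e2 htr h0 h1 h2 h3 h4 h5 (10) (7) (1)
    [(4, -3, -3, [4]), (-39, 10, 17, [3]), (-21, 2, 8, [3, 5]), (2, 1, 0, [3, 4]), (31, -7, -13, [2]), (20, 1, -6, [2, 5]), (-3, 0, -1, [1]), (-6, -8, -1, [1, 5]), (0, 2, 1, [1, 4]), (14, 0, -7, [1, 3]), (7, 0, 0, [1, 3, 5]), (-13, -1, 6, [1, 2]), (-7, -2, -1, [1, 2, 5]), (-4, 3, 3, [0]), (2, 1, 0, [0, 4]), (-2, -1, 0, [0, 3]), (0, -2, -1, [0, 3, 4]), (0, 2, 1, [0, 2])]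
    (by decide +kernel) (by decide +kernel)
  simp only [lcv, List.map_cons, List.map_nil, List.prod_cons, List.prod_nil, mul_one, add_zero,
    Matrix.cons_val] at h
  push_cast at h
  rw [← hi] at h
  linarith only [h]

private lemma lc_facet_5p {c a b d e g h t : ℝ} (hc : c ^ 3 + c ^ 2 - 2 * c - 1 = 0)
    (c1 : (3117449/2500000) ≤ c) (c2 : c ≤ (12469797/10000000)) (e1 : (777479/500000) ≤ c ^ 2) (e2 : c ^ 2 ≤ (1554959/1000000))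
    (htr : t ≤ (119/5000))
    (h0 : |a + (c^2 + c - 2)| ≤ t)
    (h1 : |b + (2 - c^2)| ≤ t)
    (h2 : |d - (2 - c^2)| ≤ t)
    (h3 : |e + (c^2 + c - 2)| ≤ t)
    (h4 : |g - (c^2 + c - 2)| ≤ t)
    (h5 : |h - (2 - c^2)| ≤ t)
    (hi : h - (2 - c^2) = t) :
    0 ≤ 1 * ((1 + (-1)*b) * (d + 1 + (-1)*e) * (h) - ((c^2 + 2*c)/7) * (1 + d*h*b + g*a*e - g*b - d*a - h*e)) := by
  have ht0 : 0 ≤ t := (abs_nonneg _).trans h0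
  obtain ⟨u0, rfl⟩ : ∃ u0, a = -(c^2 + c - 2) + u0 := ⟨a + (c^2 + c - 2), by ring⟩
  obtain ⟨u1, rfl⟩ : ∃ u1, b = -(2 - c^2) + u1 := ⟨b + (2 - c^2), by ring⟩
  obtain ⟨u2, rfl⟩ : ∃ u2, d = (2 - c^2) + u2 := ⟨d - (2 - c^2), by ring⟩
  obtain ⟨u3, rfl⟩ : ∃ u3, e = -(c^2 + c - 2) + u3 := ⟨e + (c^2 + c - 2), by ring⟩
  obtain ⟨u4, rfl⟩ : ∃ u4, g = (c^2 + c - 2) + u4 := ⟨g - (c^2 + c - 2), by ring⟩
  obtain ⟨u5, rfl⟩ : ∃ u5, h = (2 - c^2) + u5 := ⟨h - (2 - c^2), by ring⟩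
  rw [show (-(c^2 + c - 2) + u0) + (c^2 + c - 2) = u0 by ring] at h0
  rw [show (-(2 - c^2) + u1) + (2 - c^2) = u1 by ring] at h1
  rw [show ((2 - c^2) + u2) - (2 - c^2) = u2 by ring] at h2
  rw [show (-(c^2 + c - 2) + u3) + (c^2 + c - 2) = u3 by ring] at h3
  rw [show ((c^2 + c - 2) + u4) - (c^2 + c - 2) = u4 by ring] at h4
  rw [show ((2 - c^2) + u5) - (2 - c^2) = u5 by ring] at h5
  rw [show ((2 - c^2) + u5) - (2 - c^2) = u5 by ring] at hi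
  refine le_of_le_of_eq (lc_core_5p c1 c2 e1 e2 htr h0 h1 h2 h3 h4 h5 hi) ?_
  linear_combination (-((-6) + (-11/7)*u5 + (4/7)*u4 + (3/7)*u3 + (2/7)*u3*u4 + (-11/7)*u2 + (-1/7)*u2*u5 + (11/7)*u1 + (1/7)*u1*u5 + (1/7)*u1*u2 + (-4/7)*u0 + (2/7)*u0*u4 + (-2/7)*u0*u3 + (-12/7)*c + (-4/7)*c*u5 + (1/7)*c*u4 + (-8/7)*c*u3 + (1/7)*c*u3*u4 + (3/7)*c*u2 + (-1/7)*c*u2*u5 + (4/7)*c*u1 + (1/7)*c*u1*u5 + (1/7)*c*u1*u2 + (-1/7)*c*u0 + (1/7)*c*u0*u4 + (-1/7)*c*u0*u3 + (26/7)*c^2 + (1/7)*c^2*u5 + (-3/7)*c^2*u4 + (3/7)*c^2*u3 + (1/7)*c^2*u2 + (-1/7)*c^2*u1 + (3/7)*c^2*u0 + c^3 + (1/7)*c^3*u5 + (-1/7)*c^3*u4 + (1/7)*c^3*u3 + (1/7)*c^3*u2 + (-1/7)*c^3*u1 + (1/7)*c^3*u0 + (-5/7)*c^4 + (-2/7)*c^5)) * hc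

private lemma lc_core_5m {c u0 u1 u2 u3 u4 u5 t : ℝ}
    (c1 : (3117449/2500000) ≤ c) (c2 : c ≤ (12469797/10000000)) (e1 : (777479/500000) ≤ c ^ 2) (e2 : c ^ 2 ≤ (1554959/1000000))
    (htr : t ≤ (119/5000))
    (h0 : |u0| ≤ t) (h1 : |u1| ≤ t) (h2 : |u2| ≤ t) (h3 : |u3| ≤ t) (h4 : |u4| ≤ t) (h5 : |u5| ≤ t)
    (hi : -u5 = t) :
    0 ≤ ((-12/7) + (-2)*c + (-4/7)*c^2) * u5 +
      ((-30/7) + (5/7)*c + (12/7)*c^2) * u4 +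
      ((86/7) + (-19/7)*c + (-40/7)*c^2) * u3 +
      (24 + (-29/7)*c + (-67/7)*c^2) * (u3 * u5) +
      ((34/7) + (-4/7)*c + (-2)*c^2) * (u3 * u4) +
      ((-54/7) + 2*c + (24/7)*c^2) * u2 +
      ((-101/7) + (24/7)*c + (45/7)*c^2) * (u2 * u5) +
      ((-4) + c + 2*c^2) * (u2 * u4) +
      ((-2/7) + (4/7)*c^2) * u1 +
      ((17/7) + (32/7)*c + (11/7)*c^2) * (u1 * u5) +
      (2 + (13/7)*c + (3/7)*c^2) * (u1 * u4) +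
      ((-4) + (-1)*c + 4*c^2) * (u1 * u3) +
      ((-5)) * (u1 * (u3 * u5)) +
      ((-1)) * (u1 * (u3 * u4)) +
      ((17/7) + (4/7)*c + (-17/7)*c^2) * (u1 * u2) +
      (3 + (-6/7)*c + (-3/7)*c^2) * (u1 * (u2 * u5)) +
      (1) * (u1 * (u2 * u4)) +
      ((2/7) + (9/7)*c + (2/7)*c^2) * u0 +
      ((-2) + (-5)*c + (-2)*c^2) * (u0 * u5) +
      ((-8/7) + (-4/7)*c) * (u0 * u4) +
      ((22/7) + (4/7)*c + (-4)*c^2) * (u0 * u3) +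
      (5) * (u0 * (u3 * u5)) +
      (1 + (-6/7)*c + (-3/7)*c^2) * (u0 * (u3 * u4)) +
      ((-2) + (-1/7)*c + (17/7)*c^2) * (u0 * u2) +
      ((-3)) * (u0 * (u2 * u5)) +
      ((-1)) * (u0 * (u2 * u4)) := by
  have h := lc_final c1 c2 e1 e2 htr h0 h1 h2 h3 h4 h5 (12) (14) (4)
    [(-30, 5, 12, [4]), (86, -19, -40, [3]), (168, -29, -67, [3, 5]), (34, -4, -14, [3, 4]), (-54, 14, 24, [2]), (-101, 24, 45, [2, 5]), (-28, 7, 14, [2, 4]), (-2, 0, 4, [1]), (17, 32, 11, [1, 5]), (14, 13, 3, [1, 4]), (-28, -7, 28, [1, 3]), (-35, 0, 0, [1, 3, 5]), (-7, 0, 0, [1, 3, 4]), (17, 4, -17, [1, 2]), (21, -6, -3, [1, 2, 5]), (7, 0, 0, [1, 2, 4]), (2, 9, 2, [0]), (-14, -35, -14, [0, 5]), (-8, -4, 0, [0, 4]), (22, 4, -28, [0, 3]), (35, 0, 0, [0, 3, 5]), (7, -6, -3, [0, 3, 4]), (-14, -1, 17, [0, 2]), (-21, 0, 0, [0, 2, 5]), (-7, 0, 0,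 [0, 2, 4])]
    (by decide +kernel) (by decide +kernel)
  simp only [lcv, List.map_cons, List.map_nil, List.prod_cons, List.prod_nil, mul_one, add_zero,
    Matrix.cons_val] at h
  push_cast at h
  rw [← hi] at h
  linarith only [h]

private lemma lc_facet_5m {c a b d e g h t : ℝ} (hc : c ^ 3 + c ^ 2 - 2 * c - 1 = 0)
    (c1 : (3117449/2500000) ≤ c) (c2 : c ≤ (12469797/10000000)) (e1 : (777479/500000) ≤ c ^ 2) (e2 : c ^ 2 ≤ (1554959/1000000))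
    (htr : t ≤ (119/5000))
    (h0 : |a + (c^2 + c - 2)| ≤ t)
    (h1 : |b + (2 - c^2)| ≤ t)
    (h2 : |d - (2 - c^2)| ≤ t)
    (h3 : |e + (c^2 + c - 2)| ≤ t)
    (h4 : |g - (c^2 + c - 2)| ≤ t)
    (h5 : |h - (2 - c^2)| ≤ t)
    (hi : -(h - (2 - c^2)) = t) :
    0 ≤ 1 * (((-1)*a + b) * (d + 2 + (-1)*e) * (g + h) - ((c^2 + 2*c)/7) * (1 + d*h*b + g*a*e - g*b - d*a - h*e)) +
      2 * ((1 + a + (-1)*b) * (d + 2 + (-2)*e) * ((-1)*h + 1) - ((c^2 + 2*c)/7) * (1 + d*h*b + g*a*e - g*b - d*a - h*e)) := by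
  have ht0 : 0 ≤ t := (abs_nonneg _).trans h0
  obtain ⟨u0, rfl⟩ : ∃ u0, a = -(c^2 + c - 2) + u0 := ⟨a + (c^2 + c - 2), by ring⟩
  obtain ⟨u1, rfl⟩ : ∃ u1, b = -(2 - c^2) + u1 := ⟨b + (2 - c^2), by ring⟩
  obtain ⟨u2, rfl⟩ : ∃ u2, d = (2 - c^2) + u2 := ⟨d - (2 - c^2), by ring⟩
  obtain ⟨u3, rfl⟩ : ∃ u3, e = -(c^2 + c - 2) + u3 := ⟨e + (c^2 + c - 2), by ring⟩
  obtain ⟨u4, rfl⟩ : ∃ u4, g = (c^2 + c - 2) + u4 := ⟨g - (c^2 + c - 2), by ring⟩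
  obtain ⟨u5, rfl⟩ : ∃ u5, h = (2 - c^2) + u5 := ⟨h - (2 - c^2), by ring⟩
  rw [show (-(c^2 + c - 2) + u0) + (c^2 + c - 2) = u0 by ring] at h0
  rw [show (-(2 - c^2) + u1) + (2 - c^2) = u1 by ring] at h1
  rw [show ((2 - c^2) + u2) - (2 - c^2) = u2 by ring] at h2
  rw [show (-(c^2 + c - 2) + u3) + (c^2 + c - 2) = u3 by ring] at h3
  rw [show ((c^2 + c - 2) + u4) - (c^2 + c - 2) = u4 by ring] at h4
  rw [show ((2 - c^2) + u5) - (2 - c^2) = u5 by ring] at h5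
  rw [show ((2 - c^2) + u5) - (2 - c^2) = u5 by ring] at hi
  refine le_of_le_of_eq (lc_core_5m c1 c2 e1 e2 htr h0 h1 h2 h3 h4 h5 hi) ?_
  linear_combination (-((44/7)*u5 + (26/7)*u4 + (-54/7)*u3 + (6/7)*u3*u4 + (16/7)*u2 + (-3/7)*u2*u5 + (-2/7)*u1 + (3/7)*u1*u5 + (3/7)*u1*u2 + (2/7)*u0 + (6/7)*u0*u4 + (-6/7)*u0*u3 + (34/7)*c + (16/7)*c*u5 + (3/7)*c*u4 + (53/7)*c*u3 + (3/7)*c*u3*u4 + (-40/7)*c*u2 + (-3/7)*c*u2*u5 + (-2/7)*c*u1 + (3/7)*c*u1*u5 + (3/7)*c*u1*u2 + (11/7)*c*u0 + (3/7)*c*u0*u4 + (-3/7)*c*u0*u3 + (15/7)*c^2 + (3/7)*c^2*u5 + (-9/7)*c^2*u4 + (9/7)*c^2*u3 + (3/7)*c^2*u2 + (-3/7)*c^2*u1 + (9/7)*c^2*u0 + (-1)*c^3 + (3/7)*c^3*u5 + (-3/7)*c^3*u4 + (3/7)*c^3*u3 + (3/7)*c^3*u2 + (-3/7)*c^3*u1 + (3/7)*c^3*u0 + (-15/7)*c^4 + (-6/7)*c^5)) * hc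

private lemma lc_prec : ∃ c : ℝ, c ^ 3 + c ^ 2 - 2 * c - 1 = 0 ∧ 3117449 / 2500000 ≤ c ∧
    c ≤ 12469797 / 10000000 ∧ kap = (c ^ 2 + 2 * c) / 7 := by
  have h1 := Upper.c_lo
  have h2 := Upper.c_hi
  have h3 := Upper.c_root
  have h0 := Upper.kap_eq
  generalize Upper.c = c at *
  refine ⟨c, h3, ?_, ?_, by linarith⟩
  · by_contra h
    rw [not_le] at h
    have h4 : (12469796 / 10000000 - c) * (c ^ 2 + (1 + 12469796 / 10000000) * c +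
        ((12469796 / 10000000) ^ 2 + 12469796 / 10000000 - 2)) > 0 := by
      apply mul_pos (by linarith)
      nlinarith
    nlinarith
  · by_contra h
    rw [not_le] at h
    have h4 : (c - 12469797 / 10000000) * (c ^ 2 + (1 + 12469797 / 10000000) * c +
        ((12469797 / 10000000) ^ 2 + 12469797 / 10000000 - 2)) > 0 := by
      apply mul_pos (by linarith)
      nlinarith
    nlinarith

/-- Near the extremal matrix one of the twelve boxes has volume at least `kap * |det V|`. -/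
theorem local_ineq {V : Matrix (Fin 3) (Fin 3) ℝ} (hd : ∀ i, V i i = 1)
    (l10 : -52 / 64 ≤ V 1 0) (u10 : V 1 0 ≤ -50 / 64)
    (l20 : -30 / 64 ≤ V 2 0) (u20 : V 2 0 ≤ -28 / 64)
    (l01 : 28 / 64 ≤ V 0 1) (u01 : V 0 1 ≤ 30 / 64)
    (l21 : -52 / 64 ≤ V 2 1) (u21 : V 2 1 ≤ -50 / 64)
    (l02 : 50 / 64 ≤ V 0 2) (u02 : V 0 2 ≤ 52 / 64)
    (l12 : 28 / 64 ≤ V 1 2) (u12 : V 1 2 ≤ 30 / 64) :
    ∃ k : Fin 12, kap * |V.det| ≤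
      crd V (lw k 0) 0 * crd V (lw k 1) 1 * crd V (lw k 2) 2 := by
  have hdet : V.det = 1 + V 0 1 * V 1 2 * V 2 0 + V 0 2 * V 1 0 * V 2 1 - V 0 2 * V 2 0 -
      V 0 1 * V 1 0 - V 1 2 * V 2 1 := by
    rw [Matrix.det_fin_three, hd 0, hd 1, hd 2]; ring
  have hpos : 0 ≤ V.det := by
    rw [hdet]
    have q1 : 0 ≤ V 0 2 * (V 1 0 * V 2 1) :=
      mul_nonneg (by linarith) (mul_nonneg_of_nonpos_of_nonpos (by linarith) (by linarith))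
    have q2 : 0 ≤ V 0 2 * -V 2 0 := mul_nonneg (by linarith) (by linarith)
    have q3 : 0 ≤ V 0 1 * -V 1 0 := mul_nonneg (by linarith) (by linarith)
    have q4 : 0 ≤ V 1 2 * -V 2 1 := mul_nonneg (by linarith) (by linarith)
    have q5 : V 0 1 * V 1 2 * -V 2 0 ≤ 1 := by
      have r1 : V 0 1 * V 1 2 ≤ 1 := by nlinarith
      have r2 : 0 ≤ V 0 1 * V 1 2 := mul_nonneg (by linarith) (by linarith)
      have r3 := mul_le_mul r1 (show -V 2 0 ≤ 1 by linarith) (by linarith) zero_le_one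
      linarith
    nlinarith
  rw [abs_of_nonneg hpos, hdet]
  obtain ⟨c, hc, c1, c2, hkap⟩ := lc_prec
  rw [hkap]
  have e1 : 777479 / 500000 ≤ c ^ 2 := by nlinarith only [c1]
  have e2 : c ^ 2 ≤ 1554959 / 1000000 := by nlinarith only [c1, c2]
  have r0 : |V 1 0 + (c^2 + c - 2)| ≤ 119 / 5000 :=
    abs_le.mpr ⟨by linarith only [l10, c1, c2, e1, e2], by linarith only [u10, c1, c2, e1, e2]⟩
  have r1 : |V 2 0 + (2 - c^2)| ≤ 119 / 5000 :=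
    abs_le.mpr ⟨by linarith only [l20, c1, c2, e1, e2], by linarith only [u20, c1, c2, e1, e2]⟩
  have r2 : |V 0 1 - (2 - c^2)| ≤ 119 / 5000 :=
    abs_le.mpr ⟨by linarith only [l01, c1, c2, e1, e2], by linarith only [u01, c1, c2, e1, e2]⟩
  have r3 : |V 2 1 + (c^2 + c - 2)| ≤ 119 / 5000 :=
    abs_le.mpr ⟨by linarith only [l21, c1, c2, e1, e2], by linarith only [u21, c1, c2, e1, e2]⟩
  have r4 : |V 0 2 - (c^2 + c - 2)| ≤ 119 / 5000 :=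
    abs_le.mpr ⟨by linarith only [l02, c1, c2, e1, e2], by linarith only [u02, c1, c2, e1, e2]⟩
  have r5 : |V 1 2 - (2 - c^2)| ≤ 119 / 5000 :=
    abs_le.mpr ⟨by linarith only [l12, c1, c2, e1, e2], by linarith only [u12, c1, c2, e1, e2]⟩
  by_contra hcon
  rw [not_exists] at hcon
  simp only [not_le] at hcon
  have f0 := hcon 0
  rw [show crd V (lw 0 0) 0 = ((-1)*V 1 0) by
      simp [crd, lw, Fin.sum_univ_three, hd]; try ring,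
    show crd V (lw 0 1) 1 = (1 + (-1)*V 2 1) by
      simp [crd, lw, Fin.sum_univ_three, hd]; try ring,
    show crd V (lw 0 2) 2 = (1) by
      simp [crd, lw, Fin.sum_univ_three, hd]; try ring] at f0
  have f1 := hcon 1
  rw [show crd V (lw 1 0) 0 = (1) by
      simp [crd, lw, Fin.sum_univ_three, hd]; try ring,
    show crd V (lw 1 1) 1 = ((-1)*V 2 1) by
      simp [crd, lw, Fin.sum_univ_three, hd]; try ring,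
    show crd V (lw 1 2) 2 = (V 0 2 + 1) by
      simp [crd, lw, Fin.sum_univ_three, hd]; try ring] at f1
  have f2 := hcon 2
  rw [show crd V (lw 2 0) 0 = (1 + (-1)*V 1 0) by
      simp [crd, lw, Fin.sum_univ_three, hd]; try ring,
    show crd V (lw 2 1) 1 = (1) by
      simp [crd, lw, Fin.sum_univ_three, hd]; try ring,
    show crd V (lw 2 2) 2 = (V 0 2) by
      simp [crd, lw, Fin.sum_univ_three, hd]; try ring] at f2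
  have f3 := hcon 3
  rw [show crd V (lw 3 0) 0 = ((-1)*V 1 0 + V 2 0) by
      simp [crd, lw, Fin.sum_univ_three, hd]; try ring,
    show crd V (lw 3 1) 1 = (V 0 1 + 2 + (-1)*V 2 1) by
      simp [crd, lw, Fin.sum_univ_three, hd]; try ring,
    show crd V (lw 3 2) 2 = (V 0 2 + V 1 2) by
      simp [crd, lw, Fin.sum_univ_three, hd]; try ring] at f3
  have f4 := hcon 4
  rw [show crd V (lw 4 0) 0 = ((-1)*V 2 0) by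
      simp [crd, lw, Fin.sum_univ_three, hd]; try ring,
    show crd V (lw 4 1) 1 = (V 0 1 + 1) by
      simp [crd, lw, Fin.sum_univ_three, hd]; try ring,
    show crd V (lw 4 2) 2 = (V 0 2 + V 1 2 + 1) by
      simp [crd, lw, Fin.sum_univ_three, hd]; try ring] at f4
  have f5 := hcon 5
  rw [show crd V (lw 5 0) 0 = (1 + V 1 0 + (-1)*V 2 0) by
      simp [crd, lw, Fin.sum_univ_three, hd]; try ring,
    show crd V (lw 5 1) 1 = (V 0 1 + 2 + (-2)*V 2 1) by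
      simp [crd, lw, Fin.sum_univ_three, hd]; try ring,
    show crd V (lw 5 2) 2 = ((-1)*V 1 2 + 1) by
      simp [crd, lw, Fin.sum_univ_three, hd]; try ring] at f5
  have f6 := hcon 6
  rw [show crd V (lw 6 0) 0 = (1 + (-1)*V 2 0) by
      simp [crd, lw, Fin.sum_univ_three, hd]; try ring,
    show crd V (lw 6 1) 1 = (V 0 1 + 1 + (-1)*V 2 1) by
      simp [crd, lw, Fin.sum_univ_three, hd]; try ring,
    show crd V (lw 6 2) 2 = (V 1 2) by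
      simp [crd, lw, Fin.sum_univ_three, hd]; try ring] at f6
  have f7 := hcon 7
  rw [show crd V (lw 7 0) 0 = (1 + V 2 0) by
      simp [crd, lw, Fin.sum_univ_three, hd]; try ring,
    show crd V (lw 7 1) 1 = (V 0 1 + 1 + V 2 1) by
      simp [crd, lw, Fin.sum_univ_three, hd]; try ring,
    show crd V (lw 7 2) 2 = (2*V 0 2 + V 1 2 + 2) by
      simp [crd, lw, Fin.sum_univ_three, hd]; try ring] at f7
  have f8 := hcon 8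
  rw [show crd V (lw 8 0) 0 = ((-1)*V 1 0 + (-1)*V 2 0) by
      simp [crd, lw, Fin.sum_univ_three, hd]; try ring,
    show crd V (lw 8 1) 1 = ((-1)*V 0 1 + (-1)*V 2 1) by
      simp [crd, lw, Fin.sum_univ_three, hd]; try ring,
    show crd V (lw 8 2) 2 = (V 0 2 + V 1 2 + 2) by
      simp [crd, lw, Fin.sum_univ_three, hd]; try ring] at f8
  have f9 := hcon 9
  rw [show crd V (lw 9 0) 0 = (1 + (-1)*V 1 0 + (-1)*V 2 0) by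
      simp [crd, lw, Fin.sum_univ_three, hd]; try ring,
    show crd V (lw 9 1) 1 = (V 0 1) by
      simp [crd, lw, Fin.sum_univ_three, hd]; try ring,
    show crd V (lw 9 2) 2 = (V 1 2 + 1) by
      simp [crd, lw, Fin.sum_univ_three, hd]; try ring] at f9
  have f10 := hcon 10
  rw [show crd V (lw 10 0) 0 = (2 + (-2)*V 1 0 + (-1)*V 2 0) by
      simp [crd, lw, Fin.sum_univ_three, hd]; try ring,
    show crd V (lw 10 1) 1 = ((-1)*V 0 1 + 1) by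
      simp [crd, lw, Fin.sum_univ_three, hd]; try ring,
    show crd V (lw 10 2) 2 = ((-1)*V 0 2 + V 1 2 + 1) by
      simp [crd, lw, Fin.sum_univ_three, hd]; try ring] at f10
  have f11 := hcon 11
  rw [show crd V (lw 11 0) 0 = (2 + (-1)*V 1 0 + (-1)*V 2 0) by
      simp [crd, lw, Fin.sum_univ_three, hd]; try ring,
    show crd V (lw 11 1) 1 = (V 0 1 + (-1)*V 2 1) by
      simp [crd, lw, Fin.sum_univ_three, hd]; try ring,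
    show crd V (lw 11 2) 2 = (V 0 2 + (-1)*V 1 2) by
      simp [crd, lw, Fin.sum_univ_three, hd]; try ring] at f11
  clear hcon
  obtain ⟨i, hi⟩ := Finite.exists_max (fun i : Fin 6 => |(![V 1 0 + (c^2 + c - 2),
    V 2 0 + (2 - c^2), V 0 1 - (2 - c^2), V 2 1 + (c^2 + c - 2), V 0 2 - (c^2 + c - 2),
    V 1 2 - (2 - c^2)] : Fin 6 → ℝ) i|)
  have h0 := hi 0
  have h1 := hi 1
  have h2 := hi 2
  have h3 := hi 3
  have h4 := hi 4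
  have h5 := hi 5
  clear hi
  fin_cases i
  · change |V 1 0 + (c^2 + c - 2)| ≤ |V 1 0 + (c^2 + c - 2)| at h0
    change |V 2 0 + (2 - c^2)| ≤ |V 1 0 + (c^2 + c - 2)| at h1
    change |V 0 1 - (2 - c^2)| ≤ |V 1 0 + (c^2 + c - 2)| at h2
    change |V 2 1 + (c^2 + c - 2)| ≤ |V 1 0 + (c^2 + c - 2)| at h3
    change |V 0 2 - (c^2 + c - 2)| ≤ |V 1 0 + (c^2 + c - 2)| at h4
    change |V 1 2 - (2 - c^2)| ≤ |V 1 0 + (c^2 + c - 2)| at h5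
    rcases abs_cases (V 1 0 + (c^2 + c - 2)) with ⟨ht, -⟩ | ⟨ht, -⟩
    · have := lc_facet_0p hc c1 c2 e1 e2 r0 h0 h1 h2 h3 h4 h5 ht.symm
      linarith only [this, f5, f6, f7, f8]
    · have := lc_facet_0m hc c1 c2 e1 e2 r0 h0 h1 h2 h3 h4 h5 ht.symm
      linarith only [this, f0, f3, f4]
  · change |V 1 0 + (c^2 + c - 2)| ≤ |V 2 0 + (2 - c^2)| at h0
    change |V 2 0 + (2 - c^2)| ≤ |V 2 0 + (2 - c^2)| at h1
    change |V 0 1 - (2 - c^2)| ≤ |V 2 0 + (2 - c^2)| at h2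
    change |V 2 1 + (c^2 + c - 2)| ≤ |V 2 0 + (2 - c^2)| at h3
    change |V 0 2 - (c^2 + c - 2)| ≤ |V 2 0 + (2 - c^2)| at h4
    change |V 1 2 - (2 - c^2)| ≤ |V 2 0 + (2 - c^2)| at h5
    rcases abs_cases (V 2 0 + (2 - c^2)) with ⟨ht, -⟩ | ⟨ht, -⟩
    · have := lc_facet_1p hc c1 c2 e1 e2 r1 h0 h1 h2 h3 h4 h5 ht.symm
      linarith only [this, f7, f8]
    · have := lc_facet_1m hc c1 c2 e1 e2 r1 h0 h1 h2 h3 h4 h5 ht.symm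
      linarith only [this, f4]
  · change |V 1 0 + (c^2 + c - 2)| ≤ |V 0 1 - (2 - c^2)| at h0
    change |V 2 0 + (2 - c^2)| ≤ |V 0 1 - (2 - c^2)| at h1
    change |V 0 1 - (2 - c^2)| ≤ |V 0 1 - (2 - c^2)| at h2
    change |V 2 1 + (c^2 + c - 2)| ≤ |V 0 1 - (2 - c^2)| at h3
    change |V 0 2 - (c^2 + c - 2)| ≤ |V 0 1 - (2 - c^2)| at h4
    change |V 1 2 - (2 - c^2)| ≤ |V 0 1 - (2 - c^2)| at h5
    rcases abs_cases (V 0 1 - (2 - c^2)) with ⟨ht, -⟩ | ⟨ht, -⟩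
    · have := lc_facet_2p hc c1 c2 e1 e2 r2 h0 h1 h2 h3 h4 h5 ht.symm
      linarith only [this, f9]
    · have := lc_facet_2m hc c1 c2 e1 e2 r2 h0 h1 h2 h3 h4 h5 ht.symm
      linarith only [this, f10, f11]
  · change |V 1 0 + (c^2 + c - 2)| ≤ |V 2 1 + (c^2 + c - 2)| at h0
    change |V 2 0 + (2 - c^2)| ≤ |V 2 1 + (c^2 + c - 2)| at h1
    change |V 0 1 - (2 - c^2)| ≤ |V 2 1 + (c^2 + c - 2)| at h2
    change |V 2 1 + (c^2 + c - 2)| ≤ |V 2 1 + (c^2 + c - 2)| at h3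
    change |V 0 2 - (c^2 + c - 2)| ≤ |V 2 1 + (c^2 + c - 2)| at h4
    change |V 1 2 - (2 - c^2)| ≤ |V 2 1 + (c^2 + c - 2)| at h5
    rcases abs_cases (V 2 1 + (c^2 + c - 2)) with ⟨ht, -⟩ | ⟨ht, -⟩
    · have := lc_facet_3p hc c1 c2 e1 e2 r3 h0 h1 h2 h3 h4 h5 ht.symm
      linarith only [this, f4, f7, f10, f11]
    · have := lc_facet_3m hc c1 c2 e1 e2 r3 h0 h1 h2 h3 h4 h5 ht.symm
      linarith only [this, f1, f8, f9]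
  · change |V 1 0 + (c^2 + c - 2)| ≤ |V 0 2 - (c^2 + c - 2)| at h0
    change |V 2 0 + (2 - c^2)| ≤ |V 0 2 - (c^2 + c - 2)| at h1
    change |V 0 1 - (2 - c^2)| ≤ |V 0 2 - (c^2 + c - 2)| at h2
    change |V 2 1 + (c^2 + c - 2)| ≤ |V 0 2 - (c^2 + c - 2)| at h3
    change |V 0 2 - (c^2 + c - 2)| ≤ |V 0 2 - (c^2 + c - 2)| at h4
    change |V 1 2 - (2 - c^2)| ≤ |V 0 2 - (c^2 + c - 2)| at h5
    rcases abs_cases (V 0 2 - (c^2 + c - 2)) with ⟨ht, -⟩ | ⟨ht, -⟩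
    · have := lc_facet_4p hc c1 c2 e1 e2 r4 h0 h1 h2 h3 h4 h5 ht.symm
      linarith only [this, f2, f6, f11]
    · have := lc_facet_4m hc c1 c2 e1 e2 r4 h0 h1 h2 h3 h4 h5 ht.symm
      linarith only [this, f3, f5, f9, f10]
  · change |V 1 0 + (c^2 + c - 2)| ≤ |V 1 2 - (2 - c^2)| at h0
    change |V 2 0 + (2 - c^2)| ≤ |V 1 2 - (2 - c^2)| at h1
    change |V 0 1 - (2 - c^2)| ≤ |V 1 2 - (2 - c^2)| at h2
    change |V 2 1 + (c^2 + c - 2)| ≤ |V 1 2 - (2 - c^2)| at h3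
    change |V 0 2 - (c^2 + c - 2)| ≤ |V 1 2 - (2 - c^2)| at h4
    change |V 1 2 - (2 - c^2)| ≤ |V 1 2 - (2 - c^2)| at h5
    rcases abs_cases (V 1 2 - (2 - c^2)) with ⟨ht, -⟩ | ⟨ht, -⟩
    · have := lc_facet_5p hc c1 c2 e1 e2 r5 h0 h1 h2 h3 h4 h5 ht.symm
      linarith only [this, f6]
    · have := lc_facet_5m hc c1 c2 e1 e2 r5 h0 h1 h2 h3 h4 h5 ht.symm
      linarith only [this, f3, f5]

end Pool.Agent.Lib.MP_ddd95a_nt
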