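import Pool.Agent.Lib.MP_ddd95a_nt.Defs

set_option autoImplicit false

/-!
# Upper bound for Mordell's constant in dimension three: the heptagonal lattice
-/

namespace Pool.Agent.Lib.MP_ddd95a_nt.Upper

open Pool.Agent.Lib.MP_ddd95a_nt

/-- value at `x` of the polynomial with coefficients `u` -/
noncomputable def e (x : ℝ) (u : Fin 3 → ℤ) : ℝ := u 0 + u 1 * x + u 2 * x ^ 2

/-- product modulo `x³ + x² - 2x - 1` -/
def mulv (v w : Fin 3 → ℤ) : Fin 3 → ℤ :=
  ![v 0 * w 0 + (v 1 * w 2 + v 2 * w 1) - v 2 * w 2,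
    v 0 * w 1 + v 1 * w 0 + 2 * (v 1 * w 2 + v 2 * w 1) - v 2 * w 2,
    v 0 * w 2 + v 1 * w 1 + v 2 * w 0 - (v 1 * w 2 + v 2 * w 1) + 3 * (v 2 * w 2)]

lemma e_mulv {x : ℝ} (hx : x ^ 3 + x ^ 2 - 2 * x - 1 = 0) (v w : Fin 3 → ℤ) :
    e x (mulv v w) = e x v * e x w := by
  simp only [e, mulv, Matrix.cons_val_zero, Matrix.cons_val_one, Matrix.cons_val_two,
    Matrix.head_cons, Matrix.tail_cons]
  push_cast
  linear_combination (-((v 1 : ℝ) * w 2 + v 2 * w 1) - (v 2 : ℝ) * w 2 * (x - 1)) * hx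

def one3 : Fin 3 → ℤ := ![1, 0, 0]

lemma e_one3 (x : ℝ) : e x one3 = 1 := by simp [e, one3]

/-- powers -/
def powv (v : Fin 3 → ℤ) : ℕ → (Fin 3 → ℤ)
  | 0 => one3
  | n + 1 => mulv v (powv v n)

lemma e_powv {x : ℝ} (hx : x ^ 3 + x ^ 2 - 2 * x - 1 = 0) (v : Fin 3 → ℤ) (n : ℕ) :
    e x (powv v n) = e x v ^ n := by
  induction n with
  | zero => simp [powv, e_one3]
  | succ n ih => rw [powv, e_mulv hx, ih, pow_succ]; ring

/-- `2 cos (2 π / 7)` -/
noncomputable def c : ℝ := 2 * Real.cos (2 * Real.pi / 7)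

lemma c_lt_two : c < 2 := by
  have h : Real.cos (2 * Real.pi / 7) < 1 := by
    have h1 : Real.cos (2 * Real.pi / 7) < Real.cos 0 := by
      apply Real.cos_lt_cos_of_nonneg_of_le_pi le_rfl
      · have := Real.pi_pos; linarith
      · have := Real.pi_pos; positivity
    rwa [Real.cos_zero] at h1
  rw [c]; linarith

lemma c_gt_one : 1 < c := by
  have h : 1 / 2 < Real.cos (2 * Real.pi / 7) := by
    rw [← Real.cos_pi_div_three]
    apply Real.cos_lt_cos_of_nonneg_of_le_pi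
    · have := Real.pi_pos; positivity
    · have := Real.pi_pos; linarith
    · have := Real.pi_pos; linarith
  rw [c]; linarith

lemma c_root : c ^ 3 + c ^ 2 - 2 * c - 1 = 0 := by
  -- cos (4θ) = cos (3θ) with θ = 2π/7
  set θ := 2 * Real.pi / 7 with hθ
  have h1 : Real.cos (4 * θ) = Real.cos (3 * θ) := by
    have : 4 * θ = 2 * Real.pi - 3 * θ := by rw [hθ]; ring
    rw [this, Real.cos_two_pi_sub]
  have h2 : Real.cos (4 * θ) = 2 * (2 * Real.cos θ ^ 2 - 1) ^ 2 - 1 := by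
    have : 4 * θ = 2 * (2 * θ) := by ring
    rw [this, Real.cos_two_mul, Real.cos_two_mul]
  have h3 : Real.cos (3 * θ) = 4 * Real.cos θ ^ 3 - 3 * Real.cos θ := Real.cos_three_mul θ
  rw [h2, h3] at h1
  have hc : Real.cos θ = c / 2 := by rw [c]; ring
  rw [hc] at h1
  have h4 : (c - 2) * (c ^ 3 + c ^ 2 - 2 * c - 1) = 0 := by
    linear_combination 2 * h1
  rcases mul_eq_zero.mp h4 with h | h
  · have := c_lt_two; linarith
  · exact h

lemma c_lo : 1.246 < c := by
  by_contra h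
  rw [not_lt] at h
  have h1 := c_gt_one
  have h2 := c_root
  have h3 : 0 < c ^ 2 + c * 1.246 + 1.246 ^ 2 + c + 1.246 - 2 := by nlinarith
  nlinarith [mul_nonneg (sub_nonneg.mpr h) h3.le]

lemma c_hi : c < 1.247 := by
  by_contra h
  rw [not_lt] at h
  have h1 := c_lt_two
  have h2 := c_root
  have h3 : 0 < c ^ 2 + c * 1.247 + 1.247 ^ 2 + c + 1.247 - 2 := by nlinarith
  nlinarith [mul_nonneg (sub_nonneg.mpr h) h3.le]

lemma kap_eq : 7 * kap = c * (2 + c) := by
  have h : Real.cos (Real.pi / 7) ^ 2 = (1 + Real.cos (2 * Real.pi / 7)) / 2 := by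
    have : 2 * Real.pi / 7 = 2 * (Real.pi / 7) := by ring
    rw [this, Real.cos_two_mul]; ring
  rw [kap, h, c]
  ring

/-- the three conjugates -/
noncomputable def rho : Fin 3 → ℝ := ![c, c ^ 2 - 2, 1 - c - c ^ 2]

lemma rho_root (i : Fin 3) : rho i ^ 3 + rho i ^ 2 - 2 * rho i - 1 = 0 := by
  have h := c_root
  fin_cases i
  · exact h
  · show (c ^ 2 - 2) ^ 3 + (c ^ 2 - 2) ^ 2 - 2 * (c ^ 2 - 2) - 1 = 0
    linear_combination (c ^ 3 - c ^ 2 - 2 * c + 1) * h
  · show (1 - c - c ^ 2) ^ 3 + (1 - c - c ^ 2) ^ 2 - 2 * (1 - c - c ^ 2) - 1 = 0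
    linear_combination (-(c ^ 3 + 2 * c ^ 2 - c - 1)) * h

lemma rho0 : rho 0 = c := rfl
lemma rho1 : rho 1 = c ^ 2 - 2 := rfl
lemma rho2 : rho 2 = 1 - c - c ^ 2 := rfl

lemma c4 : c ^ 4 = 3 * c ^ 2 - c - 1 := by
  have h := c_root
  linear_combination (c - 1) * h

/-- the units used in the descent -/
def al : Fin 3 → ℤ := ![1, -1, -1]
def be : Fin 3 → ℤ := ![-2, 1, 1]
def ga : Fin 3 → ℤ := ![-1, -1, 0]
def de : Fin 3 → ℤ := ![1, 0, -1]

lemma e_al (x : ℝ) : e x al = 1 - x - x ^ 2 := by simp [e, al]; ring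
lemma e_be (x : ℝ) : e x be = x ^ 2 + x - 2 := by simp [e, be]; ring
lemma e_ga (x : ℝ) : e x ga = -1 - x := by simp [e, ga]; ring
lemma e_de (x : ℝ) : e x de = 1 - x ^ 2 := by simp [e, de]; ring

lemma c_sq_lo : 1.552 < c ^ 2 := by have := c_lo; nlinarith
lemma c_sq_hi : c ^ 2 < 1.5551 := by have := c_hi; have := c_lo; nlinarith

lemma abs_al0 : |e (rho 0) al| = c ^ 2 + c - 1 := by
  rw [e_al, rho0, abs_of_neg]
  · ring
  · have := c_sq_lo; have := c_lo; linarith

lemma abs_al1 : |e (rho 1) al| = c := by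
  have h : e (rho 1) al = c := by rw [e_al, rho1]; linear_combination -c4
  rw [h, abs_of_pos]; have := c_lo; linarith

lemma abs_al2 : |e (rho 2) al| = 2 - c ^ 2 := by
  have h : e (rho 2) al = c ^ 2 - 2 := by
    rw [e_al, rho2]; linear_combination -c4 - 2 * c_root
  rw [h, abs_of_neg]
  · ring
  · have := c_sq_hi; linarith

lemma abs_be0 : |e (rho 0) be| = c ^ 2 + c - 2 := by
  rw [e_be, rho0, abs_of_pos]
  have := c_sq_lo; have := c_lo; linarith

lemma abs_be1 : |e (rho 1) be| = 1 + c := by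
  have h : e (rho 1) be = -c - 1 := by rw [e_be, rho1]; linear_combination c4
  rw [h, abs_of_neg]
  · ring
  · have := c_lo; linarith

lemma abs_be2 : |e (rho 2) be| = c ^ 2 - 1 := by
  have h : e (rho 2) be = 1 - c ^ 2 := by
    rw [e_be, rho2]; linear_combination c4 + 2 * c_root
  rw [h, abs_of_neg]
  · ring
  · have := c_sq_lo; linarith

lemma abs_ga0 : |e (rho 0) ga| = 1 + c := by
  rw [e_ga, rho0, abs_of_neg]
  · ring
  · have := c_lo; linarith

lemma abs_ga1 : |e (rho 1) ga| = c ^ 2 - 1 := by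
  rw [e_ga, rho1, abs_of_neg]
  · ring
  · have := c_sq_lo; linarith

lemma abs_ga2 : |e (rho 2) ga| = c ^ 2 + c - 2 := by
  rw [e_ga, rho2, abs_of_pos]
  · ring
  · have := c_sq_lo; have := c_lo; linarith

lemma abs_de0 : |e (rho 0) de| = c ^ 2 - 1 := by
  rw [e_de, rho0, abs_of_neg]
  · ring
  · have := c_sq_lo; linarith

lemma abs_de1 : |e (rho 1) de| = c ^ 2 + c - 2 := by
  have h : e (rho 1) de = c ^ 2 + c - 2 := by rw [e_de, rho1]; linear_combination -c4
  rw [h, abs_of_pos]; have := c_sq_lo; have := c_lo; linarith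

lemma abs_de2 : |e (rho 2) de| = 1 + c := by
  have h : e (rho 2) de = -1 - c := by
    rw [e_de, rho2]; linear_combination -c4 - 2 * c_root
  rw [h, abs_of_neg]
  · ring
  · have := c_lo; linarith

/-- absolute norm -/
noncomputable def nm (u : Fin 3 → ℤ) : ℝ := |e (rho 0) u| * |e (rho 1) u| * |e (rho 2) u|

lemma nm_mulv (v w : Fin 3 → ℤ) : nm (mulv v w) = nm v * nm w := by
  simp only [nm, e_mulv (rho_root _), abs_mul]
  ring

lemma nm_al : nm al = 1 := by
  rw [nm, abs_al0, abs_al1, abs_al2]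
  linear_combination (-c ^ 2 + 1) * c_root
lemma nm_be : nm be = 1 := by
  rw [nm, abs_be0, abs_be1, abs_be2]
  linear_combination (c ^ 2 + c - 1) * c_root
lemma nm_ga : nm ga = 1 := by
  rw [nm, abs_ga0, abs_ga1, abs_ga2]
  linear_combination (c ^ 2 + c - 1) * c_root
lemma nm_de : nm de = 1 := by
  rw [nm, abs_de0, abs_de1, abs_de2]
  linear_combination (c ^ 2 + c - 1) * c_root

/-- the units below a given size in the first two places -/
def S (t : Fin 3 → ℝ) : Set (Fin 3 → ℤ) :=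
  {u | nm u = 1 ∧ |e (rho 0) u| ≤ t 0 ∧ |e (rho 1) u| ≤ t 1}

lemma S_nonempty (t : Fin 3 → ℝ) (ht : ∀ i, 0 < t i) : (S t).Nonempty := by
  have hc1 := c_sq_lo
  have hc2 := c_sq_hi
  have hc3 := c_lo
  have hc4 := c_hi
  obtain ⟨n0, hn0⟩ := exists_pow_lt_of_lt_one (ht 0) (show c ^ 2 - 1 < 1 by linarith)
  obtain ⟨n1, hn1⟩ := exists_pow_lt_of_lt_one (ht 1) (show c ^ 2 + c - 2 < 1 by linarith)
  refine ⟨powv de (n0 + n1), ?_, ?_, ?_⟩
  · have h : ∀ n, nm (powv de n) = 1 := by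
      intro n
      induction n with
      | zero => simp [powv, nm, e_one3]
      | succ n ih => rw [powv, nm_mulv, ih, nm_de, mul_one]
    exact h _
  · rw [e_powv (rho_root 0), abs_pow, abs_de0]
    exact (pow_le_pow_of_le_one (by linarith) (by linarith) (Nat.le_add_right _ _)).trans hn0.le
  · rw [e_powv (rho_root 1), abs_pow, abs_de1]
    exact (pow_le_pow_of_le_one (by linarith) (by linarith) (Nat.le_add_left _ _)).trans hn1.le

lemma S_pos {t : Fin 3 → ℝ} {u : Fin 3 → ℤ} (hu : u ∈ S t) (i : Fin 3) :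
    0 < |e (rho i) u| := by
  have h : nm u = 1 := hu.1
  rw [nm] at h
  rw [abs_pos]
  intro h0
  fin_cases i
  · have h0' : e (rho 0) u = 0 := h0
    simp [h0'] at h
  · have h0' : e (rho 1) u = 0 := h0
    simp [h0'] at h
  · have h0' : e (rho 2) u = 0 := h0
    simp [h0'] at h

/-- a nearly minimal element -/
lemma exists_min (t : Fin 3 → ℝ) (ht : ∀ i, 0 < t i) :
    ∃ u ∈ S t, ∀ v ∈ S t, 0.81 * |e (rho 2) u| < |e (rho 2) v| := by
  by_contra hcon
  push Not at hcon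
  have hstep : ∀ n : ℕ, ∀ u ∈ S t, ∃ v ∈ S t, |e (rho 2) v| ≤ 0.81 ^ n * |e (rho 2) u| := by
    intro n
    induction n with
    | zero => intro u hu; exact ⟨u, hu, by simp⟩
    | succ n ih =>
      intro u hu
      obtain ⟨v, hv, hv'⟩ := ih u hu
      obtain ⟨w, hw, hw'⟩ := hcon v hv
      refine ⟨w, hw, hw'.trans ?_⟩
      rw [pow_succ]
      nlinarith
  obtain ⟨u, hu⟩ := S_nonempty t ht
  have hlow : ∀ v ∈ S t, 1 / (t 0 * t 1) ≤ |e (rho 2) v| := by
    intro v hv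
    have h0 := S_pos hv 0
    have h1 := S_pos hv 1
    have h2 := S_pos hv 2
    have hn : |e (rho 0) v| * |e (rho 1) v| * |e (rho 2) v| = 1 := hv.1
    rw [div_le_iff₀ (mul_pos (ht 0) (ht 1)), ← hn]
    have : |e (rho 0) v| * |e (rho 1) v| ≤ t 0 * t 1 :=
      mul_le_mul hv.2.1 hv.2.2 h1.le (ht 0).le
    nlinarith
  have hpos : 0 < 1 / (t 0 * t 1) := by have := ht 0; have := ht 1; positivity
  have h2 := S_pos hu 2
  obtain ⟨n, hn⟩ := exists_pow_lt_of_lt_one (show 0 < 1 / (t 0 * t 1) / |e (rho 2) u| by positivity)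
    (show (0.81 : ℝ) < 1 by norm_num)
  obtain ⟨v, hv, hv'⟩ := hstep n u hu
  have := hlow v hv
  rw [lt_div_iff₀ h2] at hn
  linarith

lemma core (t : Fin 3 → ℝ) (ht : ∀ i, 0 < t i)
    (hempty : ∀ u : Fin 3 → ℤ, (∀ i, |e (rho i) u| ≤ t i) → u = 0) :
    t 0 * t 1 * t 2 < c * (2 + c) := by
  have hc1 := c_sq_lo
  have hc2 := c_sq_hi
  have hc3 := c_lo
  have hc4 := c_hi
  have hr := c_root
  obtain ⟨u, hu, hmin⟩ := exists_min t ht
  have hx0 := S_pos hu 0
  have hx1 := S_pos hu 1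
  have hx2 := S_pos hu 2
  have hn : |e (rho 0) u| * |e (rho 1) u| * |e (rho 2) u| = 1 := hu.1
  have ht0 : |e (rho 0) u| ≤ t 0 := hu.2.1
  have ht1 : |e (rho 1) u| ≤ t 1 := hu.2.2
  -- third coordinate is large
  have ht2 : t 2 < |e (rho 2) u| := by
    by_contra h
    rw [not_lt] at h
    have h0 : u = 0 := by
      apply hempty
      intro i
      fin_cases i
      · exact ht0
      · exact ht1
      · exact h
    subst h0
    have : e (rho 0) 0 = 0 := by simp [e]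
    rw [this] at hx0
    simp at hx0
  -- moves leave `S`
  have hmove : ∀ v : Fin 3 → ℤ, nm v = 1 → |e (rho 2) v| ≤ 0.81 →
      |e (rho 0) v| * |e (rho 0) u| ≤ t 0 → |e (rho 1) v| * |e (rho 1) u| ≤ t 1 → False := by
    intro v hv hv2 h0 h1
    have hmem : mulv v u ∈ S t := by
      refine ⟨?_, ?_, ?_⟩
      · rw [nm_mulv, hv, one_mul]; exact hn
      · rw [e_mulv (rho_root 0), abs_mul]; exact h0
      · rw [e_mulv (rho_root 1), abs_mul]; exact h1
    have h3 := hmin _ hmem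
    rw [e_mulv (rho_root 2), abs_mul] at h3
    nlinarith
  have hb : t 1 < (1 + c) * |e (rho 1) u| := by
    by_contra h
    rw [not_lt] at h
    apply hmove be nm_be
    · rw [abs_be2]; linarith
    · rw [abs_be0]; nlinarith
    · rw [abs_be1]; exact h
  have hg : t 0 < (1 + c) * |e (rho 0) u| := by
    by_contra h
    rw [not_lt] at h
    apply hmove ga nm_ga
    · rw [abs_ga2]; linarith
    · rw [abs_ga0]; exact h
    · rw [abs_ga1]; nlinarith
  have ha : t 0 < (c ^ 2 + c - 1) * |e (rho 0) u| ∨ t 1 < c * |e (rho 1) u| := by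
    by_contra h
    rw [not_or, not_lt, not_lt] at h
    apply hmove al nm_al
    · rw [abs_al2]; linarith
    · rw [abs_al0]; exact h.1
    · rw [abs_al1]; exact h.2
  have p0 := ht 0
  have p1 := ht 1
  have p2 := ht 2
  have q0 : 0 ≤ (c ^ 2 + c - 1) * |e (rho 0) u| := mul_nonneg (by linarith) hx0.le
  have q1 : 0 ≤ (1 + c) * |e (rho 1) u| := mul_nonneg (by linarith) hx1.le
  have q2 := mul_nonneg q0 q1
  rcases ha with ha | ha
  · calc t 0 * t 1 * t 2
        < ((c ^ 2 + c - 1) * |e (rho 0) u|) * ((1 + c) * |e (rho 1) u|) * |e (rho 2) u| :=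
          mul_lt_mul'' (mul_lt_mul'' ha hb p0.le p1.le) ht2 (mul_nonneg p0.le p1.le) p2.le
      _ = (c ^ 2 + c - 1) * (1 + c) * (|e (rho 0) u| * |e (rho 1) u| * |e (rho 2) u|) := by ring
      _ = c * (2 + c) := by rw [hn]; linear_combination hr
  · calc t 0 * t 1 * t 2
        < ((1 + c) * |e (rho 0) u|) * (c * |e (rho 1) u|) * |e (rho 2) u| :=
          mul_lt_mul'' (mul_lt_mul'' hg ha p0.le p1.le) ht2 (mul_nonneg p0.le p1.le) p2.le
      _ = (1 + c) * c * (|e (rho 0) u| * |e (rho 1) u| * |e (rho 2) u|) := by ring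
      _ ≤ c * (2 + c) := by rw [hn]; nlinarith

/-- the matrix of the heptagonal lattice -/
noncomputable def Mat (r : ℝ) : Matrix (Fin 3) (Fin 3) ℝ :=
  !![-1 / r, -(rho 0) / r, -(rho 0) ^ 2 / r;
     1 / r, rho 1 / r, (rho 1) ^ 2 / r;
     1 / r, rho 2 / r, (rho 2) ^ 2 / r]

lemma det_Mat {r : ℝ} (hr : 0 < r) (hr3 : r ^ 3 = 7) : (Mat r).det = 1 := by
  have hr0 : r ≠ 0 := hr.ne'
  have hV : (rho 1 - rho 0) * (rho 2 - rho 0) * (rho 2 - rho 1) = -7 := by
    rw [rho0, rho1, rho2]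
    linear_combination ((-1) * c ^ 0 + (-9) * c ^ 1 + (1) * c ^ 2 + (2) * c ^ 3) * c_root
  rw [Mat, Matrix.det_fin_three]
  simp only [Matrix.of_apply, Matrix.cons_val', Matrix.cons_val_zero, Matrix.cons_val_one,
    Matrix.cons_val_two, Matrix.head_cons, Matrix.tail_cons, Matrix.empty_val',
    Matrix.cons_val_fin_one, Matrix.head_fin_const]
  field_simp
  rw [hr3]
  linear_combination -hV

theorem upper_bound {κ : ℝ} (h : IsAdmissible 3 κ) : κ < kap := by
  obtain ⟨_, h⟩ := h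
  set r : ℝ := (7 : ℝ) ^ ((1 : ℝ) / 3) with hrdef
  have hr : 0 < r := by positivity
  have hr3 : r ^ 3 = 7 := by
    rw [hrdef, ← Real.rpow_natCast, ← Real.rpow_mul (by norm_num)]
    norm_num
  obtain ⟨τ, hτ, hprod, hempty⟩ := h (Mat r) (det_Mat hr hr3)
  rw [Fin.prod_univ_three] at hprod
  have hcore := core (fun i => r * τ i) (fun i => mul_pos hr (hτ i)) (by
    intro u hu
    apply hempty
    intro i
    have hi := hu i
    have key : |∑ j, Mat r i j * (u j : ℝ)| = |e (rho i) u| / r := by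
      rw [← abs_of_pos hr, ← abs_div, abs_of_pos hr, Fin.sum_univ_three]
      fin_cases i
      · show |-1 / r * (u 0 : ℝ) + -(rho 0) / r * (u 1 : ℝ) + -(rho 0) ^ 2 / r * (u 2 : ℝ)| = _
        rw [← abs_neg]
        congr 1
        simp only [e]
        show _ = ((u 0 : ℝ) + u 1 * rho 0 + u 2 * rho 0 ^ 2) / r
        ring
      · show |1 / r * (u 0 : ℝ) + (rho 1) / r * (u 1 : ℝ) + (rho 1) ^ 2 / r * (u 2 : ℝ)| = _
        congr 1
        simp only [e]
        show _ = ((u 0 : ℝ) + u 1 * rho 1 + u 2 * rho 1 ^ 2) / r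
        ring
      · show |1 / r * (u 0 : ℝ) + (rho 2) / r * (u 1 : ℝ) + (rho 2) ^ 2 / r * (u 2 : ℝ)| = _
        congr 1
        simp only [e]
        show _ = ((u 0 : ℝ) + u 1 * rho 2 + u 2 * rho 2 ^ 2) / r
        ring
    rw [key, div_le_iff₀ hr]
    linarith)
  have h7 : 7 * κ < 7 * kap := by
    rw [kap_eq, ← hprod, ← hr3]
    calc r ^ 3 * (τ 0 * τ 1 * τ 2) = r * τ 0 * (r * τ 1) * (r * τ 2) := by ring
      _ < _ := hcore
  linarith

end Pool.Agent.Lib.MP_ddd95a_nt.Upper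

namespace Pool.Agent.Lib.MP_ddd95a_nt

/-- **Upper bound**: the heptagonal lattice shows that no `κ ≥ kap` is admissible. -/
theorem upper_bound_lt {κ : ℝ} (h : IsAdmissible 3 κ) : κ < kap := Upper.upper_bound h

/-- **Upper bound**: the heptagonal lattice shows that no `κ > kap` is admissible. -/
theorem upper_bound {κ : ℝ} (h : IsAdmissible 3 κ) : κ ≤ kap := (upper_bound_lt h).le

end Pool.Agent.Lib.MP_ddd95a_nt
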