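import Pool.Agent.Lib.MP_ddd95a_nt.Mg.G017
import Pool.Agent.Lib.MP_ddd95a_nt.Upper

/-!
# Soundness of the checker
-/

namespace Pool.Agent.Lib.MP_ddd95a_nt

open scoped BigOperators

lemma kap_lt : 1048576 * kap ≤ 606516 := by
  have h := Upper.kap_eq
  have hr := Upper.c_root
  have h1 := Upper.c_lo
  have h2 := Upper.c_hi
  set c := Upper.c with hc
  have hc : c ≤ 1.246981 := by
    by_contra hcon
    push Not at hcon
    have : 0 < c ^ 3 + c ^ 2 - 2 * c - 1 := by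
      have h3 : 1.246981 ^ 3 + 1.246981 ^ 2 - 2 * 1.246981 - (1 : ℝ) > 0 := by norm_num
      nlinarith [mul_pos (sub_pos.2 hcon) (sub_pos.2 hcon)]
    linarith
  nlinarith

section ctx

variable {V : Matrix (Fin 3) (Fin 3) ℝ} {ω1 ω2 ω3 : Fin 4 → ℝ}
  {l0 h0 l1 h1 l2 h2 l3 h3 l4 h4 l5 h5 : ℕ}

lemma good_of_box {T : Fin 3 → ℝ} (hV : Nrm V) (h0 : ∀ j, 0 ≤ T j)
    (he : (∀ j, 0 < T j) → EmptyBox V T) (hp : 606516 / 1048576 * |V.det| ≤ ∏ j, T j) :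
    Good kap V := by
  have hdet : 0 < |V.det| := abs_pos.2 hV.det_ne
  have hpos : 0 < ∏ j, T j := lt_of_lt_of_le (by positivity) hp
  have hT : ∀ j, 0 < T j := by
    intro j
    rcases eq_or_lt_of_le (h0 j) with h | h
    · exfalso
      rw [Finset.prod_eq_zero (Finset.mem_univ j) h.symm] at hpos
      exact lt_irrefl _ hpos
    · exact h
  refine ⟨T, hT, he hT, le_trans ?_ hp⟩
  apply mul_le_mul_of_nonneg_right _ hdet.le
  have := kap_lt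
  linarith

lemma exists_lt_bound (t' : ℝ) (f : ℕ → ℝ) : ∀ bs : List ℕ, (∀ c ∈ bs, f c < t') →
    ∃ t < t', ∀ c ∈ bs, f c ≤ t := by
  intro bs
  induction bs with
  | nil => exact fun _ => ⟨t' - 1, by linarith, fun c hc => by cases hc⟩
  | cons b bs ih =>
    intro h
    obtain ⟨t, ht, hb⟩ := ih (fun c hc => h c (List.mem_cons_of_mem _ hc))
    refine ⟨max t (f b), max_lt ht (h b List.mem_cons_self), ?_⟩
    intro c hc
    rcases List.mem_cons.1 hc with rfl | hc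
    · exact le_max_right _ _
    · exact (hb c hc).trans (le_max_left _ _)

/-- Soundness of the volume test. -/
theorem vol_good (C : Ctx V ω1 ω2 ω3 l0 h0 l1 h1 l2 h2 l3 h3 l4 h4 l5 h5) {lam : ℕ} {bs : List ℕ}
    (hb : allBx bs l0 h0 l1 h1 l2 h2 l3 h3 l4 h4 l5 h5 = true)
    (hv : volCell (sumP lam bs l0 h0 l1 h1 l2 h2 l3 h3 l4 h4 l5 h5) (sumLam lam bs)
      l0 h0 l1 h1 l2 h2 l3 h3 l4 h4 l5 h5 = true) : Good kap V := by
  have hmem : ∀ bs : List ℕ, allBx bs l0 h0 l1 h1 l2 h2 l3 h3 l4 h4 l5 h5 = true →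
      ∀ c ∈ bs, bxOK c l0 h0 l1 h1 l2 h2 l3 h3 l4 h4 l5 h5 = true := by
    intro bs
    induction bs with
    | nil => exact fun _ c hc => by cases hc
    | cons b bs ih =>
      intro h c hc
      obtain ⟨q1, q2⟩ := bAnd_true (a := bxOK b l0 h0 l1 h1 l2 h2 l3 h3 l4 h4 l5 h5)
        (b := allBx bs l0 h0 l1 h1 l2 h2 l3 h3 l4 h4 l5 h5) h
      rcases List.mem_cons.1 hc with rfl | hc
      · exact q1
      · exact ih q2 c hc
  by_contra hbad
  set t' : ℝ := 606516 / 1048576 * |V.det| with ht'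
  have f1 : ∀ c ∈ bs, ∏ j, bT V c j < t' := by
    intro c hc
    by_contra hcon
    push Not at hcon
    obtain ⟨q1, q2, -⟩ := bxOK_sound C (hmem bs hb c hc)
    exact hbad (good_of_box C.nrm q1 q2 hcon)
  have f2 : 1 < t' := by
    by_contra hcon
    push Not at hcon
    refine hbad (good_of_box (T := fun _ => 1) C.nrm (fun _ => zero_le_one)
      (fun _ => C.nrm.empty) ?_)
    simpa using hcon
  obtain ⟨t0, ht0, hb0⟩ := exists_lt_bound t' (fun c => ∏ j, bT V c j) bs f1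
  have f3 := EE_PT C lam (t := max t0 1) (fun _ => le_max_right _ _) bs hb
    (fun c hc => (hb0 c hc).trans (le_max_left _ _))
  have ht : max t0 1 < t' := max_lt ht0 f2
  rw [sumP_eq C lam bs hb] at hv
  obtain ⟨hL, hineq⟩ := volCell_spec (PT_bound C lam bs hb) C.l0 C.h0 C.l1 C.h1 C.l2 C.h2
    C.l3 C.h3 C.l4 C.h4 C.l5 C.h5 hv
  set L : ℕ := sumLam lam bs with hLdef
  set D : Fin 4 → Fin 4 → Fin 4 → ℤ := fun s1 s2 s3 => det64 (yA l0 h0 s1) (yB l1 h1 s1)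
    (yA l2 h2 s2) (yB l3 h3 s2) (yA l4 h4 s3) (yB l5 h5 s3) with hD
  have n1 := C.w1.nn
  have n2 := C.w2.nn
  have n3 := C.w3.nn
  have hdet : EE ω1 ω2 ω3 (fun s1 s2 s3 => (D s1 s2 s3 : ℝ)) = 64 ^ 3 * V.det :=
    EE_det C.nrm.diag C.w1 C.w2 C.w3
  have g1 : 64 ^ 3 * |V.det| ≤ EE ω1 ω2 ω3 (fun s1 s2 s3 => |(D s1 s2 s3 : ℝ)|) := by
    rcases abs_cases V.det with ⟨h, -⟩ | ⟨h, -⟩
    · rw [h, ← hdet]
      exact EE_mono n1 n2 n3 fun a b c => le_abs_self _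
    · rw [h]
      have : EE ω1 ω2 ω3 (fun s1 s2 s3 => (-1) * (D s1 s2 s3 : ℝ)) = 64 ^ 3 * -V.det := by
        rw [EE_smul, hdet]; ring
      rw [← this]
      apply EE_mono n1 n2 n3
      intro a b c
      have := neg_le_abs (D a b c : ℝ)
      linarith
  have g2 : EE ω1 ω2 ω3 (fun s1 s2 s3 => (606516 * (L : ℝ)) * |(D s1 s2 s3 : ℝ)|) ≤
      EE ω1 ω2 ω3 (fun s1 s2 s3 => 1048576 *
        (PT lam l0 h0 l1 h1 l2 h2 l3 h3 l4 h4 l5 h5 bs s1 s2 s3 : ℝ)) := by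
    apply EE_mono n1 n2 n3
    intro a b c
    have := hineq a b c
    have h' : ((606516 * L * |D a b c| : ℤ) : ℝ) ≤
        ((1048576 * (PT lam l0 h0 l1 h1 l2 h2 l3 h3 l4 h4 l5 h5 bs a b c : ℤ) : ℤ) : ℝ) := by
      exact_mod_cast this
    push_cast at h'
    exact h'
  rw [EE_smul, EE_smul] at g2
  have hL' : (1 : ℝ) ≤ L := by exact_mod_cast hL
  have g3 : 606516 * (L : ℝ) * (64 ^ 3 * |V.det|) ≤ 1048576 * (64 ^ 3 * (L * max t0 1)) :=
    (mul_le_mul_of_nonneg_left g1 (by positivity)).trans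
      (g2.trans (mul_le_mul_of_nonneg_left f3 (by norm_num)))
  have g4 : (L : ℝ) * (606516 * |V.det|) ≤ L * (1048576 * max t0 1) := by nlinarith
  have g5 : 606516 * |V.det| ≤ 1048576 * max t0 1 :=
    le_of_mul_le_mul_left g4 (by linarith)
  have : t' ≤ max t0 1 := by
    rw [ht']
    linarith
  linarith

theorem leafM_good (C : Ctx V ω1 ω2 ω3 l0 h0 l1 h1 l2 h2 l3 h3 l4 h4 l5 h5) {lam : ℕ} {bs : List ℕ}
    (h : leafM lam bs l0 h0 l1 h1 l2 h2 l3 h3 l4 h4 l5 h5 = true) : Good kap V := by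
  obtain ⟨q1, q2⟩ := bAnd_true h
  exact vol_good C q2 q1

theorem leaf1_good (C : Ctx V ω1 ω2 ω3 l0 h0 l1 h1 l2 h2 l3 h3 l4 h4 l5 h5) {c : ℕ}
    (h : leaf1 c l0 h0 l1 h1 l2 h2 l3 h3 l4 h4 l5 h5 = true) : Good kap V := by
  obtain ⟨q1, q2⟩ := bAnd_true h
  have e1 : sumP 0 [c] l0 h0 l1 h1 l2 h2 l3 h3 l4 h4 l5 h5 =
      bxPr c l0 h0 l1 h1 l2 h2 l3 h3 l4 h4 l5 h5 := by
    show bxPr c l0 h0 l1 h1 l2 h2 l3 h3 l4 h4 l5 h5 + 0 * ONE64 = _
    rw [Nat.zero_mul, Nat.add_zero]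
  have e2 : sumLam 0 [c] = cLam c := by
    show cLam c + 0 = _
    rw [Nat.add_zero]
  apply vol_good C (lam := 0) (bs := [c])
  · show bAnd (bxOK c l0 h0 l1 h1 l2 h2 l3 h3 l4 h4 l5 h5) true = true
    rw [q2]; rfl
  · rw [e1, e2]
    exact q1

end ctx

end Pool.Agent.Lib.MP_ddd95a_nt
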